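import Mathlib

/-!
# MP_1dedaf_gt: multiplicative Prekopa-Leindler with equality; facts on the line
-/

set_option autoImplicit false

section

/-! MP_1dedaf_gt, EQ, row A, first part: the quantile function of a positive continuous density -/


open MeasureTheory Set Filter Topology

namespace Pool.Agent.Lib.MP_1dedaf_gt.EQ

/-- A function which is continuous on an interval and bounded is integrable there. -/
theorem A_integrable {a : ℝ} {f : ℝ → ℝ} (hf : ContinuousOn f (Ioo 0 a))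
    (hf0 : ∀ x, 0 < x → x < a → 0 ≤ f x) {M : ℝ} (hfM : ∀ x, f x ≤ M) :
    IntegrableOn f (Ioo 0 a) := by
  refine IntegrableOn.of_bound (by simp) (hf.aestronglyMeasurable measurableSet_Ioo) M ?_
  refine (ae_restrict_iff' measurableSet_Ioo).2 (Eventually.of_forall fun x hx => ?_)
  rw [Real.norm_eq_abs, abs_of_nonneg (hf0 x hx.1 hx.2)]
  exact hfM x

/-- The quantile function. -/
theorem A_quantile {a : ℝ} (ha : 0 < a) {f : ℝ → ℝ} (hf : ContinuousOn f (Ioo 0 a))
    (hf0 : ∀ x, 0 < x → x < a → 0 < f x) {M : ℝ} (hfM : ∀ x, f x ≤ M) :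
    ∃ X : ℝ → ℝ, 0 < (∫ x in Ioo 0 a, f x) ∧
      (∀ l ∈ Ioo (0 : ℝ) 1, X l ∈ Ioo 0 a ∧
        HasDerivAt X ((∫ x in Ioo 0 a, f x) / f (X l)) l) ∧
      StrictMonoOn X (Ioo 0 1) ∧
      ∀ x ∈ Ioo 0 a, ∃ l ∈ Ioo (0 : ℝ) 1, X l = x := by
  have hint : IntegrableOn f (Ioo 0 a) := A_integrable hf (fun x h1 h2 => (hf0 x h1 h2).le) hfM
  have hintc : IntegrableOn f (Icc 0 a) := by
    rwa [integrableOn_Icc_iff_integrableOn_Ioo]
  set F : ℝ → ℝ := fun x => ∫ y in (0 : ℝ)..x, f y with hF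
  have hcont : ContinuousOn F (Icc 0 a) := by
    have h1 : IntegrableOn f (uIcc 0 a) := by rwa [uIcc_of_le ha.le]
    have := intervalIntegral.continuousOn_primitive_interval h1
    rwa [uIcc_of_le ha.le] at this
  have hder : ∀ x ∈ Ioo 0 a, HasDerivAt F (f x) x := by
    intro x hx
    refine intervalIntegral.integral_hasDerivAt_right ?_ ?_ ?_
    · rw [intervalIntegrable_iff_integrableOn_Ioc_of_le hx.1.le]
      exact hintc.mono_set fun y hy => ⟨hy.1.le, hy.2.trans hx.2.le⟩
    · exact hf.stronglyMeasurableAtFilter isOpen_Ioo x hx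
    · exact hf.continuousAt (isOpen_Ioo.mem_nhds hx)
  have hmono : StrictMonoOn F (Icc 0 a) := by
    refine strictMonoOn_of_deriv_pos (convex_Icc 0 a) hcont fun x hx => ?_
    rw [interior_Icc] at hx
    rw [(hder x hx).deriv]
    exact hf0 x hx.1 hx.2
  have hF0 : F 0 = 0 := by simp [hF]
  have hFa : F a = ∫ x in Ioo 0 a, f x := by
    simp only [hF]
    rw [intervalIntegral.integral_of_le ha.le, integral_Ioc_eq_integral_Ioo]
  set A : ℝ := ∫ x in Ioo 0 a, f x with hA
  have hApos : 0 < A := by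
    rw [← hFa, ← hF0]
    exact hmono ⟨le_rfl, ha.le⟩ ⟨ha.le, le_rfl⟩ ha
  have hex : ∀ l : ℝ, l ∈ Ioo (0 : ℝ) 1 → ∃ x ∈ Ioo 0 a, F x = l * A := by
    intro l hl
    have h1 := intermediate_value_Ioo ha.le hcont
    have h2 : l * A ∈ Ioo (F 0) (F a) := by
      rw [hF0, hFa]
      exact ⟨mul_pos hl.1 hApos, by nlinarith [hl.2]⟩
    exact h1 h2
  choose! X hX hFX using hex
  have hsm : StrictMonoOn X (Ioo 0 1) := by
    intro l hl l' hl' hlt
    by_contra hle
    rw [not_lt] at hle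
    have h1 : F (X l') ≤ F (X l) :=
      hmono.monotoneOn ⟨(hX l' hl').1.le, (hX l' hl').2.le⟩ ⟨(hX l hl).1.le, (hX l hl).2.le⟩ hle
    rw [hFX l hl, hFX l' hl'] at h1
    nlinarith
  have hsurj : ∀ x ∈ Ioo 0 a, ∃ l ∈ Ioo (0 : ℝ) 1, X l = x := by
    intro x hx
    have h1 : 0 < F x := by
      rw [← hF0]
      exact hmono ⟨le_rfl, ha.le⟩ ⟨hx.1.le, hx.2.le⟩ hx.1
    have h2 : F x < A := by
      rw [← hFa]
      exact hmono ⟨hx.1.le, hx.2.le⟩ ⟨ha.le, le_rfl⟩ hx.2
    have hl : F x / A ∈ Ioo (0 : ℝ) 1 := ⟨div_pos h1 hApos, (div_lt_one hApos).2 h2⟩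
    refine ⟨F x / A, hl, ?_⟩
    have h3 := hFX _ hl
    rw [div_mul_cancel₀ _ hApos.ne'] at h3
    exact hmono.injOn ⟨(hX _ hl).1.le, (hX _ hl).2.le⟩ ⟨hx.1.le, hx.2.le⟩ h3
  refine ⟨X, hApos, fun l hl => ⟨hX l hl, ?_⟩, hsm, hsurj⟩
  have himg : X '' Ioo 0 1 = Ioo 0 a := by
    ext x
    constructor
    · rintro ⟨l, hl, rfl⟩
      exact hX l hl
    · intro hx
      obtain ⟨l, hl, h⟩ := hsurj x hx
      exact ⟨l, hl, h⟩
  have hXc : ContinuousAt X l := by
    refine hsm.continuousAt_of_image_mem_nhds (isOpen_Ioo.mem_nhds hl) ?_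
    rw [himg]
    exact isOpen_Ioo.mem_nhds (hX l hl)
  have hfx : 0 < f (X l) := hf0 _ (hX l hl).1 (hX l hl).2
  have h1 : HasDerivAt (fun x => F x / A) (f (X l) / A) (X l) := (hder _ (hX l hl)).div_const A
  have h2 := HasDerivAt.of_local_left_inverse hXc h1 (by positivity) (by
    filter_upwards [isOpen_Ioo.mem_nhds hl] with y hy
    rw [hFX y hy, mul_div_assoc, div_self hApos.ne', mul_one])
  rwa [inv_div] at h2

end Pool.Agent.Lib.MP_1dedaf_gt.EQ

end

section

/-! MP_1dedaf_gt, EQ, row A: the equality case of the multiplicative Prekopa-Leindler inequality -/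


open MeasureTheory Set Filter Topology

namespace Pool.Agent.Lib.MP_1dedaf_gt.EQ

/-- The strict weighted arithmetic-geometric mean inequality. -/
theorem A_amgm {t p q : ℝ} (ht0 : 0 < t) (ht1 : t < 1) (hp : 0 < p) (hq : 0 < q) :
    p ^ (1 - t) * q ^ t ≤ (1 - t) * p + t * q ∧
      ((1 - t) * p + t * q = p ^ (1 - t) * q ^ t → p = q) := by
  refine ⟨Real.geom_mean_le_arith_mean2_weighted (by linarith) ht0.le hp.le hq.le (by ring),
    fun h => ?_⟩
  by_contra hne
  have hl : Real.log p ≠ Real.log q := fun he => hne (Real.log_injOn_pos hp hq he)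
  have h1 := strictConvexOn_exp.2 (mem_univ (Real.log p)) (mem_univ (Real.log q)) hl
    (show (0 : ℝ) < 1 - t by linarith) ht0 (by ring)
  simp only [smul_eq_mul] at h1
  rw [Real.exp_log hp, Real.exp_log hq, Real.exp_add, h, Real.rpow_def_of_pos hp,
    Real.rpow_def_of_pos hq, mul_comm (1 - t), mul_comm t] at h1
  exact lt_irrefl _ h1

/-- ROW A. -/
theorem pleq {t : ℝ} (ht0 : 0 < t) (ht1 : t < 1) {a b : ℝ} (ha : 0 < a) (hb : 0 < b)
    {f g h : ℝ → ℝ} (hf : ContinuousOn f (Ioo 0 a)) (hg : ContinuousOn g (Ioo 0 b))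
    (hh : ContinuousOn h (Ioo 0 (a ^ (1 - t) * b ^ t)))
    (hf0 : ∀ x, 0 < x → x < a → 0 < f x) (hg0 : ∀ x, 0 < x → x < b → 0 < g x)
    (hh0 : ∀ x, 0 ≤ h x) {M : ℝ} (hfM : ∀ x, f x ≤ M) (hgM : ∀ x, g x ≤ M) (hhM : ∀ x, h x ≤ M)
    (hfg : ∀ x y, 0 < x → x < a → 0 < y → y < b → f x ^ (1 - t) * g y ^ t ≤ h (x ^ (1 - t) * y ^ t))
    (heq : (∫ x in Ioo 0 (a ^ (1 - t) * b ^ t), h x) ≤
      (∫ x in Ioo 0 a, f x) ^ (1 - t) * (∫ x in Ioo 0 b, g x) ^ t) :
    ∃ c : ℝ, 0 < c ∧ ∀ x, 0 < x → x < a → g (b / a * x) = c * f x ∧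
      h ((b / a) ^ t * x) = f x ^ (1 - t) * g (b / a * x) ^ t := by
  have hs : 0 < 1 - t := by linarith
  obtain ⟨X, hA, hX, hXm, hXs⟩ := A_quantile ha hf hf0 hfM
  obtain ⟨Y, hB, hY, hYm, hYs⟩ := A_quantile hb hg hg0 hgM
  set A : ℝ := ∫ x in Ioo 0 a, f x with hAdef
  set B : ℝ := ∫ x in Ioo 0 b, g x with hBdef
  set m : ℝ := a ^ (1 - t) * b ^ t with hm
  have hm0 : 0 < m := by positivity
  set U : Set ℝ := Ioo 0 1 with hU
  have hUo : IsOpen U := isOpen_Ioo
  -- the map
  set n : ℝ → ℝ := fun l => Real.exp ((1 - t) * Real.log (X l) + t * Real.log (Y l)) with hn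
  have hnv : ∀ l ∈ U, n l = X l ^ (1 - t) * Y l ^ t := by
    intro l hl
    simp only [hn]
    rw [Real.exp_add, Real.rpow_def_of_pos (hX l hl).1.1, Real.rpow_def_of_pos (hY l hl).1.1,
      mul_comm (1 - t), mul_comm t]
  set P : ℝ → ℝ := fun l => A / f (X l) / X l with hP
  set Q : ℝ → ℝ := fun l => B / g (Y l) / Y l with hQ
  set D : ℝ → ℝ := fun l => n l * ((1 - t) * P l + t * Q l) with hD
  have hfX : ∀ l ∈ U, 0 < f (X l) := fun l hl => hf0 _ (hX l hl).1.1 (hX l hl).1.2
  have hgY : ∀ l ∈ U, 0 < g (Y l) := fun l hl => hg0 _ (hY l hl).1.1 (hY l hl).1.2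
  have hP0 : ∀ l ∈ U, 0 < P l := fun l hl =>
    div_pos (div_pos hA (hfX l hl)) (hX l hl).1.1
  have hQ0 : ∀ l ∈ U, 0 < Q l := fun l hl =>
    div_pos (div_pos hB (hgY l hl)) (hY l hl).1.1
  have hn0 : ∀ l, 0 < n l := fun l => Real.exp_pos _
  have hD0 : ∀ l ∈ U, 0 < D l := fun l hl =>
    mul_pos (hn0 l) (add_pos (mul_pos hs (hP0 l hl)) (mul_pos ht0 (hQ0 l hl)))
  have hnd : ∀ l ∈ U, HasDerivAt n (D l) l := by
    intro l hl
    have h1 := ((hX l hl).2.log (hX l hl).1.1.ne').const_mul (1 - t)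
    have h2 := ((hY l hl).2.log (hY l hl).1.1.ne').const_mul t
    exact (h1.add h2).exp
  have hnm : StrictMonoOn n U := by
    refine strictMonoOn_of_deriv_pos (convex_Ioo 0 1)
      (fun l hl => (hnd l hl).continuousAt.continuousWithinAt) fun l hl => ?_
    rw [interior_Ioo] at hl
    rw [(hnd l hl).deriv]
    exact hD0 l hl
  have hnI : ∀ l ∈ U, n l ∈ Ioo 0 m := by
    intro l hl
    refine ⟨hn0 l, ?_⟩
    rw [hnv l hl, hm]
    exact mul_lt_mul'' (Real.rpow_lt_rpow (hX l hl).1.1.le (hX l hl).1.2 hs)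
      (Real.rpow_lt_rpow (hY l hl).1.1.le (hY l hl).1.2 ht0) (by have := (hX l hl).1.1; positivity)
      (by have := (hY l hl).1.1; positivity)
  -- continuity
  have hXc : ContinuousOn X U := fun l hl => (hX l hl).2.continuousAt.continuousWithinAt
  have hYc : ContinuousOn Y U := fun l hl => (hY l hl).2.continuousAt.continuousWithinAt
  have hnc : ContinuousOn n U := fun l hl => (hnd l hl).continuousAt.continuousWithinAt
  have hfXc : ContinuousOn (fun l => f (X l)) U := hf.comp hXc fun l hl => (hX l hl).1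
  have hgYc : ContinuousOn (fun l => g (Y l)) U := hg.comp hYc fun l hl => (hY l hl).1
  have hhnc : ContinuousOn (fun l => h (n l)) U := hh.comp hnc hnI
  have hPc : ContinuousOn P U := by
    refine ContinuousOn.div (ContinuousOn.div continuousOn_const hfXc fun l hl => ?_) hXc
      fun l hl => ?_
    · exact (hfX l hl).ne'
    · exact (hX l hl).1.1.ne'
  have hQc : ContinuousOn Q U := by
    refine ContinuousOn.div (ContinuousOn.div continuousOn_const hgYc fun l hl => ?_) hYc
      fun l hl => ?_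
    · exact (hgY l hl).ne'
    · exact (hY l hl).1.1.ne'
  have hDc : ContinuousOn D U :=
    hnc.mul ((continuousOn_const.mul hPc).add (continuousOn_const.mul hQc))
  -- the pointwise inequality
  set W : ℝ := A ^ (1 - t) * B ^ t with hW
  have hW0 : 0 < W := by positivity
  have hsplit : ∀ l ∈ U, (n l * (P l ^ (1 - t) * Q l ^ t)) *
      (f (X l) ^ (1 - t) * g (Y l) ^ t) = W := by
    intro l hl
    have h1 := hfX l hl
    have h2 := hgY l hl
    have h3 := (hX l hl).1.1
    have h4 := (hY l hl).1.1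
    rw [hnv l hl, hW]
    simp only [hP, hQ]
    rw [Real.div_rpow (by positivity) h3.le, Real.div_rpow hA.le h1.le,
      Real.div_rpow (by positivity) h4.le, Real.div_rpow hB.le h2.le]
    have h5 : 0 < f (X l) ^ (1 - t) := by positivity
    have h6 : 0 < g (Y l) ^ t := by positivity
    have h7 : 0 < X l ^ (1 - t) := by positivity
    have h8 : 0 < Y l ^ t := by positivity
    field_simp
  have hD1 : ∀ l ∈ U, n l * (P l ^ (1 - t) * Q l ^ t) ≤ D l := fun l hl =>
    mul_le_mul_of_nonneg_left (A_amgm ht0 ht1 (hP0 l hl) (hQ0 l hl)).1 (hn0 l).le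
  have hh1 : ∀ l ∈ U, f (X l) ^ (1 - t) * g (Y l) ^ t ≤ h (n l) := by
    intro l hl
    rw [hnv l hl]
    exact hfg _ _ (hX l hl).1.1 (hX l hl).1.2 (hY l hl).1.1 (hY l hl).1.2
  have hge : ∀ l ∈ U, W ≤ D l * h (n l) := by
    intro l hl
    rw [← hsplit l hl]
    have h1 := hfX l hl
    have h2 := hgY l hl
    exact mul_le_mul (hD1 l hl) (hh1 l hl) (by positivity) (hD0 l hl).le
  -- the integrals
  have hhint : IntegrableOn h (Ioo 0 m) := A_integrable hh (fun x _ _ => hh0 x) hhM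
  have himg : n '' U ⊆ Ioo 0 m := by
    rintro _ ⟨l, hl, rfl⟩
    exact hnI l hl
  have hcv := integral_image_eq_integral_abs_deriv_smul (measurableSet_Ioo : MeasurableSet U)
    (fun l hl => (hnd l hl).hasDerivWithinAt) hnm.injOn h
  have hcvi := (integrableOn_image_iff_integrableOn_abs_deriv_smul
    (measurableSet_Ioo : MeasurableSet U) (fun l hl => (hnd l hl).hasDerivWithinAt) hnm.injOn h).1
    (hhint.mono_set himg)
  have habs : ∀ l ∈ U, |D l| • h (n l) = D l * h (n l) := by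
    intro l hl
    rw [abs_of_pos (hD0 l hl), smul_eq_mul]
  have hint : IntegrableOn (fun l => D l * h (n l)) U :=
    hcvi.congr_fun habs measurableSet_Ioo
  have hle : (∫ l in U, D l * h (n l)) ≤ W := by
    rw [← setIntegral_congr_fun (measurableSet_Ioo : MeasurableSet U) habs, ← hcv]
    refine le_trans (setIntegral_mono_set hhint ?_ ?_) heq
    · exact Eventually.of_forall fun x => hh0 x
    · exact himg.eventuallyLE
  have hconst : (∫ _l in U, W) = W := by
    rw [setIntegral_const, hU]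
    simp
  have hWint : IntegrableOn (fun _ : ℝ => W) U := by
    rw [hU]
    exact integrableOn_const (by simp)
  set φ : ℝ → ℝ := fun l => D l * h (n l) - W with hφ
  have hφ0 : 0 ≤ᵐ[volume.restrict U] φ := by
    refine (ae_restrict_iff' measurableSet_Ioo).2 (Eventually.of_forall fun l hl => ?_)
    exact sub_nonneg.2 (hge l hl)
  have hφi : IntegrableOn φ U := hint.sub hWint
  have hφz : (∫ l in U, φ l) = 0 := by
    have h1 : (∫ l in U, φ l) = (∫ l in U, D l * h (n l)) - ∫ _l in U, W :=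
      integral_sub hint hWint
    have h2 : 0 ≤ ∫ l in U, φ l := integral_nonneg_of_ae hφ0
    rw [hconst] at h1
    linarith
  have hae : φ =ᵐ[volume.restrict U] 0 := (setIntegral_eq_zero_iff_of_nonneg_ae hφ0 hφi).1 hφz
  have hφc : ContinuousOn φ U := (hDc.mul hhnc).sub continuousOn_const
  have hzero : EqOn φ 0 U := Measure.eqOn_open_of_ae_eq hae hUo hφc continuousOn_const
  have hkey : ∀ l ∈ U, P l = Q l ∧ h (n l) = f (X l) ^ (1 - t) * g (Y l) ^ t := by
    intro l hl
    have h0 : D l * h (n l) = W := by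
      have := hzero hl
      simp only [hφ, Pi.zero_apply] at this
      linarith
    rw [← hsplit l hl] at h0
    have h1 := hfX l hl
    have h2 := hgY l hl
    have h3 := hP0 l hl
    have h4 := hQ0 l hl
    have h5 := hD1 l hl
    have h6 := hh1 l hl
    have h7 : 0 < n l * (P l ^ (1 - t) * Q l ^ t) := mul_pos (hn0 l) (by positivity)
    have h8 : 0 < f (X l) ^ (1 - t) * g (Y l) ^ t := by positivity
    have h9 : n l * (P l ^ (1 - t) * Q l ^ t) = D l := by
      by_contra hne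
      have hlt := lt_of_le_of_ne h5 hne
      have : n l * (P l ^ (1 - t) * Q l ^ t) * (f (X l) ^ (1 - t) * g (Y l) ^ t) <
          D l * h (n l) := mul_lt_mul hlt h6 h8 (hD0 l hl).le
      exact absurd h0 this.ne'
    refine ⟨?_, ?_⟩
    · refine (A_amgm ht0 ht1 h3 h4).2 ?_
      have h10 : n l * ((1 - t) * P l + t * Q l) = n l * (P l ^ (1 - t) * Q l ^ t) := h9.symm
      exact mul_left_cancel₀ (hn0 l).ne' h10
    · rw [h9] at h0
      exact mul_left_cancel₀ (hD0 l hl).ne' h0
  -- the two quantile functions are proportional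
  have hhalf : (1 / 2 : ℝ) ∈ U := by rw [hU]; norm_num
  have hprop : ∀ l ∈ U, Y l / X l = Y (1 / 2) / X (1 / 2) := by
    intro l hl
    have h1 : ∀ l ∈ U, HasDerivWithinAt (fun l => Y l / X l) 0 U l := by
      intro l hl
      have h2 := (hY l hl).2.div (hX l hl).2 (hX l hl).1.1.ne'
      have h3 : (B / g (Y l) * X l - Y l * (A / f (X l))) / X l ^ 2 = 0 := by
        have h4 := (hkey l hl).1
        simp only [hP, hQ] at h4
        have h5 := (hX l hl).1.1
        have h6 := (hY l hl).1.1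
        rw [div_eq_div_iff h5.ne' h6.ne'] at h4
        rw [← h4]
        ring
      rw [h3] at h2
      exact h2.hasDerivWithinAt
    have h4 := Convex.norm_image_sub_le_of_norm_hasDerivWithin_le (C := 0) h1
      (fun _ _ => by simp) (convex_Ioo 0 1) hhalf hl
    rw [zero_mul] at h4
    have h5 := norm_le_zero_iff.1 h4
    linarith
  set ρ : ℝ := Y (1 / 2) / X (1 / 2) with hρ
  have hρ0 : 0 < ρ := div_pos (hY _ hhalf).1.1 (hX _ hhalf).1.1
  have hYX : ∀ l ∈ U, Y l = ρ * X l := by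
    intro l hl
    rw [← hprop l hl, div_mul_cancel₀ _ (hX l hl).1.1.ne']
  have hρb : ρ = b / a := by
    rw [eq_div_iff ha.ne']
    rcases lt_trichotomy (ρ * a) b with h1 | h1 | h1
    · obtain ⟨y, hy1, hy2⟩ := exists_between h1
      obtain ⟨l, hl, hly⟩ := hYs y ⟨lt_trans (by positivity) hy1, hy2⟩
      have h2 := (hX l hl).1.2
      have h3 := hYX l hl
      rw [hly] at h3
      nlinarith
    · exact h1
    · have h2 : b / ρ < a := by
        rw [div_lt_iff₀ hρ0]
        linarith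
      obtain ⟨x, hx1, hx2⟩ := exists_between h2
      obtain ⟨l, hl, hlx⟩ := hXs x ⟨lt_trans (by positivity) hx1, hx2⟩
      have h3 := (hY l hl).1.2
      have h4 := hYX l hl
      rw [hlx] at h4
      rw [div_lt_iff₀ hρ0] at hx1
      linarith
  refine ⟨B * a / (A * b), by positivity, fun x hx0 hxa => ?_⟩
  obtain ⟨l, hl, hlx⟩ := hXs x ⟨hx0, hxa⟩
  have h1 := hYX l hl
  rw [hlx, hρb] at h1
  obtain ⟨h2, h3⟩ := hkey l hl
  simp only [hP, hQ] at h2
  rw [hnv l hl] at h3
  rw [hlx, h1] at h2 h3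
  have hf1 := hf0 x hx0 hxa
  have hba : 0 < b / a := div_pos hb ha
  have hyb : b / a * x < b := by
    rw [div_mul_eq_mul_div, div_lt_iff₀ ha]
    nlinarith
  have hg1 := hg0 (b / a * x) (by positivity) hyb
  refine ⟨?_, ?_⟩
  · have h4 : A / f x / x * (b / a * x) = B / g (b / a * x) := by
      rw [h2]
      field_simp
    have h5 : A / f x * (b / a) = B / g (b / a * x) := by
      rw [← h4]
      field_simp
    rw [eq_div_iff hg1.ne'] at h5
    have h6 : A * b * g (b / a * x) = B * a * f x := by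
      rw [← h5]
      field_simp
    have h7 : B * a / (A * b) * f x = B * a * f x / (A * b) := by ring
    rw [h7, eq_div_iff (by positivity)]
    linarith
  · rw [← h3]
    congr 1
    rw [Real.mul_rpow hba.le hx0.le]
    have h4 : x = x ^ (1 - t) * x ^ t := by
      rw [← Real.rpow_add hx0]
      simp
    calc (b / a) ^ t * x = (b / a) ^ t * (x ^ (1 - t) * x ^ t) := by rw [← h4]
      _ = _ := by ring

end Pool.Agent.Lib.MP_1dedaf_gt.EQ

end

section

open Set

namespace Pool.Agent.Lib.MP_1dedaf_gt.EQ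

/-- ROW G3: pure analysis. -/
theorem const_of_planes {I : Set ℝ} (hI : I.OrdConnected) {α : ℝ} (hα : 0 < α) {b B : ℝ → ℝ}
    (h : ∀ z ∈ I, ∃ σ : ℝ, ∀ z' ∈ I, b z' + |B z' - B z| * α ≤ b z + (z - z') * σ) :
    ∀ z ∈ I, ∀ z' ∈ I, B z = B z' := by
  classical
  choose! σ hσ using h
  have key : ∀ z ∈ I, ∀ z' ∈ I, 2 * α * |B z' - B z| ≤ (z' - z) * (σ z' - σ z) := by
    intro z hz z' hz'
    have h1 := hσ z hz z' hz'
    have h2 := hσ z' hz' z hz
    rw [abs_sub_comm (B z) (B z')] at h2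
    nlinarith
  -- the case `z < z'`
  have main : ∀ z ∈ I, ∀ z' ∈ I, z < z' → B z = B z' := by
    intro z hz z' hz' hlt
    have hsub : ∀ N : ℕ, 0 < N → 2 * α * |B z' - B z| * N ≤ (z' - z) * (σ z' - σ z) := by
      intro N hN
      have hN' : (0 : ℝ) < N := by exact_mod_cast hN
      set p : ℕ → ℝ := fun k => z + k * ((z' - z) / N) with hp
      have hd : 0 < (z' - z) / N := div_pos (by linarith) hN'
      have hpI : ∀ k ≤ N, p k ∈ I := by
        intro k hk
        refine hI.out hz hz' ⟨?_, ?_⟩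
        · have : (0 : ℝ) ≤ k * ((z' - z) / N) := by positivity
          simp only [hp]
          linarith
        · have h1 : (k : ℝ) ≤ N := by exact_mod_cast hk
          have h2 : (k : ℝ) * ((z' - z) / N) ≤ N * ((z' - z) / N) :=
            mul_le_mul_of_nonneg_right h1 hd.le
          have h3 : (N : ℝ) * ((z' - z) / N) = z' - z := by field_simp
          simp only [hp]
          linarith
      have hstep : ∀ k < N, 2 * α * |B (p (k + 1)) - B (p k)| * N ≤
          (z' - z) * (σ (p (k + 1)) - σ (p k)) := by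
        intro k hk
        have h1 := key (p k) (hpI k hk.le) (p (k + 1)) (hpI (k + 1) hk)
        have h2 : p (k + 1) - p k = (z' - z) / N := by
          simp only [hp]
          push_cast
          ring
        rw [h2] at h1
        calc 2 * α * |B (p (k + 1)) - B (p k)| * N
            ≤ (z' - z) / N * (σ (p (k + 1)) - σ (p k)) * N :=
              mul_le_mul_of_nonneg_right h1 hN'.le
          _ = _ := by field_simp
      have hind : ∀ k ≤ N, 2 * α * |B (p k) - B (p 0)| * N ≤ (z' - z) * (σ (p k) - σ (p 0)) := by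
        intro k
        induction k with
        | zero => intro _; simp
        | succ k ih =>
          intro hk
          have h1 := ih (by omega)
          have h2 := hstep k (by omega)
          have h3 : |B (p (k + 1)) - B (p 0)| ≤ |B (p (k + 1)) - B (p k)| + |B (p k) - B (p 0)| :=
            abs_sub_le _ _ _
          have h4 : 0 ≤ 2 * α * N := by positivity
          nlinarith [mul_le_mul_of_nonneg_left h3 h4]
      have h5 := hind N le_rfl
      have h6 : p 0 = z := by simp [hp]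
      have h7 : p N = z' := by
        simp only [hp]
        field_simp
        ring
      rwa [h6, h7] at h5
    by_contra hne
    have hpos : 0 < 2 * α * |B z' - B z| :=
      mul_pos (by linarith) (abs_pos.2 (sub_ne_zero.2 (Ne.symm hne)))
    obtain ⟨N, hN⟩ := exists_nat_gt ((z' - z) * (σ z' - σ z) / (2 * α * |B z' - B z|))
    rw [div_lt_iff₀ hpos] at hN
    have h0 : 0 ≤ (z' - z) * (σ z' - σ z) :=
      le_trans (by positivity) (key z hz z' hz')
    have hN0 : 0 < N := by
      rcases Nat.eq_zero_or_pos N with h | h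
      · subst h
        simp at hN
        linarith
      · exact h
    have := hsub N hN0
    nlinarith
  intro z hz z' hz'
  rcases lt_trichotomy z z' with h1 | h1 | h1
  · exact main z hz z' hz' h1
  · rw [h1]
  · exact (main z' hz' z hz h1).symm

end Pool.Agent.Lib.MP_1dedaf_gt.EQ

end

section

/-!
# MP_1dedaf_gt, EG row 12: locally constant functions on an open interval
-/

open MeasureTheory Set Filter Topology
open scoped ENNReal NNReal Pointwise
namespace Pool.Agent.Lib.MP_1dedaf_gt.EG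

/-- ROW 12: pure topology of the line. -/
theorem const_of_local {α : Type*} {a : ℝ} (f : ℝ → α)
    (h : ∀ z, 0 < z → z < a → ∃ ε, 0 < ε ∧ ∀ z', 0 < z' → z' < a → |z' - z| < ε → f z' = f z) :
    ∀ z z', 0 < z → z < a → 0 < z' → z' < a → f z = f z' := by
  intro z z' hz hza hz' hza'
  let _ : TopologicalSpace α := ⊥
  have _ : DiscreteTopology α := ⟨rfl⟩
  refine (isPreconnected_Ioo (a := (0 : ℝ)) (b := a)).constant (f := f) ?_ ⟨hz, hza⟩ ⟨hz', hza'⟩
  intro x hx
  obtain ⟨ε, hε, hf⟩ := h x hx.1 hx.2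
  refine (tendsto_const_nhds (x := f x)).congr' ?_
  have hb : Metric.ball x ε ∩ Ioo 0 a ∈ 𝓝[Ioo 0 a] x :=
    inter_mem (mem_nhdsWithin_of_mem_nhds (Metric.ball_mem_nhds x hε)) self_mem_nhdsWithin
  filter_upwards [hb] with y hy
  refine (hf y hy.2.1 hy.2.2 ?_).symm
  have := hy.1
  rwa [Metric.mem_ball, Real.dist_eq] at this

theorem nat_right {a : ℝ} (d : ℝ → ℕ) {M : ℕ} (hM : ∀ z, d z ≤ M)
    (hd : ∀ z z', 0 < z → z ≤ z' → z' < a → d z' ≤ d z) {z : ℝ} (hz : 0 < z) (hza : z < a) :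
    ∃ ε, 0 < ε ∧ z + ε ≤ a ∧ ∀ x y, z < x → x < z + ε → z < y → y < z + ε → d x = d y := by
  have hfin : (d '' Ioo z a).Finite := (Set.finite_Iic M).subset (by
    rintro _ ⟨y, -, rfl⟩
    exact hM y)
  have hne : (d '' Ioo z a).Nonempty := (nonempty_Ioo.2 hza).image d
  obtain ⟨m, ⟨y0, hy0, rfl⟩, hm⟩ := Set.exists_max_image (d '' Ioo z a) id hfin hne
  have key : ∀ x, z < x → x < y0 → d x = d y0 := by
    intro x hx hxy
    refine le_antisymm (hm (d x) ⟨x, ⟨hx, hxy.trans hy0.2⟩, rfl⟩) ?_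
    exact hd x y0 (hz.trans hx) hxy.le hy0.2
  refine ⟨y0 - z, sub_pos.2 hy0.1, by linarith [hy0.2], fun x y hx hx' hy hy' => ?_⟩
  rw [key x hx (by linarith), key y hy (by linarith)]

theorem nat_left {a : ℝ} (d : ℝ → ℕ)
    (hd : ∀ z z', 0 < z → z ≤ z' → z' < a → d z' ≤ d z) {z : ℝ} (hz : 0 < z) (hza : z < a) :
    ∃ ε, 0 < ε ∧ 0 ≤ z - ε ∧ ∀ x y, z - ε < x → x < z → z - ε < y → y < z → d x = d y := by
  have hne : (d '' Ioo 0 z).Nonempty := (nonempty_Ioo.2 hz).image d
  obtain ⟨y0, hy0, hm⟩ := Nat.sInf_mem hne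
  have key : ∀ x, y0 < x → x < z → d x = d y0 := by
    intro x hx hxz
    refine le_antisymm (hd y0 x hy0.1 hx.le (hxz.trans hza)) ?_
    rw [hm]
    exact Nat.sInf_le ⟨x, ⟨hy0.1.trans hx, hxz⟩, rfl⟩
  refine ⟨z - y0, sub_pos.2 hy0.2, by linarith [hy0.1], fun x y hx hx' hy hy' => ?_⟩
  rw [key x (by linarith) hx', key y (by linarith) hy']

end Pool.Agent.Lib.MP_1dedaf_gt.EG

end
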