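import Pool.Agent.Lib.MP_1dedaf_gt.ED.B
import Pool.Agent.Lib.MP_1dedaf_gt.ED.A

/-!
# MP_1dedaf_gt: the chain and the global structure
-/

set_option autoImplicit false

section

/-!
# MP_1dedaf_gt, EQ, row C: the chain of inequalities
-/


open MeasureTheory Set Filter Topology
open scoped ENNReal NNReal Pointwise

namespace Pool.Agent.Lib.MP_1dedaf_gt.EQ

open Pool.Agent.Lib.MP_1dedaf_gt.SC

private lemma ext_zz {n : ℕ} : ext (0 : E n) (0 : ℝ) = 0 := by
  ext i
  refine Fin.lastCases ?_ (fun j => ?_) i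
  · rw [ext_last]
    rfl
  · rw [ext_castSucc]
    rfl

/-- The support function of a compact set is continuous. -/
lemma chain_supp_cont {n : ℕ} {K : Set (E n)} (hK : IsCompact K) : Continuous (supp K) := by
  unfold supp
  apply hK.continuous_sSup (f := fun u y : E n => (inner ℝ y u : ℝ))
  exact continuous_snd.inner continuous_fst

/-- The support function is positive if `0` is an interior point. -/
lemma chain_supp_pos {n : ℕ} {K : Set (E n)} (hK : IsCompact K) (h0 : (0 : E n) ∈ interior K) {u : E n}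
    (hu : u ≠ 0) : 0 < supp K u := by
  have h1 : Tendsto (fun e : ℝ => e • u) (𝓝[>] 0) (𝓝 0) := by
    have h2 : Tendsto (fun e : ℝ => e • u) (𝓝 0) (𝓝 ((0 : ℝ) • u)) :=
      (continuous_id.smul continuous_const).tendsto 0
    rw [zero_smul] at h2
    exact h2.mono_left nhdsWithin_le_nhds
  have h3 := h1.eventually (isOpen_interior.mem_nhds h0)
  obtain ⟨e, he1, he2⟩ := (h3.and self_mem_nhdsWithin).exists
  have he2' : 0 < e := he2
  have h4 := le_supp hK u (interior_subset he1)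
  rw [real_inner_smul_left, real_inner_self_eq_norm_sq] at h4
  have h5 : 0 < ‖u‖ := norm_pos_iff.2 hu
  have h6 : 0 < e * ‖u‖ ^ 2 := by positivity
  linarith

/-- Strict weighted inequality between the means. -/
lemma chain_amgm_lt {t : ℝ} (ht0 : 0 < t) (ht1 : t < 1) {p q : ℝ} (hp : 0 < p) (hq : 0 < q)
    (hne : p ≠ q) : p ^ (1 - t) * q ^ t < (1 - t) * p + t * q := by
  have h1 := strictConcaveOn_log_Ioi.2 (mem_Ioi.2 hp) (mem_Ioi.2 hq) hne
    (by linarith : 0 < 1 - t) ht0 (by ring)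
  simp only [smul_eq_mul] at h1
  have h2 : p ^ (1 - t) * q ^ t = Real.exp ((1 - t) * Real.log p + t * Real.log q) := by
    rw [Real.exp_add, Real.rpow_def_of_pos hp, Real.rpow_def_of_pos hq, mul_comm (Real.log p),
      mul_comm (Real.log q)]
  have h3 : 0 < (1 - t) * p + t * q := by
    have : 0 < 1 - t := by linarith
    positivity
  rw [h2, ← Real.lt_log_iff_exp_lt h3]
  exact h1

/-- Equality in Hölder's inequality for two terms. -/
lemma chain_holder2_eq {t : ℝ} (ht0 : 0 < t) (ht1 : t < 1) {a b c d : ℝ} (ha : 0 < a) (hb : 0 < b)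
    (hc : 0 < c) (hd : 0 < d)
    (h : (a + c) ^ (1 - t) * (b + d) ^ t ≤ a ^ (1 - t) * b ^ t + c ^ (1 - t) * d ^ t) :
    a * d = b * c := by
  have hs0 : 0 < 1 - t := by linarith
  have h0 : 0 < a + c := by linarith
  have h1 : 0 < b + d := by linarith
  have hP : 0 < (a + c) ^ (1 - t) * (b + d) ^ t := by positivity
  have e3 : ∀ x y : ℝ, 0 < x → 0 < y → x ^ (1 - t) * y ^ t =
      ((x / (a + c)) ^ (1 - t) * (y / (b + d)) ^ t) * ((a + c) ^ (1 - t) * (b + d) ^ t) := by
    intro x y hx hy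
    rw [Real.div_rpow hx.le h0.le, Real.div_rpow hy.le h1.le]
    have h4 : (a + c) ^ (1 - t) ≠ 0 := (Real.rpow_pos_of_pos h0 _).ne'
    have h5 : (b + d) ^ t ≠ 0 := (Real.rpow_pos_of_pos h1 _).ne'
    field_simp
  have key : c ^ (1 - t) * d ^ t ≤
      ((1 - t) * (c / (a + c)) + t * (d / (b + d))) * ((a + c) ^ (1 - t) * (b + d) ^ t) := by
    rw [e3 c d hc hd]
    exact mul_le_mul_of_nonneg_right (Real.geom_mean_le_arith_mean2_weighted hs0.le ht0.le
      (div_nonneg hc.le h0.le) (div_nonneg hd.le h1.le) (by ring)) hP.le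
  by_contra hne
  have hne' : a / (a + c) ≠ b / (b + d) := by
    intro h6
    apply hne
    rw [div_eq_div_iff h0.ne' h1.ne'] at h6
    linarith
  have h7 := chain_amgm_lt ht0 ht1 (div_pos ha h0) (div_pos hb h1) hne'
  have h8 := mul_lt_mul_of_pos_right h7 hP
  rw [← e3 a b ha hb] at h8
  have h9 : ((1 - t) * (a / (a + c)) + t * (b / (b + d))) * ((a + c) ^ (1 - t) * (b + d) ^ t) +
      ((1 - t) * (c / (a + c)) + t * (d / (b + d))) * ((a + c) ^ (1 - t) * (b + d) ^ t) =
      (a + c) ^ (1 - t) * (b + d) ^ t := by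
    have h5 : ((1 - t) * (a / (a + c)) + t * (b / (b + d))) +
        ((1 - t) * (c / (a + c)) + t * (d / (b + d))) = 1 := by
      field_simp
      ring
    rw [← add_mul, h5, one_mul]
  linarith

/-- Equality of products of powers. -/
lemma chain_prod_eq {t : ℝ} (ht0 : 0 < t) (ht1 : t < 1) {a b a' b' : ℝ} (ha : 0 < a) (hb : 0 < b)
    (haa : a ≤ a') (hbb : b ≤ b')
    (h : a' ^ (1 - t) * b' ^ t ≤ a ^ (1 - t) * b ^ t) : a' = a ∧ b' = b := by
  have hs0 : 0 < 1 - t := by linarith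
  have ha' : 0 < a' := by linarith
  have hb' : 0 < b' := by linarith
  constructor
  · by_contra hne
    have h1 : a < a' := lt_of_le_of_ne haa (Ne.symm hne)
    have h2 := Real.rpow_lt_rpow ha.le h1 hs0
    have h3 := Real.rpow_le_rpow hb.le hbb ht0.le
    have h4 : a ^ (1 - t) * b ^ t < a' ^ (1 - t) * b' ^ t :=
      mul_lt_mul h2 h3 (Real.rpow_pos_of_pos hb _) (Real.rpow_pos_of_pos ha' _).le
    linarith
  · by_contra hne
    have h1 : b < b' := lt_of_le_of_ne hbb (Ne.symm hne)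
    have h2 := Real.rpow_lt_rpow hb.le h1 ht0
    have h3 := Real.rpow_le_rpow ha.le haa hs0.le
    have h4 : a ^ (1 - t) * b ^ t < a' ^ (1 - t) * b' ^ t :=
      mul_lt_mul' h3 h2 (Real.rpow_pos_of_pos hb _).le (Real.rpow_pos_of_pos ha' _)
    linarith

/-- Support function of a body with a mirror and of its slice. -/
lemma Mir.chain_supp_sl {X : Set (E (2 + 1))} {m : ℝ} (h : Mir X m) {z : ℝ}
    (hne : (slice X z).Nonempty) (w : E (2 + 1)) :
    supp (slice X z) (ini w) + z * |w (Fin.last 2)| ≤ supp X w := by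
  obtain ⟨y, hy, h1⟩ := supp_attained (slice_compact h.comp z) hne (ini w)
  rcases le_or_gt 0 (w (Fin.last 2)) with h0 | h0
  · rw [abs_of_nonneg h0, ← h1, ← inner_ext]
    exact le_supp h.comp w hy
  · rw [abs_of_neg h0, ← h1]
    have h2 : ext y (-z) ∈ X := h.mir y z hy
    have h3 := le_supp h.comp w h2
    rw [inner_ext] at h3
    linarith

/-- ROW C. -/
theorem chain {t : ℝ} {K C : Set (E (2 + 1))} {a ρ c : ℝ} (H : Eq3 t K C a ρ c) {z : ℝ} (hz : 0 < z)
    (hza : z < a) {x ν : E 2} (hx : x ∈ logC t (slice K z) (slice C (ρ * z))) (hν : ν ≠ 0)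
    (hxν : supp (slice K z) ν ^ (1 - t) * supp (slice C (ρ * z)) ν ^ t ≤ inner ℝ x ν) :
    ∃ u : E 2, ∃ v : ℝ, u ≠ 0 ∧ 0 ≤ v ∧
      inner ℝ x u = supp (slice K z) u ^ (1 - t) * supp (slice C (ρ * z)) u ^ t ∧
      (v = 0 ∨ supp (slice C (ρ * z)) u = ρ * supp (slice K z) u) ∧
      supp K (ext u v) = supp (slice K z) u + z * v ∧
      supp C (ext u v) = supp (slice C (ρ * z)) u + ρ * z * v := by
  have ht0 := H.t0
  have ht1 := H.t1
  have hs0 : 0 < 1 - t := by linarith
  have hr0 := H.r0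
  have hA := slice_compact H.mK.comp z
  have hB := slice_compact H.mC.comp (ρ * z)
  have iA := H.iK z hz.le hza
  have iB := H.iC z hz.le hza
  have zA : (0 : E 2) ∈ slice K z := interior_subset iA
  have zB : (0 : E 2) ∈ slice C (ρ * z) := interior_subset iB
  have hcont : Continuous fun w : E (2 + 1) => supp K w ^ (1 - t) * supp C w ^ t := by
    apply Continuous.mul
    · exact (chain_supp_cont H.mK.comp).rpow_const (fun _ => Or.inr hs0.le)
    · exact (chain_supp_cont H.mC.comp).rpow_const (fun _ => Or.inr ht0.le)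
  -- step 1: a touching functional
  obtain ⟨w, hw1, hw2⟩ : ∃ w : E (2 + 1), ‖w‖ = 1 ∧
      supp K w ^ (1 - t) * supp C w ^ t ≤ inner ℝ (ext x (ρ ^ t * z)) w := by
    by_contra hcon
    push Not at hcon
    have hcs : IsCompact (Metric.sphere (0 : E (2 + 1)) 1) := isCompact_sphere _ _
    have hsne : (Metric.sphere (0 : E (2 + 1)) 1).Nonempty :=
      (NormedSpace.sphere_nonempty (x := (0 : E (2 + 1)))).2 zero_le_one
    have hc2 : Continuous fun w : E (2 + 1) => supp K w ^ (1 - t) * supp C w ^ t -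
        inner ℝ (ext x (ρ ^ t * z)) w := hcont.sub (continuous_const.inner continuous_id)
    obtain ⟨w0, hw0, hmin⟩ := hcs.exists_isMinOn hsne hc2.continuousOn
    have hw0' : ‖w0‖ = 1 := by simpa using hw0
    set δ := supp K w0 ^ (1 - t) * supp C w0 ^ t - inner ℝ (ext x (ρ ^ t * z)) w0 with hδ
    have hδ0 : 0 < δ := by
      have := hcon w0 hw0'
      rw [hδ]
      linarith
    have hνn : 0 < ‖ν‖ := norm_pos_iff.2 hν
    have hmem : x + (δ / ‖ν‖) • ν ∈ slice (logC t K C) (ρ ^ t * z) := by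
      intro w hw
      have h1 : inner ℝ (ext (x + (δ / ‖ν‖) • ν) (ρ ^ t * z)) w =
          inner ℝ (ext x (ρ ^ t * z)) w + δ / ‖ν‖ * inner ℝ ν (ini w) := by
        rw [inner_ext, inner_ext, inner_add_left, real_inner_smul_left]
        ring
      have h2 : inner ℝ ν (ini w) ≤ ‖ν‖ := by
        have h3 := real_inner_le_norm ν (ini w)
        have h4 : ‖ini w‖ ≤ 1 := by
          rw [← hw, EuclideanSpace.norm_eq, EuclideanSpace.norm_eq]
          apply Real.sqrt_le_sqrt
          rw [Fin.sum_univ_castSucc (n := 2) (fun i => ‖w i‖ ^ 2)]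
          have : ∑ i : Fin 2, ‖ini w i‖ ^ 2 = ∑ i : Fin 2, ‖w i.castSucc‖ ^ 2 := by
            apply Finset.sum_congr rfl
            intro i _
            rw [ini_apply]
          rw [this]
          have : 0 ≤ ‖w (Fin.last 2)‖ ^ 2 := by positivity
          linarith
        calc inner ℝ ν (ini w) ≤ ‖ν‖ * ‖ini w‖ := h3
          _ ≤ ‖ν‖ * 1 := mul_le_mul_of_nonneg_left h4 hνn.le
          _ = ‖ν‖ := mul_one _
      have h3 : δ ≤ supp K w ^ (1 - t) * supp C w ^ t - inner ℝ (ext x (ρ ^ t * z)) w :=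
        hmin (show w ∈ Metric.sphere (0 : E (2 + 1)) 1 by simpa using hw)
      have h4 : δ / ‖ν‖ * inner ℝ ν (ini w) ≤ δ := by
        calc δ / ‖ν‖ * inner ℝ ν (ini w) ≤ δ / ‖ν‖ * ‖ν‖ :=
              mul_le_mul_of_nonneg_left h2 (by positivity)
          _ = δ := by field_simp
      rw [h1]
      linarith
    rw [H.sl z hz hza] at hmem
    have h5 := logC_all hA hB zA zB hmem ν
    rw [inner_add_left, real_inner_smul_left, real_inner_self_eq_norm_sq] at h5
    have h6 : 0 < δ / ‖ν‖ * ‖ν‖ ^ 2 := by positivity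
    linarith
  -- step 2: the chain
  set u := ini w with hu
  set v := w (Fin.last 2) with hv
  have hwe : w = ext u v := (ext_ini w).symm
  have hsA := supp_nonneg hA zA u
  have hsB := supp_nonneg hB zB u
  have c1 := logC_all hA hB zA zB hx u
  have c4 := H.mK.chain_supp_sl ⟨0, zA⟩ w
  have c5 := H.mC.chain_supp_sl ⟨0, zB⟩ w
  rw [← hu, ← hv] at c4 c5
  rw [inner_ext, ← hu, ← hv] at hw2
  have hrt : 0 < ρ ^ t := Real.rpow_pos_of_pos hr0 t
  have e1 : ∀ y : ℝ, 0 ≤ y → (z * y) ^ (1 - t) * (ρ * z * y) ^ t = ρ ^ t * z * y := by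
    intro y hy
    have hzy : 0 ≤ z * y := by positivity
    rw [mul_assoc ρ z y, Real.mul_rpow hr0.le hzy]
    rcases eq_or_lt_of_le hzy with h0 | h0
    · rw [← h0, Real.zero_rpow hs0.ne', Real.zero_rpow ht0.ne', mul_assoc, ← h0]
      ring
    · have : (z * y) ^ (1 - t) * (z * y) ^ t = z * y := by
        rw [← Real.rpow_add h0]
        simp
      calc (z * y) ^ (1 - t) * (ρ ^ t * (z * y) ^ t) =
          ρ ^ t * ((z * y) ^ (1 - t) * (z * y) ^ t) := by ring
        _ = _ := by rw [this]; ring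
  have c3 := holder2 ht0 ht1 hsA hsB (c := z * |v|) (d := ρ * z * |v|) (by positivity)
    (by positivity)
  rw [e1 _ (abs_nonneg v)] at c3
  have p1 : 0 ≤ z * |v| := by positivity
  have p2 : 0 ≤ ρ * z * |v| := by positivity
  have c6 : (supp (slice K z) u + z * |v|) ^ (1 - t) *
      (supp (slice C (ρ * z)) u + ρ * z * |v|) ^ t ≤ supp K w ^ (1 - t) * supp C w ^ t := by
    have h11 : 0 ≤ supp K w := by linarith
    have h12 : 0 ≤ supp C w := by linarith
    gcongr
  have c2 : ρ ^ t * z * v ≤ ρ ^ t * z * |v| :=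
    mul_le_mul_of_nonneg_left (le_abs_self v) (by positivity)
  -- all inequalities are equalities
  have d1 : inner ℝ x u = supp (slice K z) u ^ (1 - t) * supp (slice C (ρ * z)) u ^ t := by
    linarith
  have d2 : ρ ^ t * z * v = ρ ^ t * z * |v| := by linarith
  have hv0 : v = |v| := mul_left_cancel₀ (by positivity) d2
  have hv1 : 0 ≤ v := by
    rw [hv0]
    exact abs_nonneg v
  rw [← hv0] at c3 c4 c5 c6 p1 p2
  have hpos : 0 < supp (slice K z) u + z * v ∧ 0 < supp (slice C (ρ * z)) u + ρ * z * v := by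
    by_cases hu0 : u = 0
    · have hvp : 0 < v := by
        rcases eq_or_lt_of_le hv1 with h0 | h0
        · exfalso
          have h1 : w = 0 := by
            rw [hwe, hu0, ← h0, ext_zz]
          rw [h1, norm_zero] at hw1
          exact zero_ne_one hw1
        · exact h0
      constructor <;> positivity
    · have h1 := chain_supp_pos hA iA hu0
      have h2 := chain_supp_pos hB iB hu0
      constructor <;> linarith
  have d3 := chain_prod_eq ht0 ht1 hpos.1 hpos.2 c4 c5 (by linarith)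
  have hu0 : u ≠ 0 := by
    intro hu0
    have hvp : 0 < v := by
      rcases eq_or_lt_of_le hv1 with h0 | h0
      · exfalso
        have h1 : w = 0 := by
          rw [hwe, hu0, ← h0, ext_zz]
        rw [h1, norm_zero] at hw1
        exact zero_ne_one hw1
      · exact h0
    have h1 := le_supp H.mK.comp w H.mK.top
    have hs : supp (slice K z) u = 0 := by
      rw [hu0]
      obtain ⟨y, hy, h2⟩ := supp_attained hA ⟨0, zA⟩ (0 : E 2)
      rw [← h2, inner_zero_right]
    rw [inner_ext, inner_zero_left, ← hv, d3.1, hs] at h1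
    have h2 : z * v < a * v := mul_lt_mul_of_pos_right hza hvp
    linarith
  refine ⟨u, v, hu0, hv1, d1, ?_, ?_, ?_⟩
  · rcases eq_or_lt_of_le hv1 with h0 | h0
    · exact Or.inl h0.symm
    · right
      have h1 := chain_supp_pos hA iA hu0
      have h2 := chain_supp_pos hB iB hu0
      have h3 := chain_holder2_eq ht0 ht1 h1 h2 (c := z * v) (d := ρ * z * v) (by positivity)
        (by positivity) (by rw [e1 v hv1]; linarith)
      have h4 : z * v ≠ 0 := by positivity
      have h5 : (supp (slice C (ρ * z)) u) * (z * v) = (ρ * supp (slice K z) u) * (z * v) := by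
        linarith
      exact mul_right_cancel₀ h4 h5
  · rw [← hwe]
    exact d3.1
  · rw [← hwe]
    exact d3.2

end Pool.Agent.Lib.MP_1dedaf_gt.EQ

end

section

/-!
# MP_1dedaf_gt, EG, row 6: the chain of inequalities
-/


open MeasureTheory Set Filter Topology
open scoped ENNReal NNReal Pointwise

namespace Pool.Agent.Lib.MP_1dedaf_gt.EG

open Pool.Agent.Lib.MP_1dedaf_gt.SC

private lemma r6_ext_zz {n : ℕ} : SC.ext (0 : E n) (0 : ℝ) = 0 := by
  ext i
  refine Fin.lastCases ?_ (fun j => ?_) i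
  · rw [ext_last]
    rfl
  · rw [ext_castSucc]
    rfl

/-- Support function of a body with a mirror and of its slice. -/
lemma Mir.r6_supp_sl {n : ℕ} {X : Set (E (n + 1))} {m : ℝ} (h : Mir X m) {z : ℝ}
    (hne : (slice X z).Nonempty) (w : E (n + 1)) :
    supp (slice X z) (ini w) + z * |w (Fin.last n)| ≤ supp X w := by
  obtain ⟨y, hy, h1⟩ := supp_attained (slice_compact h.comp z) hne (ini w)
  rcases le_or_gt 0 (w (Fin.last n)) with h0 | h0
  · rw [abs_of_nonneg h0, ← h1, ← inner_ext]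
    exact le_supp h.comp w hy
  · rw [abs_of_neg h0, ← h1]
    have h2 : SC.ext y (-z) ∈ X := h.mir y z hy
    have h3 := le_supp h.comp w h2
    rw [inner_ext] at h3
    linarith

/-- ROW 6: the chain. -/
theorem chain {n : ℕ} {t : ℝ} {K C : Set (E (n + 1))} {a ρ : ℝ} (H : EqS t K C a ρ) {z : ℝ}
    (hz : 0 < z) (hza : z < a) {x ν : E n} (hx : x ∈ logC t (slice K z) (slice C (ρ * z)))
    (hν : ν ≠ 0)
    (hxν : supp (slice K z) ν ^ (1 - t) * supp (slice C (ρ * z)) ν ^ t ≤ inner ℝ x ν) :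
    ∃ u : E n, ∃ v : ℝ, u ≠ 0 ∧ 0 ≤ v ∧
      inner ℝ x u = supp (slice K z) u ^ (1 - t) * supp (slice C (ρ * z)) u ^ t ∧
      (v = 0 ∨ supp (slice C (ρ * z)) u = ρ * supp (slice K z) u) ∧
      supp K (SC.ext u v) = supp (slice K z) u + z * v ∧
      supp C (SC.ext u v) = supp (slice C (ρ * z)) u + ρ * z * v := by
  have ht0 := H.t0
  have ht1 := H.t1
  have hs0 : 0 < 1 - t := by linarith
  have hr0 := H.r0
  have hA := slice_compact H.mK.comp z
  have hB := slice_compact H.mC.comp (ρ * z)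
  have iA := H.iK z hz.le hza
  have iB := H.iC z hz.le hza
  have zA : (0 : E n) ∈ slice K z := interior_subset iA
  have zB : (0 : E n) ∈ slice C (ρ * z) := interior_subset iB
  have hcont : Continuous fun w : E (n + 1) => supp K w ^ (1 - t) * supp C w ^ t := by
    apply Continuous.mul
    · exact (EQ.chain_supp_cont H.mK.comp).rpow_const (fun _ => Or.inr hs0.le)
    · exact (EQ.chain_supp_cont H.mC.comp).rpow_const (fun _ => Or.inr ht0.le)
  -- step 1: a touching functional
  obtain ⟨w, hw1, hw2⟩ : ∃ w : E (n + 1), ‖w‖ = 1 ∧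
      supp K w ^ (1 - t) * supp C w ^ t ≤ inner ℝ (SC.ext x (ρ ^ t * z)) w := by
    by_contra hcon
    push Not at hcon
    have hcs : IsCompact (Metric.sphere (0 : E (n + 1)) 1) := isCompact_sphere _ _
    have hsne : (Metric.sphere (0 : E (n + 1)) 1).Nonempty :=
      (NormedSpace.sphere_nonempty (x := (0 : E (n + 1)))).2 zero_le_one
    have hc2 : Continuous fun w : E (n + 1) => supp K w ^ (1 - t) * supp C w ^ t -
        inner ℝ (SC.ext x (ρ ^ t * z)) w := hcont.sub (continuous_const.inner continuous_id)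
    obtain ⟨w0, hw0, hmin⟩ := hcs.exists_isMinOn hsne hc2.continuousOn
    have hw0' : ‖w0‖ = 1 := by simpa using hw0
    set δ := supp K w0 ^ (1 - t) * supp C w0 ^ t - inner ℝ (SC.ext x (ρ ^ t * z)) w0 with hδ
    have hδ0 : 0 < δ := by
      have := hcon w0 hw0'
      rw [hδ]
      linarith
    have hνn : 0 < ‖ν‖ := norm_pos_iff.2 hν
    have hmem : x + (δ / ‖ν‖) • ν ∈ slice (logC t K C) (ρ ^ t * z) := by
      intro w hw
      have h1 : inner ℝ (SC.ext (x + (δ / ‖ν‖) • ν) (ρ ^ t * z)) w =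
          inner ℝ (SC.ext x (ρ ^ t * z)) w + δ / ‖ν‖ * inner ℝ ν (ini w) := by
        rw [inner_ext, inner_ext, inner_add_left, real_inner_smul_left]
        ring
      have h2 : inner ℝ ν (ini w) ≤ ‖ν‖ := by
        have h3 := real_inner_le_norm ν (ini w)
        have h4 : ‖ini w‖ ≤ 1 := by
          rw [← hw, EuclideanSpace.norm_eq, EuclideanSpace.norm_eq]
          apply Real.sqrt_le_sqrt
          rw [Fin.sum_univ_castSucc (n := n) (fun i => ‖w i‖ ^ 2)]
          have : ∑ i : Fin n, ‖ini w i‖ ^ 2 = ∑ i : Fin n, ‖w i.castSucc‖ ^ 2 := by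
            apply Finset.sum_congr rfl
            intro i _
            rw [ini_apply]
          rw [this]
          have : 0 ≤ ‖w (Fin.last n)‖ ^ 2 := by positivity
          linarith
        calc inner ℝ ν (ini w) ≤ ‖ν‖ * ‖ini w‖ := h3
          _ ≤ ‖ν‖ * 1 := mul_le_mul_of_nonneg_left h4 hνn.le
          _ = ‖ν‖ := mul_one _
      have h3 : δ ≤ supp K w ^ (1 - t) * supp C w ^ t - inner ℝ (SC.ext x (ρ ^ t * z)) w :=
        hmin (show w ∈ Metric.sphere (0 : E (n + 1)) 1 by simpa using hw)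
      have h4 : δ / ‖ν‖ * inner ℝ ν (ini w) ≤ δ := by
        calc δ / ‖ν‖ * inner ℝ ν (ini w) ≤ δ / ‖ν‖ * ‖ν‖ :=
              mul_le_mul_of_nonneg_left h2 (by positivity)
          _ = δ := by field_simp
      rw [h1]
      linarith
    rw [H.sl z hz hza] at hmem
    have h5 := logC_all hA hB zA zB hmem ν
    rw [inner_add_left, real_inner_smul_left, real_inner_self_eq_norm_sq] at h5
    have h6 : 0 < δ / ‖ν‖ * ‖ν‖ ^ 2 := by positivity
    linarith
  -- step 2: the chain
  set u := ini w with hu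
  set v := w (Fin.last n) with hv
  have hwe : w = SC.ext u v := (ext_ini w).symm
  have hsA := supp_nonneg hA zA u
  have hsB := supp_nonneg hB zB u
  have c1 := logC_all hA hB zA zB hx u
  have c4 := H.mK.r6_supp_sl ⟨0, zA⟩ w
  have c5 := H.mC.r6_supp_sl ⟨0, zB⟩ w
  rw [← hu, ← hv] at c4 c5
  rw [inner_ext, ← hu, ← hv] at hw2
  have hrt : 0 < ρ ^ t := Real.rpow_pos_of_pos hr0 t
  have e1 : ∀ y : ℝ, 0 ≤ y → (z * y) ^ (1 - t) * (ρ * z * y) ^ t = ρ ^ t * z * y := by
    intro y hy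
    have hzy : 0 ≤ z * y := by positivity
    rw [mul_assoc ρ z y, Real.mul_rpow hr0.le hzy]
    rcases eq_or_lt_of_le hzy with h0 | h0
    · rw [← h0, Real.zero_rpow hs0.ne', Real.zero_rpow ht0.ne', mul_assoc, ← h0]
      ring
    · have : (z * y) ^ (1 - t) * (z * y) ^ t = z * y := by
        rw [← Real.rpow_add h0]
        simp
      calc (z * y) ^ (1 - t) * (ρ ^ t * (z * y) ^ t) =
          ρ ^ t * ((z * y) ^ (1 - t) * (z * y) ^ t) := by ring
        _ = _ := by rw [this]; ring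
  have c3 := holder2 ht0 ht1 hsA hsB (c := z * |v|) (d := ρ * z * |v|) (by positivity)
    (by positivity)
  rw [e1 _ (abs_nonneg v)] at c3
  have p1 : 0 ≤ z * |v| := by positivity
  have p2 : 0 ≤ ρ * z * |v| := by positivity
  have c6 : (supp (slice K z) u + z * |v|) ^ (1 - t) *
      (supp (slice C (ρ * z)) u + ρ * z * |v|) ^ t ≤ supp K w ^ (1 - t) * supp C w ^ t := by
    have h11 : 0 ≤ supp K w := by linarith
    have h12 : 0 ≤ supp C w := by linarith
    gcongr
  have c2 : ρ ^ t * z * v ≤ ρ ^ t * z * |v| :=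
    mul_le_mul_of_nonneg_left (le_abs_self v) (by positivity)
  -- all inequalities are equalities
  have d1 : inner ℝ x u = supp (slice K z) u ^ (1 - t) * supp (slice C (ρ * z)) u ^ t := by
    linarith
  have d2 : ρ ^ t * z * v = ρ ^ t * z * |v| := by linarith
  have hv0 : v = |v| := mul_left_cancel₀ (by positivity) d2
  have hv1 : 0 ≤ v := by
    rw [hv0]
    exact abs_nonneg v
  rw [← hv0] at c3 c4 c5 c6 p1 p2
  have hpos : 0 < supp (slice K z) u + z * v ∧ 0 < supp (slice C (ρ * z)) u + ρ * z * v := by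
    by_cases hu0 : u = 0
    · have hvp : 0 < v := by
        rcases eq_or_lt_of_le hv1 with h0 | h0
        · exfalso
          have h1 : w = 0 := by
            rw [hwe, hu0, ← h0, r6_ext_zz]
          rw [h1, norm_zero] at hw1
          exact zero_ne_one hw1
        · exact h0
      constructor <;> positivity
    · have h1 := EQ.chain_supp_pos hA iA hu0
      have h2 := EQ.chain_supp_pos hB iB hu0
      constructor <;> linarith
  have d3 := EQ.chain_prod_eq ht0 ht1 hpos.1 hpos.2 c4 c5 (by linarith)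
  have hu0 : u ≠ 0 := by
    intro hu0
    have hvp : 0 < v := by
      rcases eq_or_lt_of_le hv1 with h0 | h0
      · exfalso
        have h1 : w = 0 := by
          rw [hwe, hu0, ← h0, r6_ext_zz]
        rw [h1, norm_zero] at hw1
        exact zero_ne_one hw1
      · exact h0
    have h1 := le_supp H.mK.comp w H.mK.top
    have hs : supp (slice K z) u = 0 := by
      rw [hu0]
      obtain ⟨y, hy, h2⟩ := supp_attained hA ⟨0, zA⟩ (0 : E n)
      rw [← h2, inner_zero_right]
    rw [inner_ext, inner_zero_left, ← hv, d3.1, hs] at h1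
    have h2 : z * v < a * v := mul_lt_mul_of_pos_right hza hvp
    linarith
  refine ⟨u, v, hu0, hv1, d1, ?_, ?_, ?_⟩
  · rcases eq_or_lt_of_le hv1 with h0 | h0
    · exact Or.inl h0.symm
    · right
      have h1 := EQ.chain_supp_pos hA iA hu0
      have h2 := EQ.chain_supp_pos hB iB hu0
      have h3 := EQ.chain_holder2_eq ht0 ht1 h1 h2 (c := z * v) (d := ρ * z * v) (by positivity)
        (by positivity) (by rw [e1 v hv1]; linarith)
      have h4 : z * v ≠ 0 := by positivity
      have h5 : (supp (slice C (ρ * z)) u) * (z * v) = (ρ * supp (slice K z) u) * (z * v) := by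
        linarith
      exact mul_right_cancel₀ h4 h5
  · rw [← hwe]
    exact d3.1
  · rw [← hwe]
    exact d3.2

end Pool.Agent.Lib.MP_1dedaf_gt.EG

end

section

/-!
# MP_1dedaf_gt, EG, rows 7, 8: the parts with ratio different from the ratio of the heights
-/


open MeasureTheory Set Filter Topology
open scoped ENNReal NNReal Pointwise

namespace Pool.Agent.Lib.MP_1dedaf_gt.EG

open Pool.Agent.Lib.MP_1dedaf_gt.SC

/-- A boundary point on a ray. -/
lemma r7_bd {n : ℕ} {A : Set (E n)} (hc : Convex ℝ A) (hA : IsCompact A)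
    (hi : (0 : E n) ∈ interior A) {y : E n} (hy : y ∉ A) :
    ∃ τ : ℝ, 0 < τ ∧ τ < 1 ∧ τ • y ∈ A ∧ ∃ ν : E n, (∀ a ∈ A, inner ℝ a ν ≤ inner ℝ (τ • y) ν) ∧
      0 < inner ℝ (τ • y) ν := by
  have hcont : Continuous fun s : ℝ => s • y := continuous_id.smul continuous_const
  have hT : IsCompact (Icc (0 : ℝ) 1 ∩ {s : ℝ | s • y ∈ A}) :=
    isCompact_Icc.inter_right (hA.isClosed.preimage hcont)
  obtain ⟨τ, ⟨⟨hτ0, hτ1⟩, hτA⟩, hmax⟩ := hT.exists_isGreatest
    ⟨0, ⟨le_rfl, zero_le_one⟩, by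
      show (0 : ℝ) • y ∈ A
      rw [zero_smul]
      exact interior_subset hi⟩
  set x0 : E n := τ • y with hx
  have hxA : x0 ∈ A := hτA
  have hxi : x0 ∉ interior A := by
    intro h2
    have hτ1' : τ < 1 := by
      rcases lt_or_eq_of_le hτ1 with h3 | h3
      · exact h3
      · exfalso
        apply hy
        rw [hx, h3, one_smul] at hxA
        exact hxA
    have h3 : ∀ᶠ s in 𝓝[>] τ, s • y ∈ interior A :=
      (hcont.tendsto τ).mono_left nhdsWithin_le_nhds (isOpen_interior.mem_nhds h2)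
    have h5 : ∀ᶠ s in 𝓝[>] τ, s ∈ Ioo τ 1 := Ioo_mem_nhdsGT hτ1'
    obtain ⟨s, ⟨hs1, hs2⟩, hs3⟩ := (h5.and h3).exists
    have h6 : s • y ∈ A := interior_subset hs3
    have h4 := hmax ⟨⟨hτ0.trans hs1.le, hs2.le⟩, h6⟩
    exact absurd hs1 (not_lt.2 h4)
  have hτ0' : 0 < τ := by
    rcases eq_or_lt_of_le hτ0 with h2 | h2
    · exfalso
      apply hxi
      rw [hx, ← h2, zero_smul]
      exact hi
    · exact h2
  have hτ1' : τ < 1 := by
    rcases lt_or_eq_of_le hτ1 with h2 | h2
    · exact h2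
    · exfalso
      apply hy
      rw [hx, h2, one_smul] at hxA
      exact hxA
  obtain ⟨f, hf1⟩ := geometric_hahn_banach_open_point hc.interior isOpen_interior hxi
  set ν : E n := (InnerProductSpace.toDual ℝ (E n)).symm f with hν
  have hfν : ∀ a : E n, inner ℝ a ν = f a := by
    intro a
    rw [real_inner_comm, hν, InnerProductSpace.toDual_symm_apply]
  refine ⟨τ, hτ0', hτ1', hxA, ν, ?_, ?_⟩
  · intro a ha
    have h2 : a ∈ closure (interior A) := by
      rw [hc.closure_interior_eq_closure_of_nonempty_interior ⟨0, hi⟩]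
      exact subset_closure ha
    have h3 : closure (interior A) ⊆ {b : E n | f b ≤ f x0} := by
      apply closure_minimal
      · intro b hb
        exact (hf1 b hb).le
      · exact isClosed_le f.continuous continuous_const
    rw [hfν, hfν, ← hx]
    exact h3 h2
  · rw [hfν, ← hx]
    have h2 := hf1 0 hi
    rwa [map_zero] at h2

/-- The special normal at a boundary point. -/
lemma r7_core {n : ℕ} {t : ℝ} {K C : Set (E (n + 1))} {a ρ : ℝ} (H : EqS t K C a ρ) {z : ℝ}
    (hz : 0 < z) (hza : z < a) {Λ : Finset ℝ} {π : ℝ → (E n →L[ℝ] E n)}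
    (h : Str (slice K z) (slice C (ρ * z)) Λ π) {r : ℝ} (hr : r ∈ Λ) (hne : r ≠ ρ) {y : E n}
    (hy : π r y ∉ slice K z) :
    ∃ u : E n, supp K (SC.ext u 0) < inner ℝ y u ∧ supp C (SC.ext u 0) = r * supp K (SC.ext u 0) := by
  have ht0 := H.t0
  have ht1 := H.t1
  have hA : IsCompact (slice K z) := H.mK.slice_comp z
  have hi := H.iK z hz.le hza
  have h0 : (0 : E n) ∈ slice K z := interior_subset hi
  have hr0 := h.fam.pos r hr
  obtain ⟨τ, hτ0, hτ1, hx0, ν, hν, hν0⟩ := r7_bd (H.mK.slice_conv z) hA hi hy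
  set x0 : E n := τ • π r y with hx0def
  have hπ : π r x0 = x0 := by
    rw [hx0def, map_smul, h.fam.idem hr]
  have e1 : inner ℝ x0 (ad (π r) ν) = inner ℝ x0 ν := by rw [r4_inner, hπ]
  have hν1 : ad (π r) ν ≠ 0 := by
    intro h1
    rw [h1, inner_zero_right] at e1
    linarith
  have hsν : supp (slice K z) (ad (π r) ν) ≤ inner ℝ x0 ν := by
    obtain ⟨b, hb, hbu⟩ := supp_attained hA ⟨0, h0⟩ (ad (π r) ν)
    rw [← hbu, r4_inner]
    exact hν _ (h.mem h0 hr hb)
  have hxD : r ^ t • π r x0 ∈ logC t (slice K z) (slice C (ρ * z)) := h.low ht0 ht1 hA h0 hr hx0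
  rw [hπ] at hxD
  have hrt : 0 < r ^ t := Real.rpow_pos_of_pos hr0 t
  obtain ⟨u, v, hu0, hv0, c1, c2, c3, c4⟩ := chain H hz hza hxD hν1 (by
    rw [r4_B h hA ⟨0, h0⟩ hr, r4_pow ht0 (supp_nonneg hA h0 _) hr0, real_inner_smul_left, e1]
    exact mul_le_mul_of_nonneg_left hsν hrt.le)
  have hp : ∀ s ∈ Λ, 0 ≤ s ^ t * supp (slice K z) (ad (π s) u) := fun s hs =>
    mul_nonneg (Real.rpow_nonneg (h.fam.pos s hs).le _) (supp_nonneg hA h0 _)
  have d1 : inner ℝ x0 u ≤ supp (slice K z) (ad (π r) u) := by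
    have h1 := le_supp hA (ad (π r) u) hx0
    rwa [r4_inner, hπ] at h1
  have d2 : ∑ s ∈ Λ, s ^ t * supp (slice K z) (ad (π s) u) ≤
      supp (slice K z) u ^ (1 - t) * supp (slice C (ρ * z)) u ^ t := by
    have h1 := holder_sum ht0 ht1 Λ (fun s => supp (slice K z) (ad (π s) u)) h.fam.pos
      (fun s _ => supp_nonneg hA h0 _)
    rwa [← h.suppA hA ⟨0, h0⟩, ← h.suppB hA ⟨0, h0⟩] at h1
  rw [← c1, real_inner_smul_left] at d2
  have d3 : ∑ s ∈ Λ.erase r, s ^ t * supp (slice K z) (ad (π s) u) ≤ 0 := by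
    rw [← Finset.add_sum_erase Λ _ hr] at d2
    have h1 := mul_le_mul_of_nonneg_left d1 hrt.le
    linarith
  have d4 : ∀ s ∈ Λ, s ≠ r → ad (π s) u = 0 := by
    intro s hs hsr
    have h1 := Finset.single_le_sum (f := fun s => s ^ t * supp (slice K z) (ad (π s) u))
      (fun s hs => hp s (Finset.mem_of_mem_erase hs)) (Finset.mem_erase.2 ⟨hsr, hs⟩)
    have h2 : s ^ t * supp (slice K z) (ad (π s) u) ≤ 0 := h1.trans d3
    by_contra hne0
    have h3 := r4_pos hA hi hne0
    have h4 : 0 < s ^ t := Real.rpow_pos_of_pos (h.fam.pos s hs) t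
    have h5 := mul_pos h4 h3
    linarith
  have d5 : supp (slice K z) u = supp (slice K z) (ad (π r) u) := by
    rw [h.suppA hA ⟨0, h0⟩, Finset.sum_eq_single_of_mem r hr]
    intro s hs hsr
    rw [d4 s hs hsr, r4_supp_zero ⟨0, h0⟩]
  have d6 : supp (slice C (ρ * z)) u = r * supp (slice K z) u := by
    rw [h.suppB hA ⟨0, h0⟩, Finset.sum_eq_single_of_mem r hr, ← d5]
    intro s hs hsr
    rw [d4 s hs hsr, r4_supp_zero ⟨0, h0⟩, mul_zero]
  have hpos := r4_pos hA hi hu0
  rw [d6, r4_pow ht0 hpos.le hr0, real_inner_smul_left] at c1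
  have d7 : inner ℝ x0 u = supp (slice K z) u := mul_left_cancel₀ hrt.ne' c1
  have hv : v = 0 := by
    rcases c2 with h1 | h1
    · exact h1
    · exfalso
      rw [d6] at h1
      exact hne (mul_right_cancel₀ hpos.ne' h1)
  rw [hv, mul_zero, add_zero] at c3 c4
  refine ⟨u, ?_, by rw [c3, c4, d6]⟩
  have d8 : inner ℝ y u = inner ℝ (π r y) u := by
    conv_lhs => rw [← h.fam.one y]
    rw [sum_inner, Finset.sum_eq_single_of_mem r hr]
    intro s hs hsr
    rw [← r4_inner, d4 s hs hsr, inner_zero_right]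
  rw [c3, d8, ← d7, hx0def, real_inner_smul_left]
  rw [hx0def, real_inner_smul_left] at d7
  nlinarith

/-- ROW 7 (uses chain, 2, 3, 4): the parts with ratio `≠ ρ`. -/
theorem flem {n : ℕ} {t : ℝ} {K C : Set (E (n + 1))} {a ρ : ℝ} (H : EqS t K C a ρ) {z : ℝ}
    (hz : 0 < z) (hza : z < a) {Λ : Finset ℝ} {π : ℝ → (E n →L[ℝ] E n)}
    (h : Str (slice K z) (slice C (ρ * z)) Λ π) {r : ℝ} (hr : r ∈ Λ) (hne : r ≠ ρ) :
    (∀ y ∈ slice K 0, π r y ∈ slice K z) ∧ (∀ y ∈ slice C 0, π r y ∈ slice C (ρ * z)) := by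
  have hr0 := h.fam.pos r hr
  constructor
  · intro y hy
    by_contra hcon
    obtain ⟨u, h1, _⟩ := r7_core H hz hza h hr hne hcon
    have h2 := le_supp H.mK.comp (SC.ext u 0) (y := SC.ext y 0) hy
    rw [inner_ext, ini_ext, ext_last, mul_zero, add_zero] at h2
    linarith
  · intro y hy
    by_contra hcon
    have h3 : π r (r⁻¹ • y) ∉ slice K z := by
      intro h4
      apply hcon
      rw [h.img]
      refine ⟨π r (r⁻¹ • y), h4, ?_⟩
      unfold op
      rw [sum_apply, Finset.sum_eq_single_of_mem r hr]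
      · rw [smul_apply, h.fam.idem hr, map_smul, smul_smul,
          mul_inv_cancel₀ hr0.ne', one_smul]
      · intro s hs hsr
        rw [smul_apply, h.fam.ort s hs r hr hsr, smul_zero]
    obtain ⟨u, h1, h5⟩ := r7_core H hz hza h hr hne h3
    have h2 := le_supp H.mC.comp (SC.ext u 0) (y := SC.ext y 0) hy
    rw [inner_ext, ini_ext, ext_last, mul_zero, add_zero, h5] at h2
    rw [real_inner_smul_left] at h1
    have h6 := mul_lt_mul_of_pos_left h1 hr0
    rw [← mul_assoc, mul_inv_cancel₀ hr0.ne', one_mul] at h6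
    linarith

/-- ROW 8 (uses 7, 5, 4): two heights. -/
theorem mono {n : ℕ} {t : ℝ} {K C : Set (E (n + 1))} {a ρ : ℝ} (H : EqS t K C a ρ) {z z' : ℝ}
    (hz : 0 < z) (hzz : z ≤ z') (hza : z' < a) {Λ Λ' : Finset ℝ} {π π' : ℝ → (E n →L[ℝ] E n)}
    (h : Str (slice K z) (slice C (ρ * z)) Λ π)
    (h' : Str (slice K z') (slice C (ρ * z')) Λ' π') {r r' : ℝ} (hr : r ∈ Λ) (hr' : r' ∈ Λ')
    (hne : r' ≠ ρ) (hrr : r ≠ r') (x : E n) : π' r' (π r x) = 0 := by
  have ht0 := H.t0
  have ht1 := H.t1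
  have hρ := H.r0
  have hz' : 0 < z' := hz.trans_le hzz
  have hza0 : z < a := hzz.trans_lt hza
  have hA := H.mK.slice_comp z
  have hA' := H.mK.slice_comp z'
  have hB := H.mC.slice_comp (ρ * z)
  have hB' := H.mC.slice_comp (ρ * z')
  have hi := H.iK z hz.le hza0
  have h0 : (0 : E n) ∈ slice K z := interior_subset hi
  have h0' : (0 : E n) ∈ slice K z' := interior_subset (H.iK z' hz'.le hza)
  have h0B : (0 : E n) ∈ slice C (ρ * z) := interior_subset (H.iC z hz.le hza0)
  have h0B' : (0 : E n) ∈ slice C (ρ * z') := interior_subset (H.iC z' hz'.le hza)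
  obtain ⟨f1, f2⟩ := flem H hz' hza h' hr' hne
  have key : ∀ w : E n, ad (π r) (ad (π' r') w) = 0 := by
    intro w
    set u := ad (π' r') w with hu
    have eu : ∀ y : E n, inner ℝ y u = inner ℝ (π' r' y) u := by
      intro y
      rw [hu, r4_inner, r4_inner, h'.fam.idem hr']
    have sA : supp (slice K z) u = supp (slice K z') u := by
      apply le_antisymm
      · obtain ⟨y, hy, hyu⟩ := supp_attained hA ⟨0, h0⟩ u
        rw [← hyu, eu]
        apply le_supp hA'
        apply f1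
        exact H.mK.mono (by rw [abs_zero]; exact hz.le) hy
      · obtain ⟨y, hy, hyu⟩ := supp_attained hA' ⟨0, h0'⟩ u
        rw [← hyu]
        apply le_supp hA
        exact H.mK.mono (by rw [abs_of_pos hz]; exact hzz) hy
    have sB : supp (slice C (ρ * z)) u = supp (slice C (ρ * z')) u := by
      apply le_antisymm
      · obtain ⟨y, hy, hyu⟩ := supp_attained hB ⟨0, h0B⟩ u
        rw [← hyu, eu]
        apply le_supp hB'
        apply f2
        exact H.mC.mono (by rw [abs_zero]; positivity) hy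
      · obtain ⟨y, hy, hyu⟩ := supp_attained hB' ⟨0, h0B'⟩ u
        rw [← hyu]
        apply le_supp hB
        exact H.mC.mono (by
          rw [abs_of_pos (by positivity)]
          exact mul_le_mul_of_nonneg_left hzz hρ.le) hy
    have h1 : supp (slice C (ρ * z)) u = r' * supp (slice K z) u := by
      rw [sA, sB, hu, r4_B h' hA' ⟨0, h0'⟩ hr']
    obtain ⟨y, hy, hyu⟩ := supp_attained hA' ⟨0, h0'⟩ u
    have h2 : r' ^ t • π' r' y ∈ logC t (slice K z) (slice C (ρ * z)) := by
      rw [← H.sl z hz hza0]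
      apply H.nest z z' hz hzz hza
      rw [H.sl z' hz' hza]
      exact h'.low ht0 ht1 hA' h0' hr' hy
    exact h.rel ht0 ht1 hA hi (h'.fam.pos r' hr') h1 h2 (by
      rw [real_inner_smul_left, ← eu, hyu, sA]) r hr hrr
  apply ext_inner_right ℝ
  intro w
  rw [inner_zero_left, ← r4_inner, ← r4_inner, key, inner_zero_right]

end Pool.Agent.Lib.MP_1dedaf_gt.EG

end

section

/-!
# MP_1dedaf_gt, EG: the inequality of the support planes
-/


open MeasureTheory Set Filter Topology
open scoped ENNReal NNReal Pointwise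

namespace Pool.Agent.Lib.MP_1dedaf_gt.EG

open Pool.Agent.Lib.MP_1dedaf_gt.SC

/-- A supergradient of a concave function on an open interval. -/
private lemma r10_grad {a : ℝ} {φ : ℝ → ℝ}
    (hφ : ∀ z₁ z₂, 0 < z₁ → z₁ < a → 0 < z₂ → z₂ < a → ∀ l m, 0 ≤ l → 0 ≤ m → l + m = 1 →
      l * φ z₁ + m * φ z₂ ≤ φ (l * z₁ + m * z₂)) {z : ℝ} (hz : 0 < z) (hza : z < a) :
    ∃ σ : ℝ, ∀ z', 0 < z' → z' < a → φ z' ≤ φ z + (z - z') * σ := by
  have hsl : ∀ x y, 0 < x → x < z → z < y → y < a →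
      (φ y - φ z) / (y - z) ≤ (φ z - φ x) / (z - x) := by
    intro x y hx hxz hzy hy
    have h1 : 0 < y - x := by linarith
    have h2 := hφ x y hx (by linarith) (by linarith) hy ((y - z) / (y - x)) ((z - x) / (y - x))
      (div_nonneg (by linarith) h1.le) (div_nonneg (by linarith) h1.le) (by field_simp; ring)
    have h3 : (y - z) / (y - x) * x + (z - x) / (y - x) * y = z := by field_simp; ring
    rw [h3] at h2
    have h4 : (y - z) * φ x + (z - x) * φ y ≤ (y - x) * φ z := by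
      have := mul_le_mul_of_nonneg_left h2 h1.le
      have e : (y - x) * ((y - z) / (y - x) * φ x + (z - x) / (y - x) * φ y) =
          (y - z) * φ x + (z - x) * φ y := by field_simp
      linarith
    rw [div_le_div_iff₀ (by linarith) (by linarith)]
    nlinarith
  set S : Set ℝ := {s | ∃ y, z < y ∧ y < a ∧ s = (φ y - φ z) / (y - z)} with hS
  have hne : S.Nonempty := ⟨_, (z + a) / 2, by linarith, by linarith, rfl⟩
  have hb : ∀ x, 0 < x → x < z → (φ z - φ x) / (z - x) ∈ upperBounds S := by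
    rintro x hx hxz _ ⟨y, hy1, hy2, rfl⟩
    exact hsl x y hx hxz hy1 hy2
  have hbdd : BddAbove S := ⟨_, hb (z / 2) (by linarith) (by linarith)⟩
  refine ⟨-sSup S, fun z' h1 h2 => ?_⟩
  rcases lt_trichotomy z' z with h | h | h
  · have h3 := csSup_le hne (hb z' h1 h)
    rw [le_div_iff₀ (by linarith)] at h3
    linarith
  · rw [h]; linarith
  · have h3 := le_csSup hbdd ⟨z', h, h2, rfl⟩
    rw [div_le_iff₀ (by linarith)] at h3
    linarith

/-- ROW 10: the inequality of the support planes. -/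
theorem plane {n : ℕ} {t : ℝ} {K C : Set (E (n + 1))} {a ρ : ℝ} (H : EqS t K C a ρ) {I : Set ℝ}
    (hI : I ⊆ Ioo 0 a) (Λ : ℝ → Finset ℝ) (π : ℝ → ℝ → (E n →L[ℝ] E n))
    (hs : ∀ z ∈ I, Str (slice K z) (slice C (ρ * z)) (Λ z) (π z))
    (hQ : ∀ z ∈ I, ∀ z' ∈ I, ∀ x, Q ρ (Λ z) (π z) (Q ρ (Λ z') (π z') x) = Q ρ (Λ z) (π z) x)
    {y : E n} (hy : y ∈ slice K 0) (hy' : -y ∈ slice K 0) (w : E n) {z : ℝ} (hz : z ∈ I) :
    ∃ σ : ℝ, ∀ z' ∈ I,
      supp (slice K z') (w - ad (Q ρ (Λ z') (π z')) w) +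
        |inner ℝ (Q ρ (Λ z') (π z') y) w - inner ℝ (Q ρ (Λ z) (π z) y) w| * 1 ≤
      supp (slice K z) (w - ad (Q ρ (Λ z) (π z)) w) + (z - z') * σ := by
  have hin : ∀ (T : E n →L[ℝ] E n) (x : E n),
      (inner ℝ x (w - ad T w) : ℝ) = inner ℝ x w - inner ℝ (T x) w := by
    intro T x
    rw [inner_sub_right, ContinuousLinearMap.adjoint_inner_right]
  have hne : ∀ z', 0 < z' → z' < a → (slice K z').Nonempty := by
    intro z' h1 h2
    exact ⟨0, interior_subset (H.iK z' h1.le h2)⟩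
  set uz : E n := w - ad (Q ρ (Λ z) (π z)) w with huz
  obtain ⟨σ, hσ⟩ := r10_grad (a := a) (φ := fun z' => supp (slice K z') uz) (by
    intro z₁ z₂ h1 h1a h2 h2a l m hl hm hlm
    obtain ⟨x₁, hx₁, e₁⟩ := supp_attained (H.mK.slice_comp z₁) (hne z₁ h1 h1a) uz
    obtain ⟨x₂, hx₂, e₂⟩ := supp_attained (H.mK.slice_comp z₂) (hne z₂ h2 h2a) uz
    have h3 : l • x₁ + m • x₂ ∈ slice K (l * z₁ + m * z₂) := by
      have h4 := H.mK.conv (show SC.ext x₁ z₁ ∈ K from hx₁) (show SC.ext x₂ z₂ ∈ K from hx₂) hl hm hlm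
      rw [ext_comb] at h4
      exact h4
    have h4 := le_supp (H.mK.slice_comp _) uz h3
    rw [inner_add_left, real_inner_smul_left, real_inner_smul_left] at h4
    rw [e₁, e₂] at h4
    exact h4) (hI hz).1 (hI hz).2
  refine ⟨σ, fun z' hz' => ?_⟩
  refine le_trans ?_ (hσ z' (hI hz').1 (hI hz').2)
  obtain ⟨x, hx, ex⟩ := supp_attained (H.mK.slice_comp z') (hne z' (hI hz').1 (hI hz').2)
    (w - ad (Q ρ (Λ z') (π z')) w)
  set Q' := Q ρ (Λ z') (π z') with hQ'
  have hF := (hs z' hz').fam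
  -- the point `(1 - Q') x + Q' y₁`
  have hpt : ∀ y₁ ∈ slice K 0, (x - Q' x) + Q' y₁ ∈ slice K z' := by
    intro y₁ hy₁
    have h1 := (hs z' hz').clo (fun r => if r = ρ then x else π z' r y₁) (by
      intro r hr
      by_cases hrρ : r = ρ
      · simp only [hrρ, if_true]
        exact hx
      · simp only [hrρ, if_false]
        exact (flem H (hI hz').1 (hI hz').2 (hs z' hz') hr hrρ).1 y₁ hy₁)
    have h2 : ∑ r ∈ Λ z', π z' r (if r = ρ then x else π z' r y₁) = (x - Q' x) + Q' y₁ := by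
      have e1 : Q' y₁ = ∑ r ∈ (Λ z').erase ρ, π z' r y₁ := by
        rw [hQ', Q, _root_.sum_apply]
      have e2 : Q' x = ∑ r ∈ (Λ z').erase ρ, π z' r x := by
        rw [hQ', Q, _root_.sum_apply]
      have e3 := hF.one x
      have e4 : ∑ r ∈ (Λ z').erase ρ, π z' r (if r = ρ then x else π z' r y₁) =
          ∑ r ∈ (Λ z').erase ρ, π z' r y₁ := by
        apply Finset.sum_congr rfl
        intro r hr
        obtain ⟨h3, h4⟩ := Finset.mem_erase.1 hr
        rw [if_neg h3, hF.idem h4]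
      by_cases hρ : ρ ∈ Λ z'
      · rw [← Finset.add_sum_erase _ _ hρ, e4, if_pos rfl, e1]
        rw [← Finset.add_sum_erase _ _ hρ, ← e2] at e3
        rw [eq_sub_of_add_eq e3]
      · have e5 : (Λ z').erase ρ = Λ z' := Finset.erase_eq_of_notMem hρ
        rw [e5] at e4 e1 e2
        rw [e4, ← e1]
        rw [← e2] at e3
        rw [e3, sub_self, zero_add]
    rw [h2] at h1
    exact h1
  have hval : ∀ y₁ : E n, (inner ℝ ((x - Q' x) + Q' y₁) uz : ℝ) =
      inner ℝ x (w - ad Q' w) + (inner ℝ (Q' y₁) w - inner ℝ (Q ρ (Λ z) (π z) y₁) w) := by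
    intro y₁
    rw [huz, hin, hin, map_add, map_sub, hQ z hz z' hz', hQ z hz z' hz', sub_self, zero_add,
      inner_add_left, inner_sub_left]
    ring
  have h1 := le_supp (H.mK.slice_comp z') uz (hpt y hy)
  have h2 := le_supp (H.mK.slice_comp z') uz (hpt (-y) hy')
  rw [hval] at h1 h2
  rw [map_neg, map_neg, inner_neg_left, inner_neg_left] at h2
  rw [← ex, mul_one]
  have h3 : |(inner ℝ (Q' y) w : ℝ) - inner ℝ (Q ρ (Λ z) (π z) y) w| ≤
      supp (slice K z') uz - inner ℝ x (w - ad Q' w) := by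
    rw [abs_le]
    constructor <;> linarith
  linarith

end Pool.Agent.Lib.MP_1dedaf_gt.EG

end

section

/-!
# MP_1dedaf_gt, EG, row 14: the structure of the bodies
-/


open MeasureTheory Set Filter Topology
open scoped ENNReal NNReal Pointwise

namespace Pool.Agent.Lib.MP_1dedaf_gt.EG

open Pool.Agent.Lib.MP_1dedaf_gt.SC

/-- Statements about the heights between `0` and `m` extend to all heights. -/
lemma r14_all {n : ℕ} {X Y : Set (E (n + 1))} {m : ℝ} (hX : Mir X m) (hY : IsClosed Y)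
    (hYm : ∀ (x : E n) (z : ℝ), SC.ext x z ∈ Y → SC.ext x (-z) ∈ Y) {Φ : E n → E n}
    (hΦ : Continuous Φ) (κ : ℝ)
    (h : ∀ (x : E n) (z : ℝ), 0 < z → z < m → SC.ext x z ∈ X → SC.ext (Φ x) (κ * z) ∈ Y)
    (x : E n) (z : ℝ) (hx : SC.ext x z ∈ X) : SC.ext (Φ x) (κ * z) ∈ Y := by
  have key : ∀ (x : E n) (z : ℝ), 0 ≤ z → SC.ext x z ∈ X → SC.ext (Φ x) (κ * z) ∈ Y := by
    intro x z hz hx
    have hzm : z ≤ m := hX.le x z hx
    have h1 := EQ.closed_lim hY
      (f := fun l : ℝ => SC.ext (Φ ((1 - l) • x)) (κ * ((1 - l) * z + l * (m / 2)))) ?_ ?_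
    · simpa using h1
    · exact EQ.cont_ext2.comp ((hΦ.comp (by fun_prop)).prodMk (by fun_prop))
    · intro l hl0 hl1
      have hm := hX.pos
      refine h _ _ (by nlinarith [mul_pos hl0 hm, mul_nonneg (sub_nonneg.2 hl1.le) hz])
        (by nlinarith [mul_pos hl0 hm]) ?_
      exact hX.dil (x := x) (z := z) (w := m / 2) hx
        (by rw [abs_of_pos (by linarith)]; linarith) hl0.le hl1.le
  rcases le_or_gt 0 z with hz | hz
  · exact key x z hz hx
  · have h1 := hYm _ _ (key x (-z) (by linarith) (hX.mir x z hx))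
    have h2 : -(κ * -z) = κ * z := by ring
    rwa [h2] at h1

/-- The map `(x, z) ↦ (T x, s z)`. -/
noncomputable def r14_lft {n : ℕ} (T : E n →L[ℝ] E n) (s : ℝ) : E (n + 1) →L[ℝ] E (n + 1) :=
  LinearMap.toContinuousLinearMap
    { toFun := fun x => SC.ext (T (ini x)) (s * x (Fin.last n))
      map_add' := fun x y => by
        have h1 : ini (x + y) = ini x + ini y := by ext i; simp
        have h2 := ext_comb (T (ini x)) (T (ini y)) (s * x (Fin.last n)) (s * y (Fin.last n)) 1 1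
        simp only [one_smul, one_mul] at h2
        rw [h2, h1, map_add, PiLp.add_apply, mul_add]
      map_smul' := fun c x => by
        have h1 : ini (c • x) = c • ini x := by ext i; simp
        have h2 := ext_comb (T (ini x)) 0 (s * x (Fin.last n)) 0 c 0
        simp only [zero_smul, add_zero, zero_mul] at h2
        rw [RingHom.id_apply, h2, h1, map_smul, PiLp.smul_apply, smul_eq_mul]
        congr 1
        ring }

lemma r14_lft_apply {n : ℕ} (T : E n →L[ℝ] E n) (s : ℝ) (x : E (n + 1)) :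
    r14_lft T s x = SC.ext (T (ini x)) (s * x (Fin.last n)) := rfl

lemma r14_lft_ext {n : ℕ} (T : E n →L[ℝ] E n) (s : ℝ) (x : E n) (z : ℝ) :
    r14_lft T s (SC.ext x z) = SC.ext (T x) (s * z) := by
  rw [r14_lft_apply, ini_ext, ext_last]

lemma r14_ext_zero {n : ℕ} : SC.ext (0 : E n) 0 = 0 := by
  ext i
  refine Fin.lastCases ?_ (fun j => ?_) i
  · simp
  · simp

lemma r14_sum {n : ℕ} {ι : Type*} (S : Finset ι) (f : ι → E n) (g : ι → ℝ) :
    ∑ i ∈ S, SC.ext (f i) (g i) = SC.ext (∑ i ∈ S, f i) (∑ i ∈ S, g i) := by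
  classical
  induction S using Finset.induction_on with
  | empty => simp only [Finset.sum_empty]; exact r14_ext_zero.symm
  | insert i S hi ih =>
    rw [Finset.sum_insert hi, Finset.sum_insert hi, Finset.sum_insert hi, ih]
    have h2 := ext_comb (f i) (∑ i ∈ S, f i) (g i) (∑ i ∈ S, g i) 1 1
    simpa only [one_smul, one_mul] using h2

/-- The sum over the enlarged index set. -/
lemma r14_ins {n : ℕ} {Λ : Finset ℝ} {π : ℝ → (E n →L[ℝ] E n)} (h : Fam Λ π) (ρ : ℝ)
    (c : ℝ → ℝ) (f : ℝ → E n) :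
    ∑ r ∈ insert ρ Λ, c r • π r (f r) = ∑ r ∈ Λ, c r • π r (f r) := by
  symm
  refine Finset.sum_subset (Finset.subset_insert _ _) fun r _ hr => ?_
  rw [h.out r hr]
  simp

/-- ROW 14 (uses 7): the structure of `K`, `C`. -/
theorem lift {n : ℕ} {t : ℝ} {K C : Set (E (n + 1))} {a ρ : ℝ} (H : EqS t K C a ρ)
    {Λ : Finset ℝ} {π : ℝ → (E n →L[ℝ] E n)}
    (h : ∀ z, 0 < z → z < a → Str (slice K z) (slice C (ρ * z)) Λ π) :
    ∃ (Λ' : Finset ℝ) (π' : ℝ → (E (n + 1) →L[ℝ] E (n + 1))), Str K C Λ' π' := by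
  have ha := H.a0
  have hF : Fam Λ π := (h (a / 2) (by linarith) (by linarith)).fam
  obtain ⟨δ, hδ⟩ : ∃ δ : ℝ → ℝ, ∀ r, δ r = if r = ρ then 1 else 0 := ⟨_, fun _ => rfl⟩
  have hδs : ∀ (c : ℝ → ℝ) (z : ℝ), ∑ r ∈ insert ρ Λ, c r * (δ r * z) = c ρ * z := fun c z => by
    rw [Finset.sum_eq_single_of_mem ρ (Finset.mem_insert_self _ _) fun r _ hr => by
      rw [hδ, if_neg hr]; ring]
    rw [hδ, if_pos rfl]; ring
  have hop : ∀ x : E n, op Λ π x = ∑ r ∈ Λ, r • π r x := fun x => by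
    unfold op
    simp only [FunLike.coe_sum, Finset.sum_apply, FunLike.coe_smul, Pi.smul_apply]
  have hop' : ∀ (x : E n) (z : ℝ), op (insert ρ Λ) (fun r => r14_lft (π r) (δ r)) (SC.ext x z) =
      SC.ext (op Λ π x) (ρ * z) := fun x z => by
    unfold op
    simp only [FunLike.coe_sum, Finset.sum_apply, FunLike.coe_smul, Pi.smul_apply, r14_lft_ext]
    have h1 : ∀ r, r • SC.ext (π r x) (δ r * z) = SC.ext (r • π r x) (r * (δ r * z)) := fun r => by
      have h2 := ext_comb (π r x) 0 (δ r * z) 0 r 0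
      simpa only [zero_smul, add_zero, zero_mul] using h2
    simp only [h1]
    rw [r14_sum, r14_ins hF ρ (fun r => r) (fun _ => x), hδs (fun r => r) z]
  have hlin : Continuous (op (insert ρ Λ) (fun r => r14_lft (π r) (δ r))) :=
    (op (insert ρ Λ) (fun r => r14_lft (π r) (δ r))).continuous
  refine ⟨insert ρ Λ, fun r => r14_lft (π r) (δ r), ⟨?_, ?_, ?_, ?_, ?_⟩, ?_, ?_⟩
  · intro r hr
    rcases Finset.mem_insert.1 hr with hr | hr
    · rw [hr]; exact H.r0
    · exact hF.pos r hr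
  · intro x
    simp only [r14_lft_apply]
    rw [r14_sum]
    have h1 := r14_ins hF ρ (fun _ => 1) (fun _ => ini x)
    have h2 := hδs (fun _ => 1) (x (Fin.last n))
    simp only [one_smul, one_mul] at h1 h2
    rw [h1, h2, hF.one, ext_ini]
  · intro r hr s hs hrs x
    show r14_lft (π r) (δ r) (r14_lft (π s) (δ s) x) = 0
    rw [r14_lft_apply (π s), r14_lft_ext]
    have h1 : π r (π s (ini x)) = 0 := by
      by_cases hr' : r ∈ Λ
      · by_cases hs' : s ∈ Λ
        · exact hF.ort r hr' s hs' hrs _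
        · rw [hF.out s hs']; simp
      · rw [hF.out r hr']; simp
    have h2 : δ r * (δ s * x (Fin.last n)) = 0 := by
      rw [hδ, hδ]
      by_cases h3 : r = ρ
      · rw [if_neg (fun h4 => hrs (h3.trans h4.symm)) (c := s = ρ)]; ring
      · rw [if_neg h3]; ring
    rw [h1, h2, r14_ext_zero]
  · intro r hr h0
    by_cases h1 : r = ρ
    · have h2 := congrArg (fun T : E (n + 1) →L[ℝ] E (n + 1) => T (SC.ext 0 1) (Fin.last n)) h0
      simp only [r14_lft_ext, ext_last] at h2
      rw [hδ, if_pos h1] at h2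
      norm_num at h2
    · have hr' : r ∈ Λ := (Finset.mem_insert.1 hr).resolve_left h1
      apply hF.nz r hr'
      ext1 x
      have h2 := congrArg (fun T : E (n + 1) →L[ℝ] E (n + 1) => ini (T (SC.ext x 0))) h0
      simp only [r14_lft_ext, ini_ext] at h2
      rw [h2]
      ext i
      simp
  · intro r hr
    have h1 : r ≠ ρ := fun h2 => hr (h2 ▸ Finset.mem_insert_self _ _)
    have h2 : r ∉ Λ := fun h3 => hr (Finset.mem_insert_of_mem h3)
    ext1 x
    rw [r14_lft_apply, hF.out r h2, hδ, if_neg h1, zero_mul]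
    exact r14_ext_zero
  · intro f hf
    simp only [r14_lft_apply]
    rw [r14_sum]
    have h2 : ∑ r ∈ insert ρ Λ, δ r * (f r) (Fin.last n) = 1 * (f ρ) (Fin.last n) := by
      rw [Finset.sum_eq_single_of_mem ρ (Finset.mem_insert_self _ _) fun r _ hr => by
        rw [hδ, if_neg hr]; ring]
      rw [hδ, if_pos rfl]
    rw [h2, ← Finset.sum_erase_add _ _ (Finset.mem_insert_self ρ Λ),
      Finset.erase_insert_eq_erase]
    have hfK : ∀ r ∈ Λ, ini (f r) ∈ slice K 0 := by
      intro r hr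
      have h3 := hf r (Finset.mem_insert_of_mem hr)
      rw [← ext_ini (f r)] at h3
      rcases le_or_gt 0 ((f r) (Fin.last n)) with h4 | h4
      · exact H.mK.mono (by rw [abs_zero]; exact h4) h3
      · exact H.mK.mono (z' := -(f r) (Fin.last n)) (by rw [abs_zero]; linarith)
          (H.mK.mir _ _ h3)
    have hfρ : SC.ext (ini (f ρ)) ((f ρ) (Fin.last n)) ∈ K := by
      rw [ext_ini]; exact hf ρ (Finset.mem_insert_self _ _)
    refine r14_all H.mK H.mK.comp.isClosed H.mK.mir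
      (Φ := fun y => ∑ r ∈ Λ.erase ρ, π r (ini (f r)) + π ρ y) (by fun_prop) 1 ?_ _ _ hfρ
    intro x z hz hza hx
    have hS := h z hz hza
    rw [one_mul]
    show ∑ r ∈ Λ.erase ρ, π r (ini (f r)) + π ρ x ∈ slice K z
    have h5 := hS.clo (fun r => if r = ρ then x else π r (ini (f r))) fun r hr => by
      by_cases hr' : r = ρ
      · simp only [hr', if_true]; exact hx
      · simp only [hr', if_false]
        exact (flem H hz hza hS hr hr').1 _ (hfK r hr)
    have h6 : ∑ r ∈ Λ.erase ρ, π r (if r = ρ then x else π r (ini (f r))) =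
        ∑ r ∈ Λ.erase ρ, π r (ini (f r)) := Finset.sum_congr rfl fun r hr => by
      rw [if_neg (Finset.ne_of_mem_erase hr), hF.idem (Finset.mem_of_mem_erase hr)]
    by_cases hρ : ρ ∈ Λ
    · rw [← Finset.sum_erase_add _ _ hρ, h6] at h5
      simpa only [if_true] using h5
    · rw [Finset.erase_eq_of_notMem hρ] at h6 ⊢
      rw [h6] at h5
      rw [hF.out ρ hρ]
      simpa using h5
  · have hKc : IsClosed (op (insert ρ Λ) (fun r => r14_lft (π r) (δ r)) '' K) :=
      (H.mK.comp.image hlin).isClosed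
    apply Subset.antisymm
    · intro y hy
      rw [← ext_ini y] at hy ⊢
      have h1 := r14_all H.mC hKc (Φ := fun x => x) ?_ continuous_id 1 ?_ _ _ hy
      · rwa [one_mul] at h1
      · rintro x z ⟨p, hp, hpx⟩
        rw [← ext_ini p] at hp hpx
        rw [hop'] at hpx
        have h3 := congrArg ini hpx
        have h4 := congrArg (fun v : E (n + 1) => v (Fin.last n)) hpx
        simp only [ini_ext, ext_last] at h3 h4
        refine ⟨SC.ext (ini p) (-(p (Fin.last n))), H.mK.mir _ _ hp, ?_⟩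
        rw [hop', h3, ← h4]
        congr 1
        ring
      · intro x z hz hza hx
        have hz' : 0 < z / ρ := div_pos hz H.r0
        have hza' : z / ρ < a := by rw [div_lt_iff₀ H.r0]; linarith
        have h2 : ρ * (z / ρ) = z := mul_div_cancel₀ z H.r0.ne'
        have h3 := (h _ hz' hza').img
        have h4 : x ∈ slice C (ρ * (z / ρ)) := by rw [h2]; exact hx
        rw [h3] at h4
        obtain ⟨p, hp, hpx⟩ := h4
        refine ⟨SC.ext p (z / ρ), hp, ?_⟩
        rw [hop', hpx, h2, one_mul]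
    · rintro _ ⟨p, hp, rfl⟩
      rw [← ext_ini p] at hp ⊢
      rw [hop']
      refine r14_all H.mK H.mC.comp.isClosed H.mC.mir (Φ := fun x => op Λ π x)
        (op Λ π).continuous ρ ?_ _ _ hp
      intro x z hz hza hx
      show op Λ π x ∈ slice C (ρ * z)
      rw [(h z hz hza).img]
      exact mem_image_of_mem _ hx

end Pool.Agent.Lib.MP_1dedaf_gt.EG

end

section

/-!
# MP_1dedaf_gt, EG: one structure for all heights
-/


open MeasureTheory Set Filter Topology
open scoped ENNReal NNReal Pointwise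

namespace Pool.Agent.Lib.MP_1dedaf_gt.EG

open Pool.Agent.Lib.MP_1dedaf_gt.SC
open Pool.Agent.Lib.MP_1dedaf_gt.EQ (const_of_planes)

variable {n : ℕ} {t : ℝ} {K C : Set (E (n + 1))} {a ρ : ℝ}

/-- On an interval where the rank of `Q` is constant, the structure is constant. -/
lemma glob_interval (H : EqS t K C a ρ) (Λ : ℝ → Finset ℝ) (π : ℝ → ℝ → (E n →L[ℝ] E n))
    (hs : ∀ z, 0 < z → z < a → Str (slice K z) (slice C (ρ * z)) (Λ z) (π z)) {x y : ℝ}
    (hx : 0 ≤ x) (hy : y ≤ a)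
    (hd : ∀ z z', x < z → z < y → x < z' → z' < y →
      Module.finrank ℝ (LinearMap.range (Q ρ (Λ z) (π z) : E n →ₗ[ℝ] E n)) =
      Module.finrank ℝ (LinearMap.range (Q ρ (Λ z') (π z') : E n →ₗ[ℝ] E n))) :
    ∀ z z', x < z → z < y → x < z' → z' < y → Λ z = Λ z' ∧ π z = π z' := by
  have hm : ∀ z z', x < z → z ≤ z' → z' < y → ∀ r ∈ Λ z, ∀ r' ∈ Λ z', r' ≠ ρ → r ≠ r' →
      ∀ v, π z' r' (π z r v) = 0 := by
    intro z z' hz hzz hz' r hr r' hr' hne hrr v
    exact mono H (hx.trans_lt hz) hzz (hz'.trans_le hy)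
      (hs z (hx.trans_lt hz) ((hzz.trans_lt hz').trans_le hy))
      (hs z' ((hx.trans_lt hz).trans_le hzz) (hz'.trans_le hy)) hr hr' hne hrr v
  have hfam : ∀ z, x < z → z < y → Fam (Λ z) (π z) := fun z h1 h2 =>
    (hs z (hx.trans_lt h1) (h2.trans_le hy)).fam
  have hQ1 : ∀ z z', x < z → z ≤ z' → z' < y → ∀ v,
      Q ρ (Λ z') (π z') (Q ρ (Λ z) (π z) v) = Q ρ (Λ z') (π z') v := by
    intro z z' hz hzz hz' v
    exact q_mul (hfam z hz (hzz.trans_lt hz')) (hfam z' (hz.trans_le hzz) hz')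
      (hm z z' hz hzz hz') v
  have hQ2 : ∀ z z', x < z → z ≤ z' → z' < y → ∀ v,
      Q ρ (Λ z) (π z) (Q ρ (Λ z') (π z') v) = Q ρ (Λ z) (π z) v := by
    intro z z' hz hzz hz' v
    exact q_back (q_idem (hfam z' (hz.trans_le hzz) hz')) (hQ1 z z' hz hzz hz')
      (hd z' z (hz.trans_le hzz) hz' hz (hzz.trans_lt hz')) v
  have hQ : ∀ z ∈ Ioo x y, ∀ z' ∈ Ioo x y, ∀ v,
      Q ρ (Λ z) (π z) (Q ρ (Λ z') (π z') v) = Q ρ (Λ z) (π z) v := by
    intro z hz z' hz' v
    rcases le_total z z' with h1 | h1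
    · exact hQ2 z z' hz.1 h1 hz'.2 v
    · exact hQ1 z' z hz'.1 h1 hz.2 v
  have hI : Ioo x y ⊆ Ioo 0 a := fun z hz => ⟨hx.trans_lt hz.1, hz.2.trans_le hy⟩
  -- `Q` is constant
  have hQc : ∀ z ∈ Ioo x y, ∀ z' ∈ Ioo x y, Q ρ (Λ z) (π z) = Q ρ (Λ z') (π z') := by
    intro z hz z' hz'
    have h0 := H.iK 0 le_rfl H.a0
    rw [mem_interior_iff_mem_nhds, Metric.mem_nhds_iff] at h0
    obtain ⟨ε, hε, hball⟩ := h0
    have key : ∀ v : E n, v ∈ slice K 0 → -v ∈ slice K 0 →
        Q ρ (Λ z) (π z) v = Q ρ (Λ z') (π z') v := by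
      intro v hv hv'
      have h1 : ∀ w : E n, inner ℝ (Q ρ (Λ z) (π z) v) w = inner ℝ (Q ρ (Λ z') (π z') v) w := by
        intro w
        exact const_of_planes (I := Ioo x y) ordConnected_Ioo one_pos
          (b := fun z => supp (slice K z) (w - ad (Q ρ (Λ z) (π z)) w))
          (B := fun z => inner ℝ (Q ρ (Λ z) (π z) v) w)
          (fun z hz => plane H hI Λ π (fun z hz => hs z (hI hz).1 (hI hz).2) hQ hv hv' w hz)
          z hz z' hz'
      exact ext_inner_right ℝ h1
    ext1 v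
    rcases eq_or_ne v 0 with rfl | hv
    · rw [map_zero, map_zero]
    have hvn : 0 < ‖v‖ := norm_pos_iff.2 hv
    have h1 : ∀ s : ℝ, |s| = 1 → s • (ε / 2 / ‖v‖) • v ∈ slice K 0 := by
      intro s hs1
      apply hball
      rw [mem_ball_zero_iff, norm_smul, norm_smul, Real.norm_eq_abs, hs1, one_mul, Real.norm_eq_abs,
        abs_of_pos (by positivity), div_mul_cancel₀ _ hvn.ne']
      linarith
    have h2 := key ((ε / 2 / ‖v‖) • v) (by simpa using h1 1 (by simp))
      (by simpa using h1 (-1) (by simp))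
    rw [map_smul, map_smul] at h2
    exact smul_right_injective _ (by positivity : ε / 2 / ‖v‖ ≠ 0) h2
  have key : ∀ z z', x < z → z ≤ z' → z' < y → Λ z = Λ z' ∧ π z = π z' := by
    intro z z' hz hzz hz'
    exact fam_of_q (hfam z hz (hzz.trans_lt hz')) (hfam z' (hz.trans_le hzz) hz')
      (hm z z' hz hzz hz') (hQc z ⟨hz, hzz.trans_lt hz'⟩ z' ⟨hz.trans_le hzz, hz'⟩)
  intro z z' hz hzy hz' hz'y
  rcases le_total z z' with h1 | h1
  · exact key z z' hz h1 hz'y
  · exact ⟨(key z' z hz' h1 hzy).1.symm, (key z' z hz' h1 hzy).2.symm⟩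

/-- ROW 13: one structure for all heights. -/
theorem glob (H : EqS t K C a ρ) :
    ∃ Λ π, ∀ z, 0 < z → z < a → Str (slice K z) (slice C (ρ * z)) Λ π := by
  classical
  have hex : ∀ z : ℝ, ∃ p : Finset ℝ × (ℝ → (E n →L[ℝ] E n)), 0 < z → z < a →
      Str (slice K z) (slice C (ρ * z)) p.1 p.2 := by
    intro z
    by_cases h : 0 < z ∧ z < a
    · obtain ⟨Λ, π, h1⟩ := H.str z h.1 h.2
      exact ⟨(Λ, π), fun _ _ => h1⟩
    · exact ⟨(∅, 0), fun h1 h2 => absurd ⟨h1, h2⟩ h⟩
  choose f hf using hex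
  set Λ : ℝ → Finset ℝ := fun z => (f z).1 with hΛ
  set π : ℝ → ℝ → (E n →L[ℝ] E n) := fun z => (f z).2 with hπ
  have hs : ∀ z, 0 < z → z < a → Str (slice K z) (slice C (ρ * z)) (Λ z) (π z) :=
    fun z h1 h2 => hf z h1 h2
  set d : ℝ → ℕ := fun z =>
    Module.finrank ℝ (LinearMap.range (Q ρ (Λ z) (π z) : E n →ₗ[ℝ] E n)) with hd
  have hdM : ∀ z, d z ≤ n := by
    intro z
    refine (Submodule.finrank_le _).trans ?_
    simp [E]
  have hdm : ∀ z z', 0 < z → z ≤ z' → z' < a → d z' ≤ d z := by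
    intro z z' hz hzz hz'
    apply q_rank
    intro v
    exact q_mul (hs z hz (hzz.trans_lt hz')).fam (hs z' (hz.trans_le hzz) hz').fam
      (fun r hr r' hr' hne hrr v => mono H hz hzz hz' (hs z hz (hzz.trans_lt hz'))
        (hs z' (hz.trans_le hzz) hz') hr hr' hne hrr v) v
  have hloc : ∀ z, 0 < z → z < a → ∃ ε, 0 < ε ∧ ∀ z', 0 < z' → z' < a → |z' - z| < ε →
      f z' = f z := by
    intro z hz hza
    obtain ⟨ε1, he1, hza1, h1⟩ := nat_right d hdM hdm hz hza
    obtain ⟨ε2, he2, hza2, h2⟩ := nat_left d hdm hz hza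
    have hR : ∀ y, z < y → y < z + ε1 → Λ y = Λ z ∧ π y = π z := by
      intro y hy1 hy2
      have h3 := glob_interval H Λ π hs hz.le hza1 (fun u v hu hu' hv hv' => h1 u v hu hu' hv hv')
      have h4 : Str (slice K z) (slice C (ρ * z)) (Λ y) (π y) := by
        apply lim_right H hz (by linarith : z < z + ε1) hza1
        intro u hu1 hu2
        obtain ⟨h5, h6⟩ := h3 u y hu1 hu2 hy1 hy2
        rw [← h5, ← h6]
        exact hs u (hz.trans hu1) (hu2.trans_le hza1)
      exact Str.uniq H.t0 H.t1 (H.mK.slice_comp z) (H.iK z hz.le hza) h4 (hs z hz hza)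
    have hL : ∀ y, z - ε2 < y → y < z → Λ y = Λ z ∧ π y = π z := by
      intro y hy1 hy2
      have h3 := glob_interval H Λ π hs hza2 hza.le (fun u v hu hu' hv hv' => h2 u v hu hu' hv hv')
      have h4 : Str (slice K z) (slice C (ρ * z)) (Λ y) (π y) := by
        apply lim_left H hza2 (by linarith : z - ε2 < z) hza
        intro u hu1 hu2
        obtain ⟨h5, h6⟩ := h3 u y hu1 hu2 hy1 hy2
        rw [← h5, ← h6]
        exact hs u (hza2.trans_lt hu1) (hu2.trans hza)
      exact Str.uniq H.t0 H.t1 (H.mK.slice_comp z) (H.iK z hz.le hza) h4 (hs z hz hza)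
    refine ⟨min ε1 ε2, lt_min he1 he2, ?_⟩
    intro z' _ _ hzz
    rw [abs_lt] at hzz
    have e1 := min_le_left ε1 ε2
    have e2 := min_le_right ε1 ε2
    rcases lt_trichotomy z' z with h3 | h3 | h3
    · obtain ⟨h4, h5⟩ := hL z' (by linarith) h3
      exact Prod.ext h4 h5
    · rw [h3]
    · obtain ⟨h4, h5⟩ := hR z' h3 (by linarith)
      exact Prod.ext h4 h5
  have hc := const_of_local f hloc
  have ha := H.a0
  refine ⟨Λ (a / 2), π (a / 2), ?_⟩
  intro z hz hza
  have h1 := hc z (a / 2) hz hza (by positivity) (by linarith)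
  have h2 := hs z hz hza
  have h3 : Λ z = Λ (a / 2) := congrArg Prod.fst h1
  have h4 : π z = π (a / 2) := congrArg Prod.snd h1
  rw [h3, h4] at h2
  exact h2

end Pool.Agent.Lib.MP_1dedaf_gt.EG

end
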