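import Pool.Agent.Lib.MP_1dedaf_gt.ED.B
import Pool.Agent.Lib.MP_1dedaf_gt.ED.A
import Pool.Agent.Lib.MP_1dedaf_gt.SC.Base0
import Pool.Agent.Lib.MP_1dedaf_gt.LB.F0
import Pool.Agent.Lib.MP_1dedaf_gt.LB.E15a
import Pool.Agent.Lib.MP_1dedaf_gt.LB.F2
import Pool.Agent.Lib.MP_1dedaf_gt.DK.EP.FIN
import Pool.Agent.Lib.MP_1dedaf_gt.ED.C

/-!
# MP_1dedaf_gt: slices, induction, equality cases
-/

set_option autoImplicit false

section

/-!
# MP_1dedaf_gt, EG: the area of the slices
-/


open MeasureTheory Set Filter Topology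
open scoped ENNReal NNReal Pointwise

namespace Pool.Agent.Lib.MP_1dedaf_gt.EG

open Pool.Agent.Lib.MP_1dedaf_gt.SC

/-- The area of a slice. -/
noncomputable def fa {n : ℕ} (X : Set (E (n + 1))) (z : ℝ) : ℝ := (volume (slice X z)).toReal

variable {n : ℕ} {X : Set (E (n + 1))} {m : ℝ}

lemma fa_nonneg (X : Set (E (n + 1))) (z : ℝ) : 0 ≤ fa X z := ENNReal.toReal_nonneg

lemma Mir.slice_ne_top (h : Mir X m) (z : ℝ) : volume (slice X z) ≠ ∞ :=
  (h.slice_comp z).measure_lt_top.ne

lemma Mir.slice_neg (h : Mir X m) (z : ℝ) : slice X (-z) = slice X z := by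
  ext x
  constructor
  · intro hx
    have := h.mir x (-z) hx
    rwa [neg_neg] at this
  · intro hx
    exact h.mir x z hx

lemma Mir.slice_abs (h : Mir X m) (z : ℝ) : slice X |z| = slice X z := by
  rcases abs_choice z with h1 | h1
  · rw [h1]
  · rw [h1, h.slice_neg]

/-- Lower bound for the area of a slice between `z` and `w`. -/
lemma Mir.vol_dil (h : Mir X m) {z w l : ℝ} (hw : |w| ≤ m) (h0 : 0 ≤ l) (h1 : l ≤ 1) :
    ENNReal.ofReal ((1 - l) ^ n) * volume (slice X z) ≤
      volume (slice X ((1 - l) * z + l * w)) := by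
  have h2 : (1 - l) • slice X z ⊆ slice X ((1 - l) * z + l * w) := by
    rintro _ ⟨x, hx, rfl⟩
    exact h.dil hx hw h0 h1
  refine le_trans ?_ (measure_mono h2)
  have hl : 0 ≤ 1 - l := sub_nonneg.2 h1
  rw [Measure.addHaar_smul, finrank_euclideanSpace_fin, abs_of_nonneg (pow_nonneg hl n)]

lemma Mir.slice_pos (h : Mir X m) {z : ℝ} (hz0 : 0 ≤ z) (hz : z < m) :
    volume (slice X z) ≠ 0 := by
  have hv := h.vol
  rw [vol_slice X h.comp.measurableSet] at hv
  obtain ⟨y, hy⟩ : ∃ y, volume (slice X y) ≠ 0 := by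
    by_contra hcon
    push Not at hcon
    exact hv (by simp [hcon])
  have hyne : (slice X y).Nonempty := by
    by_contra hcon
    rw [not_nonempty_iff_eq_empty] at hcon
    rw [hcon] at hy
    simp at hy
  obtain ⟨x, hx⟩ := hyne
  have hym := h.abs_le hx
  rcases le_or_gt z |y| with h1 | h1
  · intro h2
    apply hy
    rw [← h.slice_abs]
    refine measure_mono_null (h.mono ?_) h2
    rwa [abs_of_nonneg hz0]
  · set l : ℝ := (z - |y|) / (m - |y|) with hl
    have hd : 0 < m - |y| := by linarith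
    have h3 : 0 ≤ l := div_nonneg (by linarith) hd.le
    have h4 : l < 1 := by rw [hl, div_lt_one hd]; linarith
    have h5 : (1 - l) * |y| + l * m = z := by
      rw [hl]
      field_simp
      ring
    have h6 := h.vol_dil (z := |y|) (w := m) (l := l) (by rw [abs_of_pos h.pos]) h3 h4.le
    rw [h5, h.slice_abs] at h6
    intro h7
    rw [h7] at h6
    have h8 := le_antisymm h6 bot_le
    rcases mul_eq_zero.1 h8 with h9 | h9
    · rw [ENNReal.ofReal_eq_zero] at h9
      have : 0 < (1 - l) ^ n := by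
        have : 0 < 1 - l := by linarith
        positivity
      linarith
    · exact hy h9

lemma Mir.fa_pos (h : Mir X m) {z : ℝ} (hz0 : 0 ≤ z) (hz : z < m) : 0 < fa X z :=
  ENNReal.toReal_pos (h.slice_pos hz0 hz) (h.slice_ne_top z)

lemma Mir.fa_anti (h : Mir X m) {z z' : ℝ} (hz : |z| ≤ z') : fa X z' ≤ fa X z :=
  ENNReal.toReal_mono (h.slice_ne_top z) (measure_mono (h.mono hz))

lemma Mir.fa_le (h : Mir X m) (z : ℝ) : fa X z ≤ fa X 0 := by
  have h1 := h.fa_anti (z := 0) (z' := |z|) (by simp)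
  unfold fa at h1 ⊢
  rwa [h.slice_abs] at h1

lemma Mir.fa_dil (h : Mir X m) {z w l : ℝ} (hw : |w| ≤ m) (h0 : 0 ≤ l) (h1 : l ≤ 1) :
    (1 - l) ^ n * fa X z ≤ fa X ((1 - l) * z + l * w) := by
  have h2 := ENNReal.toReal_mono (h.slice_ne_top _) (h.vol_dil (z := z) hw h0 h1)
  rwa [ENNReal.toReal_mul, ENNReal.toReal_ofReal (by positivity)] at h2

/-- Two-sided bound: `((m - z') / (m - z))^2 f(z) ≤ f(z') ≤ f(z)`. -/
lemma Mir.fa_two (h : Mir X m) {z z' : ℝ} (hz : z ≤ z') (hz' : z' < m) :
    ((m - z') / (m - z)) ^ n * fa X z ≤ fa X z' := by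
  have hd : 0 < m - z := by linarith
  have h1 := h.fa_dil (z := z) (w := m) (l := (z' - z) / (m - z)) (by rw [abs_of_pos h.pos])
    (div_nonneg (by linarith) hd.le) (by rw [div_le_one hd]; linarith)
  have h2 : (1 - (z' - z) / (m - z)) * z + (z' - z) / (m - z) * m = z' := by
    field_simp
    ring
  have h3 : 1 - (z' - z) / (m - z) = (m - z') / (m - z) := by
    field_simp
    ring
  rw [h2, h3] at h1
  exact h1

lemma Mir.fa_cont (h : Mir X m) : ContinuousOn (fa X) (Ioo 0 m) := by
  intro z ⟨hz0, hzm⟩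
  apply ContinuousAt.continuousWithinAt
  have hd : 0 < m - z := by linarith
  -- squeeze
  have hlow : ∀ᶠ y in 𝓝 z, min (((m - y) / (m - z)) ^ n * fa X z) (fa X z) ≤ fa X y := by
    filter_upwards [Ioo_mem_nhds hz0 hzm] with y hy
    rcases le_total z y with h1 | h1
    · exact (min_le_left _ _).trans (h.fa_two h1 hy.2)
    · refine (min_le_right _ _).trans (h.fa_anti ?_)
      rwa [abs_of_pos hy.1]
  have hupp : ∀ᶠ y in 𝓝 z, fa X y ≤ max (fa X z) (fa X z / ((m - z) / (m - y)) ^ n) := by
    filter_upwards [Ioo_mem_nhds hz0 hzm] with y hy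
    have hdy : 0 < m - y := by linarith [hy.2]
    rcases le_total z y with h1 | h1
    · refine (h.fa_anti ?_).trans (le_max_left _ _)
      rwa [abs_of_pos hz0]
    · refine le_trans ?_ (le_max_right _ _)
      rw [le_div_iff₀ (by positivity), mul_comm]
      exact h.fa_two h1 hzm
  have hc1 : Tendsto (fun y => min (((m - y) / (m - z)) ^ n * fa X z) (fa X z)) (𝓝 z)
      (𝓝 (fa X z)) := by
    have h1 : ContinuousAt (fun y => ((m - y) / (m - z)) ^ n * fa X z) z := by fun_prop
    have h2 := h1.tendsto.min (tendsto_const_nhds (x := fa X z))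
    rw [div_self hd.ne'] at h2
    simpa using h2
  have hc2 : Tendsto (fun y => max (fa X z) (fa X z / ((m - z) / (m - y)) ^ n)) (𝓝 z)
      (𝓝 (fa X z)) := by
    have h1 : ContinuousAt (fun y => fa X z / ((m - z) / (m - y)) ^ n) z := by
      apply ContinuousAt.div continuousAt_const
      · apply ContinuousAt.pow
        apply ContinuousAt.div continuousAt_const (by fun_prop) hd.ne'
      · have : 0 < ((m - z) / (m - z)) ^ n := by positivity
        exact this.ne'
    have h2 := (tendsto_const_nhds (x := fa X z)).max h1.tendsto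
    rw [div_self hd.ne'] at h2
    simpa using h2
  exact tendsto_of_tendsto_of_tendsto_of_le_of_le' hc1 hc2 hlow hupp

lemma Mir.fa_zero (h : Mir X m) {z : ℝ} (hz : m < |z|) : fa X z = 0 := by
  have : slice X z = ∅ := by
    rw [← not_nonempty_iff_eq_empty]
    rintro ⟨x, hx⟩
    have := h.abs_le hx
    linarith
  unfold fa
  rw [this]
  simp

lemma Mir.vol_eq (h : Mir X m) : (volume X).toReal = 2 * ∫ z in Ioo 0 m, fa X z := by
  have hX := h.comp.measurableSet
  have h1 : volume X = 2 * ∫⁻ z in Ioi (0 : ℝ), volume (slice X z) := by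
    rw [vol_slice X hX, lint_split, two_mul]
    congr 1
    apply lintegral_congr
    intro z
    rw [h.slice_neg]
  have h2 : ∫⁻ z in Ioi (0 : ℝ), volume (slice X z) = ∫⁻ z in Ioo (0 : ℝ) m, volume (slice X z) := by
    have h3 : Ioi (0 : ℝ) = Ioo 0 m ∪ Ici m := by
      ext z
      simp only [mem_Ioi, mem_union, mem_Ioo, mem_Ici]
      constructor
      · intro hz
        rcases lt_or_ge z m with h4 | h4
        · exact Or.inl ⟨hz, h4⟩
        · exact Or.inr h4
      · rintro (h4 | h4)
        · exact h4.1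
        · linarith [h.pos]
    rw [h3, lintegral_union measurableSet_Ici (by
      rw [disjoint_left]
      intro z hz hz'
      exact absurd hz.2 (not_lt.2 hz'))]
    have h5 : ∫⁻ z in Ici m, volume (slice X z) = 0 := by
      rw [setLIntegral_congr (Ioi_ae_eq_Ici (μ := volume) (a := m)).symm]
      rw [setLIntegral_eq_zero_iff measurableSet_Ioi (meas_slice X hX)]
      apply Eventually.of_forall
      intro z hz
      have h6 : slice X z = ∅ := by
        rw [← not_nonempty_iff_eq_empty]
        rintro ⟨x, hx⟩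
        have h7 := h.abs_le hx
        have h8 : m < z := hz
        have h9 := le_abs_self z
        linarith
      rw [h6]
      simp
    rw [h5, add_zero]
  rw [h1, h2, ENNReal.toReal_mul]
  congr 1
  rw [← integral_toReal]
  · rfl
  · exact (meas_slice X hX).aemeasurable
  · exact Eventually.of_forall fun z => (h.slice_comp z).measure_lt_top

end Pool.Agent.Lib.MP_1dedaf_gt.EG

end

section

/-!
# MP_1dedaf_gt, EG: bodies of the class and their combinations have a mirror
-/


open MeasureTheory Set Filter Topology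
open scoped ENNReal NNReal Pointwise

namespace Pool.Agent.Lib.MP_1dedaf_gt.EG

open Pool.Agent.Lib.MP_1dedaf_gt.SC
open Pool.Agent.Lib.MP_1dedaf_gt.EQ (closed_lim cont_ext2 eq_of_vol)

/-- The last coordinate vector. -/
noncomputable def e3 {n : ℕ} : E (n + 1) := SC.ext (0 : E n) 1

lemma inner_e3 {n : ℕ} (x : E n) (z : ℝ) : inner ℝ (SC.ext x z) e3 = z := by
  rw [inner_ext]
  unfold e3
  rw [ini_ext, inner_zero_right, zero_add, ext_last, mul_one]

lemma norm_ext_sq {n : ℕ} (x : E n) (z : ℝ) : ‖ext x z‖ ^ 2 = ‖x‖ ^ 2 + z ^ 2 := by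
  rw [← real_inner_self_eq_norm_sq, ← real_inner_self_eq_norm_sq, inner_ext, ini_ext, ext_last]
  ring

lemma norm_e3 {n : ℕ} : ‖(e3 : E (n + 1))‖ = 1 := by
  have h := norm_ext_sq (0 : E n) 1
  simp only [norm_zero, ne_eq, OfNat.ofNat_ne_zero, not_false_eq_true, zero_pow, one_pow,
    zero_add] at h
  have h2 : ‖(e3 : E (n + 1))‖ ^ 2 = 1 := h
  nlinarith [norm_nonneg (e3 : E (n + 1))]

/-- A body of the class is a body with a mirror. -/
lemma mir_of_good {k : ℕ} {K : Set (E ((2 + k) + 1))} (hK : Good (k + 1) K) (hv : volume K ≠ 0) :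
    Mir K (supp K e3) := by
  have hmir : ∀ (x : E (2 + k)) (z : ℝ), ext x z ∈ K → ext x (-z) ∈ K := fun x z h => hK.mirror h
  have hle : ∀ (x : E (2 + k)) (z : ℝ), ext x z ∈ K → z ≤ supp K e3 := by
    intro x z h
    have := le_supp hK.comp e3 h
    rwa [inner_e3] at this
  have hne : K.Nonempty := by
    rw [nonempty_iff_ne_empty]
    rintro rfl
    simp at hv
  -- a slice of positive area at a height `/= 0`
  obtain ⟨y, hy0, hy⟩ : ∃ y : ℝ, 0 < y ∧ volume (slice K y) ≠ 0 := by
    by_contra hcon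
    push Not at hcon
    apply hv
    rw [vol_slice K hK.comp.measurableSet, lint_split]
    have h1 : ∫⁻ z in Ioi (0 : ℝ), volume (slice K z) = 0 := by
      rw [setLIntegral_eq_zero_iff measurableSet_Ioi (meas_slice K hK.comp.measurableSet)]
      exact Eventually.of_forall fun z hz => hcon z hz
    have h2 : ∀ z, slice K (-z) = slice K z := by
      intro z
      ext x
      constructor
      · intro hx
        have := hmir x (-z) hx
        rwa [neg_neg] at this
      · intro hx
        exact hmir x z hx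
    simp only [h2]
    rw [h1, zero_add]
  have hyz : (0 : E (2 + k)) ∈ slice K y := SC.zero_mem k _ (hK.slice y) hy
  have hya : y ≤ supp K e3 := hle 0 y hyz
  have ha : 0 < supp K e3 := hy0.trans_le hya
  -- the top
  obtain ⟨p, hp, hpe⟩ := supp_attained hK.comp hne e3
  set a := supp K e3 with hadef
  have hp2 : ext (ini p) a ∈ K := by
    have h1 : p (Fin.last (2 + k)) = a := by
      rw [← hpe, ← ext_ini p, inner_e3, ext_last]
    rw [← h1, ext_ini]
    exact hp
  have htop : ext (0 : E (2 + k)) a ∈ K := by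
    have h3 : Continuous fun l : ℝ => ext (0 : E (2 + k)) ((1 - l) * a + l * y) :=
      cont_ext2.comp (continuous_const.prodMk (by fun_prop))
    have h4 := closed_lim hK.comp.isClosed h3 (fun l hl0 hl1 => by
      have h5 : (fun x => (1 - l) • ini p + l • x) '' slice K y ⊆
          slice K ((1 - l) * a + l * y) := by
        rintro _ ⟨x, hx, rfl⟩
        have h6 := hK.conv hp2 (show ext x y ∈ K from hx) (sub_nonneg.2 hl1.le) hl0.le (by ring)
        rw [ext_comb] at h6
        exact h6
      have h7 : volume (slice K ((1 - l) * a + l * y)) ≠ 0 := by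
        intro h8
        have h9 := measure_mono_null h5 h8
        have h10 : (fun x => (1 - l) • ini p + l • x) '' slice K y =
            (fun x => (1 - l) • ini p + x) '' (l • slice K y) := by
          rw [← image_smul, image_image]
        rw [h10, image_add_left, measure_preimage_add, Measure.addHaar_smul] at h9
        rcases mul_eq_zero.1 h9 with h11 | h11
        · rw [ENNReal.ofReal_eq_zero] at h11
          have : 0 < |l ^ Module.finrank ℝ (E (2 + k))| := by positivity
          linarith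
        · exact hy h11
      exact SC.zero_mem k _ (hK.slice _) h7)
    simpa using h4
  exact ⟨hK.conv, hK.comp, hmir, ha, htop, hle, hv⟩

end Pool.Agent.Lib.MP_1dedaf_gt.EG

end

section

/-!
# MP_1dedaf_gt, EG: the combination has a mirror
-/


open MeasureTheory Set Filter Topology
open scoped ENNReal NNReal Pointwise

namespace Pool.Agent.Lib.MP_1dedaf_gt.EG

open Pool.Agent.Lib.MP_1dedaf_gt.SC
open Pool.Agent.Lib.MP_1dedaf_gt.EQ (closed_lim cont_ext2 eq_of_vol)

lemma convex_logC {n : ℕ} (t : ℝ) (K C : Set (E n)) : Convex ℝ (logC t K C) := by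
  intro x hx y hy a b ha hb hab u hu
  have h1 := hx u hu
  have h2 := hy u hu
  rw [inner_add_left, real_inner_smul_left, real_inner_smul_left]
  calc a * inner ℝ x u + b * inner ℝ y u
      ≤ a * (supp K u ^ (1 - t) * supp C u ^ t) + b * (supp K u ^ (1 - t) * supp C u ^ t) := by
        gcongr
    _ = _ := by rw [← add_mul, hab, one_mul]

lemma compact_logC {n : ℕ} {t : ℝ} (ht0 : 0 < t) (ht1 : t < 1) {K C : Set (E n)}
    (hK : IsCompact K) (hC : IsCompact C) (h0 : (0 : E n) ∈ K) (h0' : (0 : E n) ∈ C) :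
    IsCompact (logC t K C) :=
  Metric.isCompact_of_isClosed_isBounded (isClosed_logC t K C) (logC_bdd ht0 ht1 hK hC h0 h0')

lemma zero_mem_logC {n : ℕ} {t : ℝ} {K C : Set (E n)}
    (hK : IsCompact K) (hC : IsCompact C) (h0 : (0 : E n) ∈ K) (h0' : (0 : E n) ∈ C) :
    (0 : E n) ∈ logC t K C := by
  intro u _
  rw [inner_zero_left]
  have h1 := supp_nonneg hK h0 u
  have h2 := supp_nonneg hC h0' u
  positivity

lemma Mir.zero_mem3 {n : ℕ} {X : Set (E (n + 1))} {m : ℝ} (h : Mir X m) :
    (0 : E (n + 1)) ∈ X := by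
  have h1 := h.zero_mem (w := 0) (by simpa using h.pos.le)
  have h2 : SC.ext (0 : E n) 0 = 0 := by
    ext i
    refine Fin.lastCases ?_ (fun c => ?_) i
    · rw [ext_last]
      simp
    · rw [ext_castSucc]
      simp
  rw [← h2]
  exact h1

lemma Mir.supp_e3 {n : ℕ} {X : Set (E (n + 1))} {m : ℝ} (h : Mir X m) : supp X e3 = m := by
  apply le_antisymm
  · obtain ⟨p, hp, hpe⟩ := supp_attained h.comp ⟨0, h.zero_mem3⟩ e3
    rw [← hpe, ← ext_ini p, inner_e3]
    apply h.le (ini p)
    rw [ext_ini]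
    exact hp
  · have h1 := le_supp h.comp e3 h.top
    rwa [inner_e3] at h1

lemma supp_mir_le {n : ℕ} {X : Set (E (n + 1))} {m : ℝ} (h : Mir X m) (u : E n) (v : ℝ) :
    supp X (SC.ext u (-v)) ≤ supp X (SC.ext u v) := by
  obtain ⟨p, hp, hpe⟩ := supp_attained h.comp ⟨0, h.zero_mem3⟩ (SC.ext u (-v))
  rw [← hpe]
  have h1 : SC.ext (ini p) (p (Fin.last n)) ∈ X := by rw [ext_ini]; exact hp
  have h2 := le_supp h.comp (SC.ext u v) (h.mir _ _ h1)
  rw [inner_ext, ini_ext, ext_last] at h2
  rw [← ext_ini p, inner_ext, ini_ext, ext_last]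
  linarith

lemma supp_mir {n : ℕ} {X : Set (E (n + 1))} {m : ℝ} (h : Mir X m) (u : E n) (v : ℝ) :
    supp X (SC.ext u (-v)) = supp X (SC.ext u v) := by
  apply le_antisymm (supp_mir_le h u v)
  have h1 := supp_mir_le h u (-v)
  rwa [neg_neg] at h1

lemma mir_W {k : ℕ} {t : ℝ} (ht0 : 0 < t) (ht1 : t < 1) {K C : Set (E ((2 + k) + 1))}
    (hK : Good (k + 1) K) (hC : Good (k + 1) C) {a b : ℝ} (mK : Mir K a) (mC : Mir C b) :
    Mir (logC t K C) (a ^ (1 - t) * b ^ t) := by
  have hs0 : 0 < 1 - t := by linarith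
  have ha := mK.pos
  have hb := mC.pos
  refine ⟨convex_logC t K C, compact_logC ht0 ht1 mK.comp mC.comp mK.zero_mem3 mC.zero_mem3,
    ?_, by positivity, ?_, ?_, ?_⟩
  · intro x z hx u hu
    have h1 : inner ℝ (SC.ext x (-z)) u = inner ℝ (SC.ext x z) (SC.ext (ini u) (-(u (Fin.last (2 + k))))) := by
      rw [inner_ext, inner_ext, ini_ext, ext_last]
      ring
    have h2 : ‖SC.ext (ini u) (-(u (Fin.last (2 + k))))‖ = 1 := by
      have h3 := norm_ext_sq (ini u) (-(u (Fin.last (2 + k))))
      have h4 := norm_ext_sq (ini u) (u (Fin.last (2 + k)))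
      rw [ext_ini, hu] at h4
      have h5 : ‖SC.ext (ini u) (-(u (Fin.last (2 + k))))‖ ^ 2 = 1 := by
        rw [h3, neg_sq, ← h4, one_pow]
      nlinarith [norm_nonneg (SC.ext (ini u) (-(u (Fin.last (2 + k)))))]
    have h3 := hx _ h2
    rw [supp_mir mK, supp_mir mC, ext_ini] at h3
    rw [h1]
    exact h3
  · have h1 : Continuous fun l : ℝ => SC.ext (0 : E (2 + k)) ((1 - l) * (a ^ (1 - t) * b ^ t)) :=
      cont_ext2.comp (continuous_const.prodMk (by fun_prop))
    have h2 := closed_lim (isClosed_logC t K C) h1 (fun l hl0 hl1 => by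
      have hl : 0 < 1 - l := by linarith
      have h3 := slice_logC ht0 ht1 hK hC (z := (1 - l) * a) (w := (1 - l) * b) (by positivity)
        (by positivity) (mK.slice_pos (by positivity) (by nlinarith))
        (mC.slice_pos (by positivity) (by nlinarith)) (s := (1 - l) * (a ^ (1 - t) * b ^ t)) (by
          rw [rpow_hom ha.le hb.le hl, abs_of_pos (by positivity)])
      apply h3
      apply zero_mem_logC (mK.slice_comp _) (mC.slice_comp _)
      · apply mK.zero_mem
        rw [abs_of_pos (by positivity)]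
        nlinarith
      · apply mC.zero_mem
        rw [abs_of_pos (by positivity)]
        nlinarith)
    simpa using h2
  · intro x z hx
    have h1 := hx e3 norm_e3
    rwa [inner_e3, mK.supp_e3, mC.supp_e3] at h1
  · intro h1
    have h2 := all_k SC.base (k + 1) t ht0 ht1 K C hK hC
    rw [h1] at h2
    have h3 := le_antisymm h2 bot_le
    rcases mul_eq_zero.1 h3 with h4 | h4
    · rw [ENNReal.rpow_eq_zero_iff] at h4
      rcases h4 with ⟨h5, _⟩ | ⟨_, h5⟩
      · exact mK.vol h5
      · linarith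
    · rw [ENNReal.rpow_eq_zero_iff] at h4
      rcases h4 with ⟨h5, _⟩ | ⟨_, h5⟩
      · exact mC.vol h5
      · linarith

end Pool.Agent.Lib.MP_1dedaf_gt.EG

end

section

/-!
# MP_1dedaf_gt, EG: the situation of an equality pair
-/


open MeasureTheory Set Filter Topology
open scoped ENNReal NNReal Pointwise

namespace Pool.Agent.Lib.MP_1dedaf_gt.EG

open Pool.Agent.Lib.MP_1dedaf_gt.SC
open Pool.Agent.Lib.MP_1dedaf_gt.EQ (closed_lim cont_ext2 eq_of_vol pleq)

/-- The inequality for slices. -/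
lemma slice_ineq {k : ℕ} {t : ℝ} (ht0 : 0 < t) (ht1 : t < 1) {K C : Set (E ((2 + k) + 1))}
    (hK : Good (k + 1) K) (hC : Good (k + 1) C) {a b : ℝ} (mK : Mir K a) (mC : Mir C b) {x y : ℝ} (hx : 0 < x) (hxa : x < a)
    (hy : 0 < y) (hyb : y < b) :
    fa K x ^ (1 - t) * fa C y ^ t ≤ fa (logC t K C) (x ^ (1 - t) * y ^ t) := by
  have hs0 : 0 < 1 - t := by linarith
  have h1 := all_k SC.base k t ht0 ht1 _ _ (hK.slice x) (hC.slice y)
  have h2 := slice_logC ht0 ht1 hK hC hx hy (mK.slice_pos hx.le hxa) (mC.slice_pos hy.le hyb)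
    (s := x ^ (1 - t) * y ^ t) (abs_of_pos (by positivity))
  have h3 := h1.trans (measure_mono h2)
  have h4 := (mir_W ht0 ht1 hK hC mK mC).slice_ne_top (x ^ (1 - t) * y ^ t)
  have h5 := ENNReal.toReal_mono h4 h3
  rw [ENNReal.toReal_mul, ← ENNReal.toReal_rpow, ← ENNReal.toReal_rpow] at h5
  exact h5

theorem eqS_of {k : ℕ} (hk : EqC k) {t : ℝ} (ht0 : 0 < t) (ht1 : t < 1)
    {K C : Set (E ((2 + k) + 1))} (hK : Good (k + 1) K) (hC : Good (k + 1) C) (hKv : volume K ≠ 0) (hCv : volume C ≠ 0)
    (heq : volume (logC t K C) = volume K ^ (1 - t) * volume C ^ t) :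
    ∃ a ρ, EqS t K C a ρ := by
  have hs0 : 0 < 1 - t := by linarith
  obtain ⟨a, mK⟩ : ∃ a, Mir K a := ⟨_, mir_of_good hK hKv⟩
  obtain ⟨b, mC⟩ : ∃ b, Mir C b := ⟨_, mir_of_good hC hCv⟩
  have mW := mir_W ht0 ht1 hK hC mK mC
  have ha := mK.pos
  have hb := mC.pos
  have hint : (∫ x in Ioo 0 (a ^ (1 - t) * b ^ t), fa (logC t K C) x) ≤
      (∫ x in Ioo 0 a, fa K x) ^ (1 - t) * (∫ x in Ioo 0 b, fa C x) ^ t := by
    have h1 := congrArg ENNReal.toReal heq
    rw [ENNReal.toReal_mul, ← ENNReal.toReal_rpow, ← ENNReal.toReal_rpow, mK.vol_eq, mC.vol_eq,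
      mW.vol_eq, Real.mul_rpow (by norm_num) (integral_nonneg fun _ => fa_nonneg _ _),
      Real.mul_rpow (by norm_num) (integral_nonneg fun _ => fa_nonneg _ _)] at h1
    have h2 : (2 : ℝ) ^ (1 - t) * 2 ^ t = 2 := by
      rw [← Real.rpow_add (by norm_num)]
      simp
    have h3 : (2 : ℝ) ^ (1 - t) * (∫ x in Ioo 0 a, fa K x) ^ (1 - t) *
        (2 ^ t * (∫ x in Ioo 0 b, fa C x) ^ t) =
        (2 ^ (1 - t) * 2 ^ t) * ((∫ x in Ioo 0 a, fa K x) ^ (1 - t) *
          (∫ x in Ioo 0 b, fa C x) ^ t) := by ring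
    rw [h3, h2] at h1
    linarith
  obtain ⟨c, hc0, hc⟩ := pleq ht0 ht1 ha hb mK.fa_cont mC.fa_cont mW.fa_cont
    (fun x hx hxa => mK.fa_pos hx.le hxa) (fun x hx hxa => mC.fa_pos hx.le hxa)
    (fun x => fa_nonneg _ _) (M := max (fa K 0) (max (fa C 0) (fa (logC t K C) 0)))
    (fun x => (mK.fa_le x).trans (le_max_left _ _))
    (fun x => (mC.fa_le x).trans ((le_max_left _ _).trans (le_max_right _ _)))
    (fun x => (mW.fa_le x).trans ((le_max_right _ _).trans (le_max_right _ _)))
    (fun x y hx hxa hy hyb => slice_ineq ht0 ht1 hK hC mK mC hx hxa hy hyb) hint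
  set ρ : ℝ := b / a with hρ
  have hρ0 : 0 < ρ := div_pos hb ha
  have hρa : ρ * a = b := div_mul_cancel₀ b ha.ne'
  have hlt : ∀ z, z < a → ρ * z < b := by
    intro z hz
    rw [← hρa]
    exact mul_lt_mul_of_pos_left hz hρ0
  have hpw : ∀ z, 0 < z → z ^ (1 - t) * (ρ * z) ^ t = ρ ^ t * z := by
    intro z hz
    rw [Real.mul_rpow hρ0.le hz.le]
    have h1 : z ^ (1 - t) * z ^ t = z := by
      rw [← Real.rpow_add hz]
      simp
    calc z ^ (1 - t) * (ρ ^ t * z ^ t) = ρ ^ t * (z ^ (1 - t) * z ^ t) := by ring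
      _ = _ := by rw [h1]
  have hsl : ∀ z, 0 < z → z < a →
      slice (logC t K C) (ρ ^ t * z) = logC t (slice K z) (slice C (ρ * z)) ∧
      volume (logC t (slice K z) (slice C (ρ * z))) =
        volume (slice K z) ^ (1 - t) * volume (slice C (ρ * z)) ^ t := by
    intro z hz hza
    have hpz : 0 < ρ * z := by positivity
    have h1 := slice_logC ht0 ht1 hK hC hz hpz (mK.slice_pos hz.le hza)
      (mC.slice_pos hpz.le (hlt z hza)) (s := ρ ^ t * z) (by
        rw [hpw z hz, abs_of_pos (by positivity)])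
    have h2 := all_k SC.base k t ht0 ht1 _ _ (hK.slice z) (hC.slice (ρ * z))
    have h3 := (hc z hz hza).2
    have hWf := mW.slice_ne_top (ρ ^ t * z)
    have h4 : volume (slice (logC t K C) (ρ ^ t * z)) =
        volume (slice K z) ^ (1 - t) * volume (slice C (ρ * z)) ^ t := by
      rw [← ENNReal.ofReal_toReal hWf]
      have h5 : (volume (slice (logC t K C) (ρ ^ t * z))).toReal =
        (volume (slice K z)).toReal ^ (1 - t) * (volume (slice C (ρ * z))).toReal ^ t := h3
      rw [h5, ENNReal.ofReal_mul (by positivity),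
        ← ENNReal.ofReal_rpow_of_nonneg ENNReal.toReal_nonneg hs0.le,
        ← ENNReal.ofReal_rpow_of_nonneg ENNReal.toReal_nonneg ht0.le,
        ENNReal.ofReal_toReal (mK.slice_ne_top z), ENNReal.ofReal_toReal (mC.slice_ne_top _)]
    have hzW : ρ ^ t * z < a ^ (1 - t) * b ^ t := by
      have h7 := hpw a ha
      rw [hρa] at h7
      rw [h7]
      exact mul_lt_mul_of_pos_left hza (by positivity)
    have hWp := mW.slice_pos (z := ρ ^ t * z) (by positivity) hzW
    have h0K : (0 : E (2 + k)) ∈ slice K z := mK.zero_mem (by rw [abs_of_pos hz]; exact hza.le)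
    have h0C : (0 : E (2 + k)) ∈ slice C (ρ * z) :=
      mC.zero_mem (by rw [abs_of_pos hpz]; exact (hlt z hza).le)
    have h6 : logC t (slice K z) (slice C (ρ * z)) = slice (logC t K C) (ρ ^ t * z) := by
      apply eq_of_vol (compact_logC ht0 ht1 (mK.slice_comp z) (mC.slice_comp _) h0K h0C)
        (mW.slice_conv _) (int_nonempty (mW.slice_conv _) hWp) hWf h1
      rw [h4]
      exact h2
    refine ⟨h6.symm, ?_⟩
    rw [h6]
    exact h4
  refine ⟨a, ρ, ht0, ht1, ha, hρ0, mK, by rwa [hρa], ?_, ?_,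
    fun z hz hza => (hsl z hz hza).1, ?_, ?_⟩
  · intro z hz hza
    exact good_interior k (hK.slice z) (mK.slice_pos hz hza)
  · intro z hz hza
    exact good_interior k (hC.slice (ρ * z)) (mC.slice_pos (by positivity) (hlt z hza))
  · intro z z' hz hzz _
    apply mW.mono
    rw [abs_of_pos (by positivity)]
    exact mul_le_mul_of_nonneg_left hzz (by positivity)
  · intro z hz hza
    exact hk t ht0 ht1 _ _ (hK.slice z) (hC.slice (ρ * z)) (mK.slice_pos hz.le hza)
      (mC.slice_pos (by positivity) (hlt z hza)) (hsl z hz hza).2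

end Pool.Agent.Lib.MP_1dedaf_gt.EG

end

section

/-!
# MP_1dedaf_gt, EG: the planar case, from the planar theorem
-/


open MeasureTheory Set Filter Topology
open scoped ENNReal NNReal Pointwise

namespace Pool.Agent.Lib.MP_1dedaf_gt.EG

open Pool.Agent.Lib.MP_1dedaf_gt.SC
open Pool.Agent.Lib.MP_1dedaf_gt.LB (rot par Dec)

/-- Two homothetic bodies. -/
lemma r0_dilate {K C : Set (E 2)} {r : ℝ} (hr : 0 < r) (h : C = r • K) :
    ∃ (Λ : Finset ℝ) (π : ℝ → (E 2 →L[ℝ] E 2)), Str K C Λ π := by
  classical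
  refine ⟨{r}, fun s => if s = r then ContinuousLinearMap.id ℝ (E 2) else 0, ?_, ?_, ?_⟩
  · refine ⟨?_, ?_, ?_, ?_, ?_⟩
    · intro s hs
      rw [Finset.mem_singleton.1 hs]
      exact hr
    · intro x
      rw [Finset.sum_singleton, if_pos rfl]
      rfl
    · intro s hs s' hs' hne
      exact absurd ((Finset.mem_singleton.1 hs).trans (Finset.mem_singleton.1 hs').symm) hne
    · intro s hs
      rw [if_pos (Finset.mem_singleton.1 hs)]
      intro h0
      obtain ⟨x, hx⟩ := exists_ne (0 : E 2)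
      apply hx
      have h1 := congrArg (fun T : E 2 →L[ℝ] E 2 => T x) h0
      exact h1
    · intro s hs
      exact if_neg fun h' => hs (Finset.mem_singleton.2 h')
  · intro f hf
    rw [Finset.sum_singleton, if_pos rfl]
    exact hf r (Finset.mem_singleton_self r)
  · rw [h]
    have h1 : op {r} (fun s => if s = r then ContinuousLinearMap.id ℝ (E 2) else 0) =
        r • ContinuousLinearMap.id ℝ (E 2) := by
      unfold op
      rw [Finset.sum_singleton]
      show r • (if r = r then ContinuousLinearMap.id ℝ (E 2) else 0) = _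
      rw [if_pos rfl]
    rw [h1]
    ext x
    rw [Set.mem_smul_set, Set.mem_image]
    rfl

/-- Two parallelograms with the same directions. -/
lemma r0_par {v w : E 2} (hvw : inner ℝ v (rot w) ≠ 0) {a b r s : ℝ} (hr : 0 < r)
    (hs : 0 < s) :
    ∃ (Λ : Finset ℝ) (π : ℝ → (E 2 →L[ℝ] E 2)), Str (par v w a b) (par v w (r * a) (s * b)) Λ π := by
  classical
  have hscale : ∀ {c y γ : ℝ}, 0 < c → (|y| ≤ c * γ ↔ |y / c| ≤ γ) := by
    intro c y γ hc
    rw [abs_div, abs_of_pos hc, div_le_iff₀ hc, mul_comm]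
  by_cases hrs : r = s
  · subst hrs
    apply r0_dilate hr
    ext x
    rw [mem_smul_set_iff_inv_smul_mem₀ hr.ne']
    show |inner ℝ x v| ≤ r * a ∧ |inner ℝ x w| ≤ r * b ↔
      |inner ℝ (r⁻¹ • x) v| ≤ a ∧ |inner ℝ (r⁻¹ • x) w| ≤ b
    rw [real_inner_smul_left, real_inner_smul_left, hscale hr, hscale hr, inv_mul_eq_div,
      inv_mul_eq_div]
  · obtain ⟨p, q, hpv, hpw, hqv, hqw, hx, -⟩ := EQ.dual hvw
    set P : E 2 →L[ℝ] E 2 := (innerSL ℝ v).smulRight p with hP
    set R : E 2 →L[ℝ] E 2 := (innerSL ℝ w).smulRight q with hR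
    have eP : ∀ x, P x = (inner ℝ x v : ℝ) • p := by
      intro x
      rw [hP, ContinuousLinearMap.smulRight_apply, innerSL_apply_apply, real_inner_comm]
    have eR : ∀ x, R x = (inner ℝ x w : ℝ) • q := by
      intro x
      rw [hR, ContinuousLinearMap.smulRight_apply, innerSL_apply_apply, real_inner_comm]
    have hcomb : ∀ c d : ℝ, inner ℝ (c • p + d • q) v = c ∧ inner ℝ (c • p + d • q) w = d := by
      intro c d
      constructor
      · rw [inner_add_left, real_inner_smul_left, real_inner_smul_left, hpv, hqv]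
        ring
      · rw [inner_add_left, real_inner_smul_left, real_inner_smul_left, hpw, hqw]
        ring
    set π : ℝ → (E 2 →L[ℝ] E 2) := fun c => if c = r then P else if c = s then R else 0 with hπ
    have π1 : π r = P := if_pos rfl
    have π2 : π s = R := by
      rw [hπ]
      show (if s = r then P else if s = s then R else 0) = R
      rw [if_neg (Ne.symm hrs), if_pos rfl]
    have hsum : ∀ f : ℝ → E 2, ∑ c ∈ ({r, s} : Finset ℝ), f c = f r + f s := by
      intro f
      exact Finset.sum_pair hrs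
    refine ⟨{r, s}, π, ?_, ?_, ?_⟩
    · refine ⟨?_, ?_, ?_, ?_, ?_⟩
      · intro c hc
        rcases Finset.mem_insert.1 hc with h | h
        · rw [h]
          exact hr
        · rw [Finset.mem_singleton.1 h]
          exact hs
      · intro x
        rw [hsum (fun c => π c x), π1, π2, eP, eR]
        exact (hx x).symm
      · intro c hc d hd hcd x
        rcases Finset.mem_insert.1 hc with h | h <;> rcases Finset.mem_insert.1 hd with h' | h'
        · exact absurd (h.trans h'.symm) hcd
        · rw [h, Finset.mem_singleton.1 h', π1, π2, eP, eR, real_inner_smul_left, hqv, mul_zero,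
            zero_smul]
        · rw [Finset.mem_singleton.1 h, h', π1, π2, eP, eR, real_inner_smul_left, hpw, mul_zero,
            zero_smul]
        · exact absurd ((Finset.mem_singleton.1 h).trans (Finset.mem_singleton.1 h').symm) hcd
      · intro c hc
        rcases Finset.mem_insert.1 hc with h | h
        · rw [h, π1]
          intro h0
          have h1 := congrArg (fun T : E 2 →L[ℝ] E 2 => T p) h0
          have h2 : P p = 0 := h1
          rw [eP, hpv, one_smul] at h2
          rw [h2, inner_zero_left] at hpv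
          exact zero_ne_one hpv
        · rw [Finset.mem_singleton.1 h, π2]
          intro h0
          have h1 := congrArg (fun T : E 2 →L[ℝ] E 2 => T q) h0
          have h2 : R q = 0 := h1
          rw [eR, hqw, one_smul] at h2
          rw [h2, inner_zero_left] at hqw
          exact zero_ne_one hqw
      · intro c hc
        have h1 : c ≠ r := fun h => hc (by rw [h]; exact Finset.mem_insert_self _ _)
        have h2 : c ≠ s := fun h => hc (by
          rw [h]
          exact Finset.mem_insert_of_mem (Finset.mem_singleton_self _))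
        rw [hπ]
        show (if c = r then P else if c = s then R else 0) = 0
        rw [if_neg h1, if_neg h2]
    · intro f hf
      rw [hsum (fun c => π c (f c)), π1, π2, eP, eR]
      obtain ⟨h1, h2⟩ := hcomb (inner ℝ (f r) v) (inner ℝ (f s) w)
      constructor
      · rw [h1]
        exact (hf r (Finset.mem_insert_self _ _)).1
      · rw [h2]
        exact (hf s (Finset.mem_insert_of_mem (Finset.mem_singleton_self _))).2
    · have hop : ∀ x, op {r, s} π x = (r * inner ℝ x v) • p + (s * inner ℝ x w) • q := by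
        intro x
        have h1 : op {r, s} π = r • π r + s • π s := by
          unfold op
          exact Finset.sum_pair hrs
        rw [h1, π1, π2]
        show r • P x + s • R x = _
        rw [eP, eR, smul_smul, smul_smul]
      ext y
      rw [Set.mem_image]
      constructor
      · rintro ⟨h1, h2⟩
        refine ⟨(inner ℝ y v / r) • p + (inner ℝ y w / s) • q, ?_, ?_⟩
        · obtain ⟨h3, h4⟩ := hcomb (inner ℝ y v / r) (inner ℝ y w / s)
          constructor
          · rw [h3]
            exact (hscale hr).1 h1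
          · rw [h4]
            exact (hscale hs).1 h2
        · obtain ⟨h3, h4⟩ := hcomb (inner ℝ y v / r) (inner ℝ y w / s)
          rw [hop, h3, h4, mul_div_cancel₀ _ hr.ne', mul_div_cancel₀ _ hs.ne']
          exact (hx y).symm
      · rintro ⟨x, ⟨h1, h2⟩, rfl⟩
        obtain ⟨h3, h4⟩ := hcomb (r * inner ℝ x v) (s * inner ℝ x w)
        rw [hop]
        constructor
        · rw [h3, abs_mul, abs_of_pos hr]
          exact mul_le_mul_of_nonneg_left h1 hr.le
        · rw [h4, abs_mul, abs_of_pos hs]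
          exact mul_le_mul_of_nonneg_left h2 hs.le

/-- The planar case, from the planar theorem. -/
theorem r0_base (hP : ∀ t : ℝ, 0 < t → t < 1 → ∀ K C : Set (E 2), Convex ℝ K → IsCompact K →
    (interior K).Nonempty → (∫ x in K, x) = 0 → Convex ℝ C → IsCompact C →
    (interior C).Nonempty → (∫ x in C, x) = 0 →
    (volume (logC t K C)).toReal = (volume K).toReal ^ (1 - t) * (volume C).toReal ^ t →
    Dec K C) : EqC 0 := by
  intro t ht0 ht1 K C hK hC hKv hCv heq
  have hKc := hK.cent (fun i => i.elim0)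
  rw [section_zero] at hKc
  have hCc := hC.cent (fun i => i.elim0)
  rw [section_zero] at hCc
  have hKi := int_nonempty hK.conv hKv
  have hCi := int_nonempty hC.conv hCv
  have hD : Dec (K : Set (E 2)) C := by
    apply hP t ht0 ht1 K C hK.conv hK.comp hKi hKc hC.conv hC.comp hCi hCc
    rw [ENNReal.toReal_rpow, ENNReal.toReal_rpow, ← ENNReal.toReal_mul]
    exact congrArg ENNReal.toReal heq
  have bK : LB.Body (K : Set (E 2)) := LB.body_of_centroid hK.conv hK.comp hKi hKc
  have bC : LB.Body (C : Set (E 2)) := LB.body_of_centroid hC.conv hC.comp hCi hCc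
  rcases LB.dec_cases bK bC hKc hCc hD with
    ⟨r, hr, h⟩ | ⟨v, w, hvw, a, b, a', b', ha, hb, ha', hb', h1, h2⟩
  · exact r0_dilate hr h
  · have e1 : a' = a' / a * a := by field_simp
    have e2 : b' = b' / b * b := by field_simp
    rw [e1, e2] at h2
    have h3 := r0_par hvw (a := a) (b := b) (div_pos ha' ha) (div_pos hb' hb)
    rw [← h1, ← h2] at h3
    exact h3

end Pool.Agent.Lib.MP_1dedaf_gt.EG

end

section

/-!
# MP_1dedaf_gt, EG: the planar case
-/


open MeasureTheory Set

namespace Pool.Agent.Lib.MP_1dedaf_gt.EG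

open Pool.Agent.Lib.MP_1dedaf_gt.SC

/-- ROW 0: the planar case. -/
theorem base : EqC 0 := by
  apply r0_base
  intro t ht0 ht1 K C hc hK hi h0 hc' hC hi' h0' heq
  exact (Pool.Agent.Lib.MP_1dedaf_gt.LB.planar_result Pool.Agent.Lib.MP_1dedaf_gt.DK.ker ht0 ht1
    hc hK hi h0 hc' hC hi' h0').2.1 heq

end Pool.Agent.Lib.MP_1dedaf_gt.EG

end

section

/-!
# MP_1dedaf_gt, EG: the equality cases in all dimensions
-/


open MeasureTheory Set Filter Topology
open scoped ENNReal NNReal Pointwise

namespace Pool.Agent.Lib.MP_1dedaf_gt.EG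

open Pool.Agent.Lib.MP_1dedaf_gt.SC

theorem eqC_step {k : ℕ} (hk : EqC k) : EqC (k + 1) := by
  intro t ht0 ht1 K C hK hC hKv hCv heq
  obtain ⟨a, ρ, H⟩ := eqS_of hk ht0 ht1 hK hC hKv hCv heq
  obtain ⟨Λ, π, h⟩ := glob H
  exact lift H h

theorem eqC_all (k : ℕ) : EqC k := by
  induction k with
  | zero => exact base
  | succ k ih => exact eqC_step ih

lemma logC_image_sub {n : ℕ} {t : ℝ} (P : E n ≃L[ℝ] E n) {K C : Set (E n)}
    (hK : IsCompact K) (hC : IsCompact C) (h0 : (0 : E n) ∈ K) (h0' : (0 : E n) ∈ C) :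
    logC t (P '' K) (P '' C) ⊆ P '' (logC t K C) := by
  intro y hy
  refine ⟨P.symm y, ?_, P.apply_symm_apply y⟩
  intro u _
  have h1 := logC_all (hK.image P.continuous) (hC.image P.continuous) ⟨0, h0, map_zero P⟩
    ⟨0, h0', map_zero P⟩ hy (ContinuousLinearMap.adjoint (P.symm : E n →L[ℝ] E n) u)
  rw [supp_image, supp_image, ContinuousLinearMap.adjoint_inner_right] at h1
  exact h1

lemma zero_of_lin {k : ℕ} {K : Set (E (2 + k))} (P : E (2 + k) ≃L[ℝ] E (2 + k))
    (gK : Good k (P '' K)) (hv : volume (P '' K) ≠ 0) : (0 : E (2 + k)) ∈ K := by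
  obtain ⟨x, hx, hx0⟩ := SC.zero_mem k _ gK hv
  have h1 : x = 0 := by
    apply P.injective
    rw [hx0, map_zero]
  rwa [← h1]

/-- The equality cases after a linear map. -/
theorem dec_of_lin {k : ℕ} {t : ℝ} (ht0 : 0 < t) (ht1 : t < 1) {K C : Set (E (2 + k))}
    (hK : IsCompact K) (hC : IsCompact C) (hKv : volume K ≠ 0) (hCv : volume C ≠ 0)
    (P : E (2 + k) ≃L[ℝ] E (2 + k)) (gK : Good k (P '' K)) (gC : Good k (P '' C))
    (heq : volume (logC t K C) = volume K ^ (1 - t) * volume C ^ t) : EQ.DecN K C := by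
  have hs0 : 0 < 1 - t := by linarith
  obtain ⟨D, hD0, hDt, hDv⟩ : ∃ D : ℝ≥0∞, D ≠ 0 ∧ D ≠ ∞ ∧ ∀ S : Set (E (2 + k)),
      volume (P '' S) = D * volume S := by
    refine ⟨ENNReal.ofReal |(P : E (2 + k) →L[ℝ] E (2 + k)).det|, ?_, ENNReal.ofReal_ne_top,
      fun S => Measure.addHaar_image_continuousLinearEquiv _ P S⟩
    have h3 : (P : E (2 + k) →L[ℝ] E (2 + k)).det ≠ 0 := (P.toLinearEquiv.isUnit_det').ne_zero
    intro h4
    rw [ENNReal.ofReal_eq_zero] at h4
    exact h3 (abs_eq_zero.1 (le_antisymm h4 (abs_nonneg _)))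
  have hPK : volume (P '' K) ≠ 0 := by
    rw [hDv]
    exact mul_ne_zero hD0 hKv
  have hPC : volume (P '' C) ≠ 0 := by
    rw [hDv]
    exact mul_ne_zero hD0 hCv
  have h0 := zero_of_lin P gK hPK
  have h0' := zero_of_lin P gC hPC
  have h4 : D ^ (1 - t) * D ^ t = D := by
    rw [← ENNReal.rpow_add _ _ hD0 hDt]
    simp
  have h5 : volume (P '' K) ^ (1 - t) * volume (P '' C) ^ t =
      D * (volume K ^ (1 - t) * volume C ^ t) := by
    rw [hDv, hDv, ENNReal.mul_rpow_of_nonneg _ _ hs0.le, ENNReal.mul_rpow_of_nonneg _ _ ht0.le]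
    calc D ^ (1 - t) * volume K ^ (1 - t) * (D ^ t * volume C ^ t)
        = (D ^ (1 - t) * D ^ t) * (volume K ^ (1 - t) * volume C ^ t) := by ring
      _ = _ := by rw [h4]
  have h6 : volume (logC t (P '' K) (P '' C)) =
      volume (P '' K) ^ (1 - t) * volume (P '' C) ^ t := by
    apply le_antisymm
    · rw [h5, ← heq, ← hDv]
      exact measure_mono (logC_image_sub P hK hC h0 h0')
    · exact all_k SC.base k t ht0 ht1 _ _ gK gC
  obtain ⟨Λ, π, H⟩ := eqC_all k t ht0 ht1 _ _ gK gC hPK hPC h6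
  exact EQ.decN_lin P (decN_of_str gK.conv gK.comp (int_nonempty gK.conv hPK) H)

/-- **The equality cases.** -/
theorem eq_iff {k : ℕ} {t : ℝ} (ht0 : 0 < t) (ht1 : t < 1) {K C : Set (E (2 + k))}
    (cK : Convex ℝ K) (hK : IsCompact K) (hKi : (interior K).Nonempty)
    (hC : IsCompact C) (hCi : (interior C).Nonempty)
    (P : E (2 + k) ≃L[ℝ] E (2 + k)) (gK : Good k (P '' K)) (gC : Good k (P '' C)) :
    (volume (logC t K C)).toReal = (volume K).toReal ^ (1 - t) * (volume C).toReal ^ t ↔
      EQ.DecN K C := by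
  have hs0 : 0 < 1 - t := by linarith
  have hKv : volume K ≠ 0 :=
    ((isOpen_interior.measure_pos volume hKi).trans_le (measure_mono interior_subset)).ne'
  have hCv : volume C ≠ 0 :=
    ((isOpen_interior.measure_pos volume hCi).trans_le (measure_mono interior_subset)).ne'
  have hKf : volume K ≠ ∞ := hK.measure_lt_top.ne
  have hCf : volume C ≠ ∞ := hC.measure_lt_top.ne
  have hf : volume K ^ (1 - t) * volume C ^ t ≠ ∞ :=
    ENNReal.mul_ne_top (ENNReal.rpow_ne_top_of_nonneg hs0.le hKf)
      (ENNReal.rpow_ne_top_of_nonneg ht0.le hCf)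
  have hP : ∀ {S : Set (E (2 + k))}, volume S ≠ 0 → volume (P '' S) ≠ 0 := by
    intro S hS h0
    apply hS
    rw [Measure.addHaar_image_continuousLinearEquiv] at h0
    rcases mul_eq_zero.1 h0 with h1 | h1
    · exfalso
      have h2 : (P : E (2 + k) →L[ℝ] E (2 + k)).det ≠ 0 :=
        (P.toLinearEquiv.isUnit_det').ne_zero
      rw [ENNReal.ofReal_eq_zero] at h1
      exact h2 (abs_eq_zero.1 (le_antisymm h1 (abs_nonneg _)))
    · exact h1
  have h0 := zero_of_lin P gK (hP hKv)
  have h0' := zero_of_lin P gC (hP hCv)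
  have hWf : volume (logC t K C) ≠ ∞ := (logC_bdd ht0 ht1 hK hC h0 h0').measure_lt_top.ne
  have hiff : (volume (logC t K C)).toReal = (volume K).toReal ^ (1 - t) * (volume C).toReal ^ t ↔
      volume (logC t K C) = volume K ^ (1 - t) * volume C ^ t := by
    rw [ENNReal.toReal_rpow, ENNReal.toReal_rpow, ← ENNReal.toReal_mul,
      ENNReal.toReal_eq_toReal_iff' hWf hf]
  rw [hiff]
  constructor
  · intro h
    exact dec_of_lin ht0 ht1 hK hC hKv hCv P gK gC h
  · intro h
    apply le_antisymm (conv_cen ht0 ht1 cK hK hKi (lin_centroid P hK (good_centroid k gK)) hC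
      (lin_centroid P hC (good_centroid k gC)) h)
    have h1 := main ht0 ht1 hK hC P gK gC
    rw [ENNReal.toReal_rpow, ENNReal.toReal_rpow, ← ENNReal.toReal_mul] at h1
    exact (ENNReal.toReal_le_toReal hf hWf).1 h1

end Pool.Agent.Lib.MP_1dedaf_gt.EG

end
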