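import Pool.Agent.Lib.MP_1dedaf_gt.SC.Final
import Pool.Agent.Lib.MP_1dedaf_gt.SC.Inv
import Pool.Agent.Lib.MP_1dedaf_gt.LB.E15a
import Pool.Agent.Lib.MP_1dedaf_gt.SC.Core
import Pool.Agent.Lib.MP_1dedaf_gt.SC.Base0

/-!
# MP_1dedaf_gt: structures, support functions, limits, converse
-/

set_option autoImplicit false

section

/-!
# MP_1dedaf_gt, EQ: the equality cases in `R^3`, definitions
-/


open MeasureTheory Set Filter Topology
open scoped ENNReal NNReal Pointwise

namespace Pool.Agent.Lib.MP_1dedaf_gt.EQ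

open Pool.Agent.Lib.MP_1dedaf_gt.SC

/-- A body with a mirror and height `m`. -/
structure Mir (X : Set (E (2 + 1))) (m : ℝ) : Prop where
  conv : Convex ℝ X
  comp : IsCompact X
  mir : ∀ (x : E 2) (z : ℝ), ext x z ∈ X → ext x (-z) ∈ X
  pos : 0 < m
  top : ext (0 : E 2) m ∈ X
  le : ∀ (x : E 2) (z : ℝ), ext x z ∈ X → z ≤ m
  vol : volume X ≠ 0

/-- The situation of an equality pair: `a` is the height of `K`, `ρ a` the height of `C`. -/
structure Eq3 (t : ℝ) (K C : Set (E (2 + 1))) (a ρ c : ℝ) : Prop where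
  t0 : 0 < t
  t1 : t < 1
  a0 : 0 < a
  r0 : 0 < ρ
  c0 : 0 < c
  gK : Good 1 K
  gC : Good 1 C
  mK : Mir K a
  mC : Mir C (ρ * a)
  iK : ∀ z, 0 ≤ z → z < a → (0 : E 2) ∈ interior (slice K z)
  iC : ∀ z, 0 ≤ z → z < a → (0 : E 2) ∈ interior (slice C (ρ * z))
  area : ∀ z, 0 < z → z < a → volume (slice C (ρ * z)) = ENNReal.ofReal c * volume (slice K z)
  sl : ∀ z, 0 < z → z < a →
    slice (logC t K C) (ρ ^ t * z) = logC t (slice K z) (slice C (ρ * z))
  dec : ∀ z, 0 < z → z < a → LB.Dec (slice K z) (slice C (ρ * z))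

/-- The equality cases of the question, in `R^n`. -/
def DecN {n : ℕ} (K C : Set (E n)) : Prop :=
  ∃ m : ℕ, ∃ Ks Cs : Fin m → Set (E n),
    (∀ i, Convex ℝ (Ks i) ∧ IsCompact (Ks i) ∧ (Ks i).Nonempty ∧
      1 ≤ Module.finrank ℝ (affineSpan ℝ (Ks i)).direction) ∧
    (∑ i, Module.finrank ℝ (affineSpan ℝ (Ks i)).direction) = n ∧
    K = ∑ i, Ks i ∧ C = ∑ i, Cs i ∧
    (∀ i, ∃ r : ℝ, 0 < r ∧ Cs i = r • Ks i)

end Pool.Agent.Lib.MP_1dedaf_gt.EQ

end

section

/-!
# MP_1dedaf_gt, EQ: basic lemmas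
-/


open MeasureTheory Set Filter Topology
open scoped ENNReal NNReal Pointwise

namespace Pool.Agent.Lib.MP_1dedaf_gt.EQ

open Pool.Agent.Lib.MP_1dedaf_gt.SC
open Pool.Agent.Lib.MP_1dedaf_gt.LB (rot par)

/-- Passage to the limit in a closed set. -/
lemma closed_lim {α : Type*} [TopologicalSpace α] {X : Set α} (hX : IsClosed X) {f : ℝ → α}
    (hf : Continuous f) (h : ∀ l, 0 < l → l < 1 → f l ∈ X) : f 0 ∈ X := by
  have h1 : f 0 ∈ closure X := by
    have h2 : (0 : ℝ) ∈ closure (Ioo (0 : ℝ) 1) := by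
      rw [closure_Ioo (by norm_num)]
      exact ⟨le_refl _, by norm_num⟩
    have h3 := mem_closure_image (hf.continuousAt (x := 0)) h2
    exact closure_mono (by rintro _ ⟨l, ⟨hl0, hl1⟩, rfl⟩; exact h l hl0 hl1) h3
  rwa [hX.closure_eq] at h1

lemma mem_slice {n : ℕ} {X : Set (E (n + 1))} {x : E n} {z : ℝ} : x ∈ slice X z ↔ ext x z ∈ X :=
  Iff.rfl

lemma cont_ext2 {n : ℕ} : Continuous (fun p : E n × ℝ => ext p.1 p.2) := by
  unfold SC.ext
  apply (PiLp.continuous_toLp 2 _).comp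
  apply continuous_pi
  intro i
  refine Fin.lastCases ?_ (fun j => ?_) i
  · simp only [Fin.snoc_last]
    exact continuous_snd
  · simp only [Fin.snoc_castSucc]
    exact (continuous_apply j).comp ((PiLp.continuous_ofLp 2 _).comp continuous_fst)

section Mir

variable {X : Set (E (2 + 1))} {m : ℝ}

lemma Mir.mono (h : Mir X m) {z z' : ℝ} (hz : |z| ≤ z') : slice X z' ⊆ slice X z := by
  intro x hx
  have h1 : ext x z' ∈ X := hx
  have h2 := h.mir x z' h1
  obtain ⟨h3, h4⟩ := abs_le.1 hz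
  rcases eq_or_lt_of_le ((abs_nonneg z).trans hz) with h0 | h0
  · have : z = z' := by linarith
    rw [this]
    exact hx
  · have h5 := h.conv h1 h2 (a := (z + z') / (2 * z')) (b := (z' - z) / (2 * z'))
      (by apply div_nonneg <;> linarith) (by apply div_nonneg <;> linarith) (by field_simp; ring)
    rw [ext_comb, ← add_smul] at h5
    have e1 : (z + z') / (2 * z') + (z' - z) / (2 * z') = 1 := by field_simp; ring
    have e2 : (z + z') / (2 * z') * z' + (z' - z) / (2 * z') * -z' = z := by field_simp; ring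
    rw [e1, one_smul, e2] at h5
    exact h5

lemma Mir.zero_mem (h : Mir X m) {w : ℝ} (hw : |w| ≤ m) : (0 : E 2) ∈ slice X w :=
  h.mono hw h.top

lemma Mir.abs_le (h : Mir X m) {x : E 2} {z : ℝ} (hx : x ∈ slice X z) : |z| ≤ m := by
  rw [_root_.abs_le]
  constructor
  · have := h.le x (-z) (h.mir x z hx)
    linarith
  · exact h.le x z hx

lemma Mir.dil (h : Mir X m) {x : E 2} {z w l : ℝ} (hx : x ∈ slice X z) (hw : |w| ≤ m)
    (h0 : 0 ≤ l) (h1 : l ≤ 1) : (1 - l) • x ∈ slice X ((1 - l) * z + l * w) := by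
  have h2 : ext (0 : E 2) w ∈ X := h.zero_mem hw
  have h3 : ext x z ∈ X := hx
  have h4 := h.conv h3 h2 (sub_nonneg.2 h1) h0 (by ring)
  rw [ext_comb, smul_zero, add_zero] at h4
  exact h4

lemma Mir.slice_comp (h : Mir X m) (z : ℝ) : IsCompact (slice X z) := slice_compact h.comp z

lemma Mir.slice_conv (h : Mir X m) (z : ℝ) : Convex ℝ (slice X z) := slice_convex h.conv z

end Mir

/-- Two compact convex sets with the same volume, one in the other. -/
lemma eq_of_vol {n : ℕ} {A B : Set (E n)} (hA : IsCompact A) (hB : Convex ℝ B)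
    (hi : (interior B).Nonempty) (hBf : volume B ≠ ∞) (hAB : A ⊆ B) (hv : volume B ≤ volume A) :
    A = B := by
  apply Subset.antisymm hAB
  intro y hy
  by_contra hyA
  have h1 : y ∈ closure (interior B) := by
    rw [hB.closure_interior_eq_closure_of_nonempty_interior hi]
    exact subset_closure hy
  have h2 : IsOpen (interior B ∩ Aᶜ) := isOpen_interior.inter hA.isClosed.isOpen_compl
  have h3 : (interior B ∩ Aᶜ).Nonempty := by
    obtain ⟨w, hw1, hw2⟩ := mem_closure_iff.1 h1 Aᶜ hA.isClosed.isOpen_compl hyA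
    exact ⟨w, hw2, hw1⟩
  have h4 := h2.measure_pos volume h3
  have h5 : volume A + volume (interior B ∩ Aᶜ) ≤ volume B := by
    rw [← measure_union (disjoint_left.2 fun x hx hx' => hx'.2 hx) h2.measurableSet]
    exact measure_mono (union_subset hAB (inter_subset_left.trans interior_subset))
  have h6 : volume A + volume (interior B ∩ Aᶜ) ≤ volume A + 0 := by
    rw [add_zero]
    exact h5.trans hv
  have h7 : volume A ≠ ∞ := ne_top_of_le_ne_top hBf (measure_mono hAB)
  have h8 := (ENNReal.add_le_add_iff_left h7).1 h6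
  exact h4.ne' (le_antisymm h8 bot_le)

/-- A dual basis. -/
lemma dual {v w : E 2} (hvw : inner ℝ v (rot w) ≠ 0) :
    ∃ p q : E 2, inner ℝ p v = 1 ∧ inner ℝ p w = 0 ∧ inner ℝ q v = 0 ∧ inner ℝ q w = 1 ∧
      (∀ x : E 2, x = (inner ℝ x v : ℝ) • p + (inner ℝ x w : ℝ) • q) ∧
      (∀ u : E 2, u = (inner ℝ p u : ℝ) • v + (inner ℝ q u : ℝ) • w) := by
  have e : ∀ x y : E 2, inner ℝ x y = x 0 * y 0 + x 1 * y 1 := by
    intro x y
    rw [inner_eq, Fin.sum_univ_two]
  have r0 : ∀ x : E 2, rot x 0 = -x 1 := fun x => rfl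
  have r1 : ∀ x : E 2, rot x 1 = x 0 := fun x => rfl
  rw [e, r0, r1] at hvw
  set D : ℝ := v 0 * -w 1 + v 1 * w 0 with hD
  refine ⟨D⁻¹ • rot w, (-D⁻¹) • rot v, ?_, ?_, ?_, ?_, ?_, ?_⟩
  · rw [real_inner_smul_left, e, r0, r1]
    field_simp
    rw [hD]; ring
  · rw [real_inner_smul_left, e, r0, r1]
    ring
  · rw [real_inner_smul_left, e, r0, r1]
    ring
  · rw [real_inner_smul_left, e, r0, r1]
    field_simp
    rw [hD]; ring
  · intro x
    ext i
    fin_cases i
    · simp only [PiLp.add_apply, PiLp.smul_apply, smul_eq_mul, Fin.zero_eta]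
      rw [e, e, r0, r0]
      field_simp
      rw [hD]; ring
    · simp only [PiLp.add_apply, PiLp.smul_apply, smul_eq_mul, Fin.mk_one]
      rw [e, e, r1, r1]
      field_simp
      rw [hD]; ring
  · intro x
    ext i
    fin_cases i
    · simp only [PiLp.add_apply, PiLp.smul_apply, smul_eq_mul, Fin.zero_eta]
      rw [real_inner_smul_left, real_inner_smul_left, e, e, r0, r0, r1, r1]
      field_simp
      rw [hD]; ring
    · simp only [PiLp.add_apply, PiLp.smul_apply, smul_eq_mul, Fin.mk_one]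
      rw [real_inner_smul_left, real_inner_smul_left, e, e, r0, r0, r1, r1]
      field_simp
      rw [hD]; ring

end Pool.Agent.Lib.MP_1dedaf_gt.EQ

end

section

/-!
# MP_1dedaf_gt, EQ: the dimensions, linear invariance (rows I0, I1)
-/


open MeasureTheory Set Filter Topology
open scoped ENNReal NNReal Pointwise

namespace Pool.Agent.Lib.MP_1dedaf_gt.EQ

open Pool.Agent.Lib.MP_1dedaf_gt.SC

private lemma i_finrank_sup {n : ℕ} {ι : Type*} (s : Finset ι) (U : ι → Submodule ℝ (E n)) :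
    Module.finrank ℝ (s.sup U : Submodule ℝ (E n)) ≤ ∑ i ∈ s, Module.finrank ℝ (U i) := by
  classical
  induction s using Finset.induction_on with
  | empty => simp
  | insert a s ha ih =>
    rw [Finset.sup_insert, Finset.sum_insert ha]
    exact (Submodule.finrank_add_le_finrank_add_finrank _ _).trans (by omega)

/-- ROW I0: the dimensions. -/
theorem decN_of {n m : ℕ} {K C : Set (E n)} (hK : (interior K).Nonempty)
    (Ks : Fin m → Set (E n)) (V : Fin m → Submodule ℝ (E n)) (r : Fin m → ℝ)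
    (h1 : ∀ i, Convex ℝ (Ks i) ∧ IsCompact (Ks i) ∧ (Ks i).Nonempty ∧ Ks i ⊆ V i)
    (h2 : ∀ i, 1 ≤ Module.finrank ℝ (V i)) (h3 : ∑ i, Module.finrank ℝ (V i) ≤ n)
    (h4 : K = ∑ i, Ks i) (hr : ∀ i, 0 < r i) (h5 : C = ∑ i, r i • Ks i) : DecN K C := by
  classical
  set U : Fin m → Submodule ℝ (E n) := fun i => (affineSpan ℝ (Ks i)).direction with hU
  have hUV : ∀ i, U i ≤ V i := by
    intro i
    rw [hU]
    show (affineSpan ℝ (Ks i)).direction ≤ V i
    rw [direction_affineSpan, vectorSpan_def, Submodule.span_le]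
    rintro _ ⟨x, hx, y, hy, rfl⟩
    exact (V i).sub_mem ((h1 i).2.2.2 hx) ((h1 i).2.2.2 hy)
  have htop : (⊤ : Submodule ℝ (E n)) ≤ Finset.univ.sup U := by
    have h6 : affineSpan ℝ K = ⊤ := by
      obtain ⟨x, hx⟩ := hK
      exact affineSpan_eq_top_of_nonempty_interior
        ⟨x, interior_mono (subset_convexHull ℝ K) hx⟩
    have h7 : vectorSpan ℝ K = ⊤ := by
      rw [← direction_affineSpan, h6, AffineSubspace.direction_top]
    rw [← h7, vectorSpan_def, Submodule.span_le]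
    rintro _ ⟨x, hx, y, hy, rfl⟩
    rw [h4, mem_fintype_sum] at hx hy
    obtain ⟨f, hf, hfx⟩ := hx
    obtain ⟨g, hg, hgy⟩ := hy
    show x - y ∈ (Finset.univ.sup U : Submodule ℝ (E n))
    rw [← hfx, ← hgy, ← Finset.sum_sub_distrib]
    apply Submodule.sum_mem
    intro i _
    have h8 : U i ≤ Finset.univ.sup U := Finset.le_sup (Finset.mem_univ i)
    apply h8
    show f i - g i ∈ (affineSpan ℝ (Ks i)).direction
    exact AffineSubspace.vsub_mem_direction (subset_affineSpan ℝ _ (hf i))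
      (subset_affineSpan ℝ _ (hg i))
  have hn : n ≤ ∑ i, Module.finrank ℝ (U i) := by
    have h6 := Submodule.finrank_mono htop
    rw [finrank_top, finrank_euclideanSpace, Fintype.card_fin] at h6
    exact h6.trans (i_finrank_sup _ _)
  have hle : ∀ i, Module.finrank ℝ (U i) ≤ Module.finrank ℝ (V i) := fun i =>
    Submodule.finrank_mono (hUV i)
  have hsum : ∑ i, Module.finrank ℝ (U i) = ∑ i, Module.finrank ℝ (V i) :=
    le_antisymm (Finset.sum_le_sum fun i _ => hle i) (h3.trans hn)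
  have heq : ∀ i, Module.finrank ℝ (U i) = Module.finrank ℝ (V i) := fun i =>
    (Finset.sum_eq_sum_iff_of_le (fun i _ => hle i)).1 hsum i (Finset.mem_univ i)
  refine ⟨m, Ks, fun i => r i • Ks i, ?_, ?_, h4, h5, fun i => ⟨r i, hr i, rfl⟩⟩
  · intro i
    refine ⟨(h1 i).1, (h1 i).2.1, (h1 i).2.2.1, ?_⟩
    have := h2 i
    rw [← heq i] at this
    exact this
  · apply le_antisymm
    · exact (Finset.sum_le_sum fun i _ => hle i).trans h3
    · exact hn

/-- ROW I1: linear invariance. -/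
theorem decN_lin {n : ℕ} (P : E n ≃L[ℝ] E n) {K C : Set (E n)} (h : DecN (P '' K) (P '' C)) :
    DecN K C := by
  obtain ⟨m, Ks, Cs, h1, h2, h3, h4, h5⟩ := h
  have hd : ∀ i, Module.finrank ℝ (affineSpan ℝ (P.symm '' Ks i)).direction =
      Module.finrank ℝ (affineSpan ℝ (Ks i)).direction := by
    intro i
    rw [direction_affineSpan, direction_affineSpan]
    have h6 := AffineMap.map_vectorSpan (k := ℝ) (P.symm.toLinearMap.toAffineMap) (s := Ks i)
    have h7 : ((P.symm.toLinearMap.toAffineMap : E n →ᵃ[ℝ] E n) '' Ks i) = P.symm '' Ks i := rfl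
    rw [h7] at h6
    rw [← h6]
    exact LinearEquiv.finrank_map_eq P.symm.toLinearEquiv (vectorSpan ℝ (Ks i))
  have hK : K = ∑ i, P.symm '' Ks i := by
    have h6 : P.symm '' (P '' K) = K := by
      rw [image_image]
      simp
    rw [← h6, h3]
    exact image_finsetSum P.symm Finset.univ Ks
  have hC : C = ∑ i, P.symm '' Cs i := by
    have h6 : P.symm '' (P '' C) = C := by
      rw [image_image]
      simp
    rw [← h6, h4]
    exact image_finsetSum P.symm Finset.univ Cs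
  refine ⟨m, fun i => P.symm '' Ks i, fun i => P.symm '' Cs i, ?_, ?_, hK, hC, ?_⟩
  · intro i
    obtain ⟨a1, a2, a3, a4⟩ := h1 i
    refine ⟨a1.linear_image P.symm.toLinearMap, a2.image P.symm.continuous, a3.image _, ?_⟩
    rw [hd i]
    exact a4
  · exact (Finset.sum_congr rfl fun i _ => hd i).trans h2
  · intro i
    obtain ⟨r, hr, h6⟩ := h5 i
    refine ⟨r, hr, ?_⟩
    show P.symm '' Cs i = r • (P.symm '' Ks i)
    rw [h6]
    exact image_smul_comm P.symm r (Ks i) (fun b => map_smul P.symm r b)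

end Pool.Agent.Lib.MP_1dedaf_gt.EQ

end

section

/-!
# MP_1dedaf_gt, EG: the equality cases in all dimensions, definitions
-/


open MeasureTheory Set Filter Topology
open scoped ENNReal NNReal Pointwise

namespace Pool.Agent.Lib.MP_1dedaf_gt.EG

open Pool.Agent.Lib.MP_1dedaf_gt.SC

/-- A body with a mirror and height `m`. -/
structure Mir {n : ℕ} (X : Set (E (n + 1))) (m : ℝ) : Prop where
  conv : Convex ℝ X
  comp : IsCompact X
  mir : ∀ (x : E n) (z : ℝ), SC.ext x z ∈ X → SC.ext x (-z) ∈ X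
  pos : 0 < m
  top : SC.ext (0 : E n) m ∈ X
  le : ∀ (x : E n) (z : ℝ), SC.ext x z ∈ X → z ≤ m
  vol : volume X ≠ 0

/-- A finite family of commuting projections, indexed by positive ratios. -/
structure Fam {n : ℕ} (Λ : Finset ℝ) (π : ℝ → (E n →L[ℝ] E n)) : Prop where
  pos : ∀ r ∈ Λ, 0 < r
  one : ∀ x, ∑ r ∈ Λ, π r x = x
  ort : ∀ r ∈ Λ, ∀ s ∈ Λ, r ≠ s → ∀ x, π r (π s x) = 0
  nz : ∀ r ∈ Λ, π r ≠ 0
  out : ∀ r, r ∉ Λ → π r = 0

/-- The linear map with the ratios. -/
noncomputable def op {n : ℕ} (Λ : Finset ℝ) (π : ℝ → (E n →L[ℝ] E n)) : E n →L[ℝ] E n :=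
  ∑ r ∈ Λ, r • π r

/-- `B` is the image of `A`, and `A` is the sum of its projections. -/
structure Str {n : ℕ} (A B : Set (E n)) (Λ : Finset ℝ) (π : ℝ → (E n →L[ℝ] E n)) : Prop where
  fam : Fam Λ π
  clo : ∀ f : ℝ → E n, (∀ r ∈ Λ, f r ∈ A) → ∑ r ∈ Λ, π r (f r) ∈ A
  img : B = op Λ π '' A

/-- The projection onto the part with ratios `≠ ρ`. -/
noncomputable def Q {n : ℕ} (ρ : ℝ) (Λ : Finset ℝ) (π : ℝ → (E n →L[ℝ] E n)) : E n →L[ℝ] E n :=
  ∑ r ∈ Λ.erase ρ, π r

/-- The adjoint. -/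
noncomputable abbrev ad {n : ℕ} (T : E n →L[ℝ] E n) : E n →L[ℝ] E n :=
  ContinuousLinearMap.adjoint T

/-- The situation of an equality pair: `a` is the height of `K`, `ρ a` the height of `C`. -/
structure EqS {n : ℕ} (t : ℝ) (K C : Set (E (n + 1))) (a ρ : ℝ) : Prop where
  t0 : 0 < t
  t1 : t < 1
  a0 : 0 < a
  r0 : 0 < ρ
  mK : Mir K a
  mC : Mir C (ρ * a)
  iK : ∀ z, 0 ≤ z → z < a → (0 : E n) ∈ interior (slice K z)
  iC : ∀ z, 0 ≤ z → z < a → (0 : E n) ∈ interior (slice C (ρ * z))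
  sl : ∀ z, 0 < z → z < a →
    slice (logC t K C) (ρ ^ t * z) = logC t (slice K z) (slice C (ρ * z))
  nest : ∀ z z', 0 < z → z ≤ z' → z' < a →
    slice (logC t K C) (ρ ^ t * z') ⊆ slice (logC t K C) (ρ ^ t * z)
  str : ∀ z, 0 < z → z < a → ∃ Λ π, Str (slice K z) (slice C (ρ * z)) Λ π

/-- The equality cases for the class with `k` mirrors. -/
def EqC (k : ℕ) : Prop := ∀ t : ℝ, 0 < t → t < 1 → ∀ K C : Set (E (2 + k)), Good k K → Good k C →
  volume K ≠ 0 → volume C ≠ 0 → volume (logC t K C) = volume K ^ (1 - t) * volume C ^ t →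
  ∃ Λ π, Str K C Λ π

end Pool.Agent.Lib.MP_1dedaf_gt.EG

end

section

/-!
# MP_1dedaf_gt, EG: basic lemmas
-/


open MeasureTheory Set Filter Topology
open scoped ENNReal NNReal Pointwise

namespace Pool.Agent.Lib.MP_1dedaf_gt.EG

open Pool.Agent.Lib.MP_1dedaf_gt.SC

section Mir

variable {n : ℕ} {X : Set (E (n + 1))} {m : ℝ}

lemma Mir.mono (h : Mir X m) {z z' : ℝ} (hz : |z| ≤ z') : slice X z' ⊆ slice X z := by
  intro x hx
  have h1 : SC.ext x z' ∈ X := hx
  have h2 := h.mir x z' h1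
  obtain ⟨h3, h4⟩ := abs_le.1 hz
  rcases eq_or_lt_of_le ((abs_nonneg z).trans hz) with h0 | h0
  · have : z = z' := by linarith
    rw [this]
    exact hx
  · have h5 := h.conv h1 h2 (a := (z + z') / (2 * z')) (b := (z' - z) / (2 * z'))
      (by apply div_nonneg <;> linarith) (by apply div_nonneg <;> linarith) (by field_simp; ring)
    rw [ext_comb, ← add_smul] at h5
    have e1 : (z + z') / (2 * z') + (z' - z) / (2 * z') = 1 := by field_simp; ring
    have e2 : (z + z') / (2 * z') * z' + (z' - z) / (2 * z') * -z' = z := by field_simp; ring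
    rw [e1, one_smul, e2] at h5
    exact h5

lemma Mir.zero_mem (h : Mir X m) {w : ℝ} (hw : |w| ≤ m) : (0 : E n) ∈ slice X w :=
  h.mono hw h.top

lemma Mir.abs_le (h : Mir X m) {x : E n} {z : ℝ} (hx : x ∈ slice X z) : |z| ≤ m := by
  rw [_root_.abs_le]
  constructor
  · have := h.le x (-z) (h.mir x z hx)
    linarith
  · exact h.le x z hx

lemma Mir.dil (h : Mir X m) {x : E n} {z w l : ℝ} (hx : x ∈ slice X z) (hw : |w| ≤ m)
    (h0 : 0 ≤ l) (h1 : l ≤ 1) : (1 - l) • x ∈ slice X ((1 - l) * z + l * w) := by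
  have h2 : SC.ext (0 : E n) w ∈ X := h.zero_mem hw
  have h3 : SC.ext x z ∈ X := hx
  have h4 := h.conv h3 h2 (sub_nonneg.2 h1) h0 (by ring)
  rw [ext_comb, smul_zero, add_zero] at h4
  exact h4

lemma Mir.slice_comp (h : Mir X m) (z : ℝ) : IsCompact (slice X z) := slice_compact h.comp z

lemma Mir.slice_conv (h : Mir X m) (z : ℝ) : Convex ℝ (slice X z) := slice_convex h.conv z

end Mir

end Pool.Agent.Lib.MP_1dedaf_gt.EG

end

section

/-!
# MP_1dedaf_gt, EG: row 1, algebra of families of projections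
-/


open MeasureTheory Set Filter Topology
open scoped ENNReal NNReal Pointwise

namespace Pool.Agent.Lib.MP_1dedaf_gt.EG

open Pool.Agent.Lib.MP_1dedaf_gt.SC

/-- ROW 1: algebra. -/
theorem Fam.idem {n : ℕ} {Λ : Finset ℝ} {π : ℝ → (E n →L[ℝ] E n)} (h : Fam Λ π) {r : ℝ}
    (hr : r ∈ Λ) (x : E n) : π r (π r x) = π r x := by
  have h1 := h.one (π r x)
  rwa [Finset.sum_eq_single_of_mem r hr fun s hs hsr => h.ort s hs r hr hsr x] at h1

theorem Fam.eq_of_mul {n : ℕ} {Λ Λ' : Finset ℝ} {π π' : ℝ → (E n →L[ℝ] E n)} (h : Fam Λ π)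
    (h' : Fam Λ' π') (hm : ∀ r ∈ Λ, ∀ r' ∈ Λ', r ≠ r' → ∀ x, π' r' (π r x) = 0) :
    Λ = Λ' ∧ π = π' := by
  -- `π r x` in terms of `π'`
  have h1 : ∀ r ∈ Λ, ∀ x, π' r (π r x) = π r x := by
    intro r hr x
    have h2 := h'.one (π r x)
    by_cases hr' : r ∈ Λ'
    · rwa [Finset.sum_eq_single_of_mem r hr' fun s hs hsr => hm r hr s hs hsr.symm x] at h2
    · rw [Finset.sum_eq_zero fun s hs => hm r hr s hs (fun hrs => hr' (hrs ▸ hs)) x] at h2
      rw [← h2, map_zero]
  have h3 : ∀ r ∈ Λ', ∀ x, π' r (π r x) = π' r x := by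
    intro r hr x
    have h2 := congrArg (π' r) (h.one x)
    rw [map_sum] at h2
    by_cases hr' : r ∈ Λ
    · rwa [Finset.sum_eq_single_of_mem r hr' fun s hs hsr => hm s hs r hr hsr x] at h2
    · rw [Finset.sum_eq_zero fun s hs => hm s hs r hr (fun hrs => hr' (hrs ▸ hs)) x] at h2
      rw [← h2, h.out r hr']
      simp
  have hΛ : Λ = Λ' := by
    refine Finset.Subset.antisymm (fun r hr => ?_) fun r hr => ?_
    · by_contra hr'
      refine h.nz r hr (ContinuousLinearMap.ext fun x => ?_)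
      have h4 := h1 r hr x
      rw [h'.out r hr'] at h4
      exact h4.symm
    · by_contra hr'
      refine h'.nz r hr (ContinuousLinearMap.ext fun x => ?_)
      have h4 := h3 r hr x
      rw [h.out r hr', ContinuousLinearMap.zero_apply, map_zero] at h4
      exact h4.symm
  refine ⟨hΛ, funext fun r => ?_⟩
  by_cases hr : r ∈ Λ
  · refine ContinuousLinearMap.ext fun x => ?_
    rw [← h1 r hr x, h3 r (hΛ ▸ hr) x]
  · rw [h.out r hr, h'.out r fun hr' => hr (hΛ ▸ hr')]

theorem r1_op_apply {n : ℕ} {Λ : Finset ℝ} {π : ℝ → (E n →L[ℝ] E n)} (x : E n) :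
    op Λ π x = ∑ r ∈ Λ, r • π r x := by
  unfold op
  rw [ContinuousLinearMap.sum_apply]
  rfl

theorem r1_op_pi {n : ℕ} {Λ : Finset ℝ} {π : ℝ → (E n →L[ℝ] E n)} (h : Fam Λ π) {r : ℝ}
    (hr : r ∈ Λ) (x : E n) : op Λ π (π r x) = r • π r x := by
  rw [r1_op_apply, Finset.sum_eq_single_of_mem r hr fun s hs hsr => by
    rw [h.ort s hs r hr hsr, smul_zero], h.idem hr]

theorem r1_pi_op {n : ℕ} {Λ : Finset ℝ} {π : ℝ → (E n →L[ℝ] E n)} (h : Fam Λ π) {r : ℝ}
    (hr : r ∈ Λ) (x : E n) : π r (op Λ π x) = r • π r x := by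
  rw [r1_op_apply, map_sum, Finset.sum_eq_single_of_mem r hr fun s hs hsr => by
    rw [map_smul, h.ort r hr s hs hsr.symm, smul_zero], map_smul, h.idem hr]

theorem Fam.eq_of_op {n : ℕ} {Λ Λ' : Finset ℝ} {π π' : ℝ → (E n →L[ℝ] E n)} (h : Fam Λ π)
    (h' : Fam Λ' π') (hm : op Λ π = op Λ' π') : Λ = Λ' ∧ π = π' := by
  refine h.eq_of_mul h' fun r hr r' hr' hne x => ?_
  have h1 := r1_pi_op h' hr' (π r x)
  rw [← hm, r1_op_pi h hr, map_smul] at h1
  have h2 : (r - r') • π' r' (π r x) = 0 := by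
    rw [sub_smul, h1, sub_self]
  exact (smul_eq_zero.1 h2).resolve_left (sub_ne_zero.2 hne)

end Pool.Agent.Lib.MP_1dedaf_gt.EG

end

section

/-!
# MP_1dedaf_gt, EG, row 2: support functions
-/


open MeasureTheory Set Filter Topology
open scoped ENNReal NNReal Pointwise

namespace Pool.Agent.Lib.MP_1dedaf_gt.EG

open Pool.Agent.Lib.MP_1dedaf_gt.SC

/-- ROW 2: support functions. -/
theorem Str.mem {n : ℕ} {A B : Set (E n)} {Λ : Finset ℝ} {π : ℝ → (E n →L[ℝ] E n)}
    (h : Str A B Λ π) (h0 : (0 : E n) ∈ A) {r : ℝ} (hr : r ∈ Λ) {x : E n} (hx : x ∈ A) :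
    π r x ∈ A := by
  have h1 := h.clo (fun s => if s = r then x else 0) fun s _ => by
    by_cases hs : s = r
    · simp only [hs, if_true]; exact hx
    · simp only [hs, if_false]; exact h0
  rw [Finset.sum_eq_single_of_mem r hr fun s _ hs => by simp only [hs, if_false, map_zero]] at h1
  simpa only [if_true] using h1

lemma r2_inner {n : ℕ} (T : E n →L[ℝ] E n) (y u : E n) :
    inner ℝ y (ad T u) = inner ℝ (T y) u :=
  ContinuousLinearMap.adjoint_inner_right T y u

theorem Str.suppA {n : ℕ} {A B : Set (E n)} {Λ : Finset ℝ} {π : ℝ → (E n →L[ℝ] E n)}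
    (h : Str A B Λ π) (hA : IsCompact A) (hne : A.Nonempty) (u : E n) :
    supp A u = ∑ r ∈ Λ, supp A (ad (π r) u) := by
  apply le_antisymm
  · obtain ⟨y, hy, hyu⟩ := supp_attained hA hne u
    rw [← hyu, ← h.fam.one y, sum_inner]
    refine Finset.sum_le_sum fun r _ => ?_
    rw [← r2_inner]
    exact le_supp hA _ hy
  · choose f hf hfu using fun r => supp_attained hA hne (ad (π r) u)
    have h1 := le_supp hA u (h.clo f fun r _ => hf r)
    rw [sum_inner] at h1
    refine le_trans (le_of_eq (Finset.sum_congr rfl fun r _ => ?_)) h1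
    rw [← hfu, r2_inner]

lemma r2_idem {n : ℕ} {Λ : Finset ℝ} {π : ℝ → (E n →L[ℝ] E n)} (h : Fam Λ π) {r : ℝ}
    (hr : r ∈ Λ) (x : E n) : π r (π r x) = π r x := by
  conv_rhs => rw [← h.one x, map_sum]
  rw [Finset.sum_eq_single_of_mem r hr fun s hs hsr => h.ort r hr s hs (Ne.symm hsr) x]

lemma r2_op {n : ℕ} (Λ : Finset ℝ) (π : ℝ → (E n →L[ℝ] E n)) (x : E n) :
    op Λ π x = ∑ r ∈ Λ, r • π r x := by
  unfold op
  simp only [FunLike.coe_sum, Finset.sum_apply, FunLike.coe_smul,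
    Pi.smul_apply]

theorem Str.suppB {n : ℕ} {A B : Set (E n)} {Λ : Finset ℝ} {π : ℝ → (E n →L[ℝ] E n)}
    (h : Str A B Λ π) (hA : IsCompact A) (hne : A.Nonempty) (u : E n) :
    supp B u = ∑ r ∈ Λ, r * supp A (ad (π r) u) := by
  have hB : IsCompact B := by
    rw [h.img]
    exact hA.image (op Λ π).continuous
  have hBne : B.Nonempty := by
    rw [h.img]
    exact hne.image _
  apply le_antisymm
  · obtain ⟨z, hz, hzu⟩ := supp_attained hB hBne u
    rw [h.img] at hz
    obtain ⟨y, hy, rfl⟩ := hz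
    rw [← hzu, r2_op, sum_inner]
    refine Finset.sum_le_sum fun r hr => ?_
    rw [real_inner_smul_left, ← r2_inner]
    exact mul_le_mul_of_nonneg_left (le_supp hA _ hy) (h.fam.pos r hr).le
  · choose f hf hfu using fun r => supp_attained hA hne (ad (π r) u)
    have h1 : op Λ π (∑ r ∈ Λ, π r (f r)) ∈ B := by
      rw [h.img]
      exact mem_image_of_mem _ (h.clo f fun r _ => hf r)
    have h2 := le_supp hB u h1
    rw [r2_op, sum_inner] at h2
    refine le_trans (le_of_eq (Finset.sum_congr rfl fun r hr => ?_)) h2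
    rw [real_inner_smul_left, ← hfu, r2_inner, map_sum,
      Finset.sum_eq_single_of_mem r hr fun s hs hsr => h.fam.ort r hr s hs (Ne.symm hsr) _,
      r2_idem h.fam hr]

end Pool.Agent.Lib.MP_1dedaf_gt.EG

end

section

/-!
# MP_1dedaf_gt, EG, row 3: inequalities
-/


open MeasureTheory Set Filter Topology
open scoped ENNReal NNReal Pointwise

namespace Pool.Agent.Lib.MP_1dedaf_gt.EG

open Pool.Agent.Lib.MP_1dedaf_gt.SC

lemma r3_tan_lt {t : ℝ} (ht0 : 0 < t) (ht1 : t < 1) {r R : ℝ} (hr : 0 < r) (hR : 0 < R)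
    (hne : r ≠ R) : r ^ t < R ^ t + t * (R ^ t / R) * (r - R) := by
  have hs : (-1 : ℝ) ≤ r / R - 1 := by
    have : 0 < r / R := div_pos hr hR
    linarith
  have hs' : r / R - 1 ≠ 0 := by
    intro h
    apply hne
    have h1 : r / R = 1 := by linarith
    rwa [div_eq_one_iff_eq hR.ne'] at h1
  have h1 := rpow_one_add_lt_one_add_mul_self hs hs' ht0 ht1
  rw [add_sub_cancel] at h1
  have h2 : r ^ t = R ^ t * (r / R) ^ t := by
    rw [← Real.mul_rpow hR.le (div_pos hr hR).le, mul_div_cancel₀ _ hR.ne']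
  have h3 : 0 < R ^ t := Real.rpow_pos_of_pos hR t
  rw [h2]
  calc R ^ t * (r / R) ^ t < R ^ t * (1 + t * (r / R - 1)) := mul_lt_mul_of_pos_left h1 h3
    _ = R ^ t + t * (R ^ t / R) * (r - R) := by
      field_simp

lemma r3_tan_le {t : ℝ} (ht0 : 0 < t) (ht1 : t < 1) {r R : ℝ} (hr : 0 < r) (hR : 0 < R) :
    r ^ t ≤ R ^ t + t * (R ^ t / R) * (r - R) := by
  rcases eq_or_ne r R with h | h
  · rw [h, sub_self, mul_zero, add_zero]
  · exact (r3_tan_lt ht0 ht1 hr hR h).le

lemma r3_sum {t : ℝ} (Λ : Finset ℝ) (h : ℝ → ℝ) {R : ℝ}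
    (h1 : ∑ r ∈ Λ, r * h r = R * ∑ r ∈ Λ, h r) :
    ∑ r ∈ Λ, (R ^ t + t * (R ^ t / R) * (r - R)) * h r = R ^ t * ∑ r ∈ Λ, h r := by
  have e : ∀ r ∈ Λ, (R ^ t + t * (R ^ t / R) * (r - R)) * h r =
      R ^ t * h r + t * (R ^ t / R) * (r * h r) - t * (R ^ t / R) * R * h r := by
    intro r _
    ring
  rw [Finset.sum_congr rfl e, Finset.sum_sub_distrib, Finset.sum_add_distrib, ← Finset.mul_sum,
    ← Finset.mul_sum, ← Finset.mul_sum, h1]
  ring

/-- ROW 3: Hoelder. -/
theorem holder_sum {t : ℝ} (ht0 : 0 < t) (ht1 : t < 1) (Λ : Finset ℝ) (h : ℝ → ℝ)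
    (hp : ∀ r ∈ Λ, 0 < r) (h0 : ∀ r ∈ Λ, 0 ≤ h r) :
    ∑ r ∈ Λ, r ^ t * h r ≤ (∑ r ∈ Λ, h r) ^ (1 - t) * (∑ r ∈ Λ, r * h r) ^ t := by
  rcases eq_or_lt_of_le (Finset.sum_nonneg h0) with h1 | h1
  · have h2 : ∀ r ∈ Λ, h r = 0 := (Finset.sum_eq_zero_iff_of_nonneg h0).1 h1.symm
    have h3 : ∑ r ∈ Λ, r ^ t * h r = 0 := Finset.sum_eq_zero fun r hr => by
      rw [h2 r hr, mul_zero]
    rw [h3]
    apply mul_nonneg
    · exact Real.rpow_nonneg (Finset.sum_nonneg h0) _
    · exact Real.rpow_nonneg (Finset.sum_nonneg fun r hr => mul_nonneg (hp r hr).le (h0 r hr)) _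
  · have h2 : 0 < ∑ r ∈ Λ, r * h r := by
      obtain ⟨r, hr, hr'⟩ : ∃ r ∈ Λ, 0 < h r := by
        by_contra hc
        push Not at hc
        exact absurd (Finset.sum_nonpos hc) (not_le.2 h1)
      exact Finset.sum_pos' (fun r hr => mul_nonneg (hp r hr).le (h0 r hr))
        ⟨r, hr, mul_pos (hp r hr) hr'⟩
    set S := ∑ r ∈ Λ, h r with hS
    set T := ∑ r ∈ Λ, r * h r with hT
    have hR : 0 < T / S := div_pos h2 h1
    have e1 : T = T / S * S := by field_simp
    have h4 := r3_sum (t := t) Λ h (R := T / S) (by rw [← hS, ← hT]; exact e1)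
    have h5 : ∑ r ∈ Λ, r ^ t * h r ≤ (T / S) ^ t * S := by
      rw [← h4]
      exact Finset.sum_le_sum fun r hr =>
        mul_le_mul_of_nonneg_right (r3_tan_le ht0 ht1 (hp r hr) hR) (h0 r hr)
    have e2 : S ^ (1 - t) * T ^ t = (T / S) ^ t * S := by
      rw [Real.div_rpow h2.le h1.le, Real.rpow_sub h1, Real.rpow_one]
      have : 0 < S ^ t := Real.rpow_pos_of_pos h1 t
      field_simp
    rw [e2]
    exact h5

/-- ROW 3: the equality case. -/
theorem rigid {t : ℝ} (ht0 : 0 < t) (ht1 : t < 1) (Λ : Finset ℝ) (h : ℝ → ℝ)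
    (hp : ∀ r ∈ Λ, 0 < r) (h0 : ∀ r ∈ Λ, 0 ≤ h r) {R : ℝ} (hR : 0 < R)
    (h1 : ∑ r ∈ Λ, r * h r = R * ∑ r ∈ Λ, h r) (h2 : R ^ t * ∑ r ∈ Λ, h r ≤ ∑ r ∈ Λ, r ^ t * h r) :
    ∀ r ∈ Λ, r ≠ R → h r = 0 := by
  intro r hr hne
  by_contra hc
  have h3 : 0 < h r := lt_of_le_of_ne (h0 r hr) (Ne.symm hc)
  have h4 : ∑ r ∈ Λ, r ^ t * h r < ∑ r ∈ Λ, (R ^ t + t * (R ^ t / R) * (r - R)) * h r := by
    apply Finset.sum_lt_sum
    · intro s hs
      exact mul_le_mul_of_nonneg_right (r3_tan_le ht0 ht1 (hp s hs) hR) (h0 s hs)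
    · exact ⟨r, hr, mul_lt_mul_of_pos_right (r3_tan_lt ht0 ht1 (hp r hr) hR hne) h3⟩
  rw [r3_sum Λ h h1] at h4
  exact absurd h4 (not_lt.2 h2)

end Pool.Agent.Lib.MP_1dedaf_gt.EG

end

section

/-!
# MP_1dedaf_gt, EG, rows 4, 5, 5b: the combination, rigidity, uniqueness
-/


open MeasureTheory Set Filter Topology
open scoped ENNReal NNReal Pointwise

namespace Pool.Agent.Lib.MP_1dedaf_gt.EG

open Pool.Agent.Lib.MP_1dedaf_gt.SC

lemma r4_supp_zero {n : ℕ} {A : Set (E n)} (hne : A.Nonempty) : supp A 0 = 0 := by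
  unfold supp
  have h1 : (fun y : E n => (inner ℝ y (0 : E n) : ℝ)) '' A = {0} := by
    ext z
    constructor
    · rintro ⟨y, _, rfl⟩
      simp
    · intro hz
      obtain ⟨y, hy⟩ := hne
      rw [mem_singleton_iff] at hz
      exact ⟨y, hy, by rw [hz]; exact inner_zero_right y⟩
  rw [h1, csSup_singleton]

lemma r4_inner {n : ℕ} (T : E n →L[ℝ] E n) (x u : E n) :
    inner ℝ x (ad T u) = inner ℝ (T x) u :=
  ContinuousLinearMap.adjoint_inner_right T x u

lemma r4_ad {n : ℕ} {Λ : Finset ℝ} {π : ℝ → (E n →L[ℝ] E n)} (h : Fam Λ π) {r s : ℝ}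
    (hr : r ∈ Λ) (hs : s ∈ Λ) (u : E n) :
    ad (π s) (ad (π r) u) = if s = r then ad (π r) u else 0 := by
  apply ext_inner_left ℝ
  intro x
  rw [r4_inner, r4_inner]
  split_ifs with h1
  · rw [h1, h.idem hr, r4_inner]
  · rw [h.ort r hr s hs (fun h2 => h1 h2.symm), inner_zero_left, inner_zero_right]

lemma r4_B {n : ℕ} {A B : Set (E n)} {Λ : Finset ℝ} {π : ℝ → (E n →L[ℝ] E n)}
    (h : Str A B Λ π) (hA : IsCompact A) (hne : A.Nonempty) {r : ℝ} (hr : r ∈ Λ) (u : E n) :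
    supp B (ad (π r) u) = r * supp A (ad (π r) u) := by
  rw [h.suppB hA hne, Finset.sum_eq_single_of_mem r hr]
  · rw [r4_ad h.fam hr hr, if_pos rfl]
  · intro s hs hsr
    rw [r4_ad h.fam hr hs, if_neg hsr, r4_supp_zero hne, mul_zero]

lemma r4_compB {n : ℕ} {A B : Set (E n)} {Λ : Finset ℝ} {π : ℝ → (E n →L[ℝ] E n)}
    (h : Str A B Λ π) (hA : IsCompact A) : IsCompact B := by
  rw [h.img]
  exact hA.image (op Λ π).continuous

lemma r4_zeroB {n : ℕ} {A B : Set (E n)} {Λ : Finset ℝ} {π : ℝ → (E n →L[ℝ] E n)}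
    (h : Str A B Λ π) (h0 : (0 : E n) ∈ A) : (0 : E n) ∈ B := by
  rw [h.img]
  exact ⟨0, h0, map_zero _⟩

lemma r4_pow {t : ℝ} (ht0 : 0 < t) {a r : ℝ} (ha : 0 ≤ a) (hr : 0 < r) :
    a ^ (1 - t) * (r * a) ^ t = r ^ t * a := by
  rcases eq_or_lt_of_le ha with h0 | h0
  · rw [← h0, mul_zero, mul_zero, Real.zero_rpow ht0.ne', mul_zero]
  · rw [Real.mul_rpow hr.le ha]
    have h1 : a ^ (1 - t) * a ^ t = a := by
      rw [← Real.rpow_add h0]
      simp
    calc a ^ (1 - t) * (r ^ t * a ^ t) = r ^ t * (a ^ (1 - t) * a ^ t) := by ring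
      _ = _ := by rw [h1]

/-- ROW 4: the combination (uses rows 2, 3). -/
theorem Str.up {n : ℕ} {t : ℝ} (ht0 : 0 < t) (ht1 : t < 1) {A B : Set (E n)} {Λ : Finset ℝ}
    {π : ℝ → (E n →L[ℝ] E n)} (h : Str A B Λ π) (hA : IsCompact A) (h0 : (0 : E n) ∈ A) {x : E n}
    (hx : x ∈ logC t A B) (u : E n) : inner ℝ x u ≤ ∑ r ∈ Λ, r ^ t * supp A (ad (π r) u) := by
  have e1 : inner ℝ x u = ∑ r ∈ Λ, inner ℝ x (ad (π r) u) := by
    conv_lhs => rw [← h.fam.one x]
    rw [sum_inner]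
    apply Finset.sum_congr rfl
    intro r _
    rw [r4_inner]
  rw [e1]
  apply Finset.sum_le_sum
  intro r hr
  have h1 := logC_all hA (r4_compB h hA) h0 (r4_zeroB h h0) hx (ad (π r) u)
  rw [r4_B h hA ⟨0, h0⟩ hr, r4_pow ht0 (supp_nonneg hA h0 _) (h.fam.pos r hr)] at h1
  exact h1

theorem Str.low {n : ℕ} {t : ℝ} (ht0 : 0 < t) (ht1 : t < 1) {A B : Set (E n)} {Λ : Finset ℝ}
    {π : ℝ → (E n →L[ℝ] E n)} (h : Str A B Λ π) (hA : IsCompact A) (h0 : (0 : E n) ∈ A) {r : ℝ}
    (hr : r ∈ Λ) {x : E n} (hx : x ∈ A) : r ^ t • π r x ∈ logC t A B := by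
  intro u _
  rw [real_inner_smul_left, ← r4_inner]
  have hp : ∀ s ∈ Λ, 0 ≤ s ^ t * supp A (ad (π s) u) := fun s hs =>
    mul_nonneg (Real.rpow_nonneg (h.fam.pos s hs).le _) (supp_nonneg hA h0 _)
  calc r ^ t * inner ℝ x (ad (π r) u) ≤ r ^ t * supp A (ad (π r) u) :=
        mul_le_mul_of_nonneg_left (le_supp hA _ hx) (Real.rpow_nonneg (h.fam.pos r hr).le _)
    _ ≤ ∑ s ∈ Λ, s ^ t * supp A (ad (π s) u) :=
        Finset.single_le_sum (f := fun s => s ^ t * supp A (ad (π s) u)) hp hr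
    _ ≤ (∑ s ∈ Λ, supp A (ad (π s) u)) ^ (1 - t) * (∑ s ∈ Λ, s * supp A (ad (π s) u)) ^ t :=
        holder_sum ht0 ht1 Λ _ h.fam.pos fun s _ => supp_nonneg hA h0 _
    _ = _ := by rw [← h.suppA hA ⟨0, h0⟩, ← h.suppB hA ⟨0, h0⟩]

lemma r4_pos {n : ℕ} {A : Set (E n)} (hA : IsCompact A) (h0 : (0 : E n) ∈ interior A) {u : E n}
    (hu : u ≠ 0) : 0 < supp A u := by
  have h1 : Tendsto (fun e : ℝ => e • u) (𝓝[>] 0) (𝓝 0) := by
    have h2 : Tendsto (fun e : ℝ => e • u) (𝓝 0) (𝓝 ((0 : ℝ) • u)) :=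
      (continuous_id.smul continuous_const).tendsto 0
    rw [zero_smul] at h2
    exact h2.mono_left nhdsWithin_le_nhds
  have h3 := h1.eventually (isOpen_interior.mem_nhds h0)
  obtain ⟨e, he1, he2⟩ := (h3.and self_mem_nhdsWithin).exists
  have he2' : 0 < e := he2
  have h4 := le_supp hA u (interior_subset he1)
  rw [real_inner_smul_left, real_inner_self_eq_norm_sq] at h4
  have h5 : 0 < ‖u‖ := norm_pos_iff.2 hu
  have h6 : 0 < e * ‖u‖ ^ 2 := by positivity
  linarith

/-- ROW 5 (uses 2, 3, 4): rigidity. -/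
theorem Str.rel {n : ℕ} {t : ℝ} (ht0 : 0 < t) (ht1 : t < 1) {A B : Set (E n)} {Λ : Finset ℝ}
    {π : ℝ → (E n →L[ℝ] E n)} (h : Str A B Λ π) (hA : IsCompact A)
    (hi : (0 : E n) ∈ interior A) {u : E n} {R : ℝ} (hR : 0 < R) (h1 : supp B u = R * supp A u)
    {x : E n} (hx : x ∈ logC t A B) (h2 : R ^ t * supp A u ≤ inner ℝ x u) :
    ∀ r ∈ Λ, r ≠ R → ad (π r) u = 0 := by
  have h0 : (0 : E n) ∈ A := interior_subset hi
  have h3 := h.up ht0 ht1 hA h0 hx u
  have h4 := rigid ht0 ht1 Λ (fun r => supp A (ad (π r) u)) h.fam.pos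
    (fun r _ => supp_nonneg hA h0 _) hR
    (by rw [← h.suppA hA ⟨0, h0⟩, ← h.suppB hA ⟨0, h0⟩, h1])
    (by rw [← h.suppA hA ⟨0, h0⟩]; exact h2.trans h3)
  intro r hr hne
  by_contra hne0
  exact (r4_pos hA hi hne0).ne' (h4 r hr hne)

/-- ROW 5b (uses rel, low, eq_of_mul): uniqueness. -/
theorem Str.uniq {n : ℕ} {t : ℝ} (ht0 : 0 < t) (ht1 : t < 1) {A B : Set (E n)} {Λ Λ' : Finset ℝ}
    {π π' : ℝ → (E n →L[ℝ] E n)} (hA : IsCompact A) (hi : (0 : E n) ∈ interior A)
    (h : Str A B Λ π) (h' : Str A B Λ' π') : Λ = Λ' ∧ π = π' := by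
  have h0 : (0 : E n) ∈ A := interior_subset hi
  apply h.fam.eq_of_mul h'.fam
  intro r hr r' hr' hne x
  apply ext_inner_right ℝ
  intro w
  rw [inner_zero_left, ← r4_inner, ← r4_inner]
  obtain ⟨y, hy, hyu⟩ := supp_attained hA ⟨0, h0⟩ (ad (π' r') w)
  have h1 := h.rel ht0 ht1 hA hi (h'.fam.pos r' hr') (r4_B h' hA ⟨0, h0⟩ hr' w)
    (h'.low ht0 ht1 hA h0 hr' hy) (by
      rw [real_inner_smul_left, ← r4_inner, r4_ad h'.fam hr' hr', if_pos rfl, hyu])
  rw [h1 r hr hne, inner_zero_right]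

end Pool.Agent.Lib.MP_1dedaf_gt.EG

end

section

/-!
# MP_1dedaf_gt, EG: row 9, linear algebra of the projection onto the part with ratios `≠ ρ`
-/


open MeasureTheory Set Filter Topology
open scoped ENNReal NNReal Pointwise

namespace Pool.Agent.Lib.MP_1dedaf_gt.EG

open Pool.Agent.Lib.MP_1dedaf_gt.SC

lemma r9_proj {n : ℕ} {Λ : Finset ℝ} {π : ℝ → (E n →L[ℝ] E n)} (h : Fam Λ π) {r : ℝ}
    (hr : r ∈ Λ) (x : E n) : π r (π r x) = π r x := by
  have h1 := congrArg (π r) (h.one x)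
  rw [map_sum] at h1
  rw [← Finset.add_sum_erase _ _ hr] at h1
  rw [Finset.sum_eq_zero (s := Λ.erase r)] at h1
  · rw [add_zero] at h1
    exact h1
  · intro s hs
    exact h.ort r hr s (Finset.mem_of_mem_erase hs) (Finset.ne_of_mem_erase hs).symm x

lemma r9_Q_apply {n : ℕ} {ρ : ℝ} {Λ : Finset ℝ} {π : ℝ → (E n →L[ℝ] E n)} (x : E n) :
    Q ρ Λ π x = ∑ r ∈ Λ.erase ρ, π r x := by
  unfold Q
  rw [ContinuousLinearMap.sum_apply]

lemma r9_op_apply {n : ℕ} {Λ : Finset ℝ} {π : ℝ → (E n →L[ℝ] E n)} (x : E n) :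
    op Λ π x = ∑ r ∈ Λ, r • π r x := by
  unfold op
  rw [ContinuousLinearMap.sum_apply]
  rfl

/-- The complement of `Q` is the projection with ratio `ρ`. -/
lemma r9_Q_add {n : ℕ} {ρ : ℝ} {Λ : Finset ℝ} {π : ℝ → (E n →L[ℝ] E n)} (h : Fam Λ π) (x : E n) :
    Q ρ Λ π x + π ρ x = x := by
  rw [r9_Q_apply]
  by_cases hρ : ρ ∈ Λ
  · rw [Finset.sum_erase_add _ _ hρ]
    exact h.one x
  · rw [Finset.erase_eq_of_notMem hρ, h.one x, h.out ρ hρ]
    simp

lemma r9_mul_rho {n : ℕ} {ρ : ℝ} {Λ Λ' : Finset ℝ} {π π' : ℝ → (E n →L[ℝ] E n)} (h : Fam Λ π)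
    (hm : ∀ r ∈ Λ, ∀ r' ∈ Λ', r' ≠ ρ → r ≠ r' → ∀ x, π' r' (π r x) = 0) (x : E n) :
    Q ρ Λ' π' (π ρ x) = 0 := by
  rw [r9_Q_apply]
  apply Finset.sum_eq_zero
  intro r' hr'
  by_cases hρ : ρ ∈ Λ
  · exact hm ρ hρ r' (Finset.mem_of_mem_erase hr') (Finset.ne_of_mem_erase hr')
      (Finset.ne_of_mem_erase hr').symm x
  · rw [h.out ρ hρ]
    simp

/-- ROW 9: linear algebra of `Q`. -/
theorem q_mul {n : ℕ} {ρ : ℝ} {Λ Λ' : Finset ℝ} {π π' : ℝ → (E n →L[ℝ] E n)} (h : Fam Λ π)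
    (h' : Fam Λ' π')
    (hm : ∀ r ∈ Λ, ∀ r' ∈ Λ', r' ≠ ρ → r ≠ r' → ∀ x, π' r' (π r x) = 0) (x : E n) :
    Q ρ Λ' π' (Q ρ Λ π x) = Q ρ Λ' π' x := by
  have _h := h'
  have h1 := congrArg (Q ρ Λ' π') (r9_Q_add (ρ := ρ) h x)
  rw [map_add, r9_mul_rho h hm, add_zero] at h1
  exact h1

theorem q_idem {n : ℕ} {ρ : ℝ} {Λ : Finset ℝ} {π : ℝ → (E n →L[ℝ] E n)} (h : Fam Λ π) (x : E n) :
    Q ρ Λ π (Q ρ Λ π x) = Q ρ Λ π x :=
  q_mul h h (fun r hr r' hr' _ hne x => h.ort r' hr' r hr hne.symm x) x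

theorem q_rank {n : ℕ} {S T : E n →L[ℝ] E n} (h : ∀ x, T (S x) = T x) :
    Module.finrank ℝ (LinearMap.range (T : E n →ₗ[ℝ] E n)) ≤
      Module.finrank ℝ (LinearMap.range (S : E n →ₗ[ℝ] E n)) := by
  have h1 : LinearMap.range (T : E n →ₗ[ℝ] E n) =
      (LinearMap.range (S : E n →ₗ[ℝ] E n)).map (T : E n →ₗ[ℝ] E n) := by
    ext y
    constructor
    · rintro ⟨x, rfl⟩
      exact ⟨S x, ⟨x, rfl⟩, h x⟩
    · rintro ⟨_, ⟨x, rfl⟩, rfl⟩
      exact ⟨S x, rfl⟩
  rw [h1]
  exact Submodule.finrank_map_le _ _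

theorem q_back {n : ℕ} {S T : E n →L[ℝ] E n} (hT : ∀ x, T (T x) = T x)
    (h : ∀ x, T (S x) = T x)
    (hr : Module.finrank ℝ (LinearMap.range (T : E n →ₗ[ℝ] E n)) =
      Module.finrank ℝ (LinearMap.range (S : E n →ₗ[ℝ] E n))) (x : E n) : S (T x) = S x := by
  have hle : LinearMap.ker (S : E n →ₗ[ℝ] E n) ≤ LinearMap.ker (T : E n →ₗ[ℝ] E n) := by
    intro y hy
    have hy' : S y = 0 := hy
    show T y = 0
    rw [← h y, hy', map_zero]
  have e1 := LinearMap.finrank_range_add_finrank_ker (S : E n →ₗ[ℝ] E n)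
  have e2 := LinearMap.finrank_range_add_finrank_ker (T : E n →ₗ[ℝ] E n)
  have hk : Module.finrank ℝ (LinearMap.ker (T : E n →ₗ[ℝ] E n)) =
      Module.finrank ℝ (LinearMap.ker (S : E n →ₗ[ℝ] E n)) := by omega
  have heq : LinearMap.ker (S : E n →ₗ[ℝ] E n) = LinearMap.ker (T : E n →ₗ[ℝ] E n) :=
    Submodule.eq_of_le_of_finrank_eq hle hk.symm
  have h3 : T x - x ∈ LinearMap.ker (T : E n →ₗ[ℝ] E n) := by
    show T (T x - x) = 0
    rw [map_sub, hT, sub_self]
  rw [← heq] at h3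
  have h4 : S (T x - x) = 0 := h3
  rw [map_sub, sub_eq_zero] at h4
  exact h4

lemma r9_eq_of_mul {n : ℕ} {Λ Λ' : Finset ℝ} {π π' : ℝ → (E n →L[ℝ] E n)} (h : Fam Λ π)
    (h' : Fam Λ' π') (hm : ∀ r ∈ Λ, ∀ r' ∈ Λ', r ≠ r' → ∀ x, π' r' (π r x) = 0) :
    Λ = Λ' ∧ π = π' := by
  -- `π' r' = π' r' π r'` and `π r = π' r π r`
  have a1 : ∀ r' ∈ Λ', ∀ x, π' r' x = π' r' (π r' x) := by
    intro r' hr' x
    by_cases hr : r' ∈ Λ
    · have h1 := congrArg (π' r') (h.one x)
      rw [map_sum, ← Finset.add_sum_erase _ _ hr, Finset.sum_eq_zero (s := Λ.erase r'),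
        add_zero] at h1
      · exact h1.symm
      · intro s hs
        exact hm s (Finset.mem_of_mem_erase hs) r' hr' (Finset.ne_of_mem_erase hs) x
    · exfalso
      apply h'.nz r' hr'
      ext1 y
      have h1 := congrArg (π' r') (h.one y)
      rw [map_sum, Finset.sum_eq_zero] at h1
      · rw [← h1]
        rfl
      · intro s hs
        exact hm s hs r' hr' (fun e => hr (e ▸ hs)) y
  have a2 : ∀ r ∈ Λ, ∀ x, π r x = π' r (π r x) := by
    intro r hr x
    by_cases hr' : r ∈ Λ'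
    · have h1 := h'.one (π r x)
      rw [← Finset.add_sum_erase _ _ hr', Finset.sum_eq_zero (s := Λ'.erase r), add_zero] at h1
      · exact h1.symm
      · intro s hs
        exact hm r hr s (Finset.mem_of_mem_erase hs) (Finset.ne_of_mem_erase hs).symm x
    · exfalso
      apply h.nz r hr
      ext1 y
      have h1 := h'.one (π r y)
      rw [Finset.sum_eq_zero] at h1
      · rw [← h1]
        rfl
      · intro s hs
        exact hm r hr s hs (fun e => hr' (e ▸ hs)) y
  have b1 : Λ ⊆ Λ' := by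
    intro r hr
    by_contra hr'
    apply h.nz r hr
    ext1 y
    rw [a2 r hr y, h'.out r hr']
    rfl
  have b2 : Λ' ⊆ Λ := by
    intro r hr
    by_contra hr'
    apply h'.nz r hr
    ext1 y
    rw [a1 r hr y, h.out r hr']
    simp
  have b3 : Λ = Λ' := Finset.Subset.antisymm b1 b2
  refine ⟨b3, ?_⟩
  funext r
  by_cases hr : r ∈ Λ
  · ext1 x
    rw [a1 r (b1 hr) x, ← a2 r hr x]
  · rw [h.out r hr, h'.out r (fun e => hr (b2 e))]

/-- If `Q` is the same, the families are the same. -/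
theorem fam_of_q {n : ℕ} {ρ : ℝ} {Λ Λ' : Finset ℝ} {π π' : ℝ → (E n →L[ℝ] E n)} (h : Fam Λ π)
    (h' : Fam Λ' π')
    (hm : ∀ r ∈ Λ, ∀ r' ∈ Λ', r' ≠ ρ → r ≠ r' → ∀ x, π' r' (π r x) = 0)
    (hQ : Q ρ Λ π = Q ρ Λ' π') : Λ = Λ' ∧ π = π' := by
  have hρ : π ρ = π' ρ := by
    ext1 x
    have h1 := r9_Q_add (ρ := ρ) h x
    have h2 := r9_Q_add (ρ := ρ) h' x
    rw [← hQ] at h2
    exact add_left_cancel (h1.trans h2.symm)
  apply r9_eq_of_mul h h'
  intro r hr r' hr' hne x
  by_cases hr'ρ : r' = ρ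
  · subst hr'ρ
    rw [← hρ]
    by_cases hmem : r' ∈ Λ
    · exact h.ort r' hmem r hr hne.symm x
    · rw [h.out r' hmem]
      rfl
  · exact hm r hr r' hr' hr'ρ hne x

end Pool.Agent.Lib.MP_1dedaf_gt.EG

end

section

/-!
# MP_1dedaf_gt, EG, ROW 11: limits from the right and from the left
-/


open MeasureTheory Set Filter Topology
open scoped ENNReal NNReal Pointwise

namespace Pool.Agent.Lib.MP_1dedaf_gt.EG

open Pool.Agent.Lib.MP_1dedaf_gt.SC

section Alg

variable {n : ℕ} {Λ : Finset ℝ} {π : ℝ → (E n →L[ℝ] E n)}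

lemma r11_idem (h : Fam Λ π) {r : ℝ} (hr : r ∈ Λ) (x : E n) : π r (π r x) = π r x := by
  have h1 := h.one (π r x)
  rw [Finset.sum_eq_single_of_mem r hr (fun s hs hsr => h.ort s hs r hr hsr x)] at h1
  exact h1

lemma r11_mul (h : Fam Λ π) (c d : ℝ → ℝ) (x : E n) :
    ∑ s ∈ Λ, c s • π s (∑ r ∈ Λ, d r • π r x) = ∑ s ∈ Λ, (c s * d s) • π s x := by
  refine Finset.sum_congr rfl fun s hs => ?_
  rw [map_sum, Finset.sum_eq_single_of_mem s hs]
  · rw [map_smul, r11_idem h hs, smul_smul]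
  · intro r hr hrs
    rw [map_smul, h.ort s hs r hr hrs.symm, smul_zero]

lemma r11_op (x : E n) : op Λ π x = ∑ r ∈ Λ, r • π r x := by
  unfold op
  rw [ContinuousLinearMap.sum_apply]
  rfl

/-- The inverse of `op`. -/
noncomputable def r11_T (Λ : Finset ℝ) (π : ℝ → (E n →L[ℝ] E n)) (x : E n) : E n :=
  ∑ r ∈ Λ, r⁻¹ • π r x

lemma r11_T_op (h : Fam Λ π) (x : E n) : r11_T Λ π (op Λ π x) = x := by
  rw [r11_op]
  unfold r11_T
  rw [r11_mul h (fun s => s⁻¹) (fun s => s) x]
  refine (Finset.sum_congr rfl fun s hs => ?_).trans (h.one x)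
  rw [inv_mul_cancel₀ (h.pos s hs).ne', one_smul]

lemma r11_op_T (h : Fam Λ π) (x : E n) : op Λ π (r11_T Λ π x) = x := by
  rw [r11_op]
  unfold r11_T
  rw [r11_mul h (fun s => s) (fun s => s⁻¹) x]
  refine (Finset.sum_congr rfl fun s hs => ?_).trans (h.one x)
  rw [mul_inv_cancel₀ (h.pos s hs).ne', one_smul]

lemma r11_T_smul (c : ℝ) (x : E n) : r11_T Λ π (c • x) = c • r11_T Λ π x := by
  unfold r11_T
  rw [Finset.smul_sum]
  refine Finset.sum_congr rfl fun s _ => ?_
  rw [map_smul, smul_comm]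

lemma r11_T_mem {A B : Set (E n)} (h : Str A B Λ π) {y : E n} (hy : y ∈ B) :
    r11_T Λ π y ∈ A := by
  rw [h.img] at hy
  obtain ⟨x, hx, rfl⟩ := hy
  rw [r11_T_op h.fam]
  exact hx

lemma r11_op_mem {A B : Set (E n)} (h : Str A B Λ π) {x : E n} (hx : x ∈ A) :
    op Λ π x ∈ B := by
  rw [h.img]
  exact ⟨x, hx, rfl⟩

end Alg

section Lim

variable {n : ℕ} {X : Set (E (n + 1))} {m : ℝ}

lemma r11_right (hX : Mir X m) {z1 z2 : ℝ} {x : E n}
    (h : ∀ l : ℝ, 0 < l → l < 1 → (1 - l) • x ∈ slice X ((1 - l) * z1 + l * z2)) :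
    x ∈ slice X z1 := by
  have h1 := EQ.closed_lim hX.comp.isClosed
    (f := fun l : ℝ => SC.ext ((1 - l) • x) ((1 - l) * z1 + l * z2))
    (EQ.cont_ext2.comp (by fun_prop : Continuous fun l : ℝ =>
      (((1 - l) • x, (1 - l) * z1 + l * z2) : E n × ℝ))) h
  simp only [sub_zero, one_smul, one_mul, zero_mul, add_zero] at h1
  exact h1

lemma r11_left (hX : Mir X m) {z1 z0 : ℝ} {x : E n}
    (h : ∀ l : ℝ, 0 < l → l < 1 → x ∈ slice X (z1 - l * z0)) :
    x ∈ slice X z1 := by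
  have h1 := EQ.closed_lim hX.comp.isClosed
    (f := fun l : ℝ => SC.ext x (z1 - l * z0))
    (EQ.cont_ext2.comp (by fun_prop : Continuous fun l : ℝ =>
      ((x, z1 - l * z0) : E n × ℝ))) h
  simp only [zero_mul, sub_zero] at h1
  exact h1

end Lim

/-- ROW 11: limits from the right and from the left. -/
theorem lim_right {n : ℕ} {t : ℝ} {K C : Set (E (n + 1))} {a ρ : ℝ} (H : EqS t K C a ρ)
    {z1 z2 : ℝ} (h1 : 0 < z1) (h12 : z1 < z2) (h2 : z2 ≤ a) {Λ : Finset ℝ}
    {π : ℝ → (E n →L[ℝ] E n)}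
    (h : ∀ z, z1 < z → z < z2 → Str (slice K z) (slice C (ρ * z)) Λ π) :
    Str (slice K z1) (slice C (ρ * z1)) Λ π := by
  have hF : Fam Λ π := (h ((z1 + z2) / 2) (by linarith) (by linarith)).fam
  have hz : ∀ l : ℝ, 0 < l → l < 1 →
      Str (slice K ((1 - l) * z1 + l * z2)) (slice C (ρ * ((1 - l) * z1 + l * z2))) Λ π := by
    intro l hl0 hl1
    refine h _ ?_ ?_
    · nlinarith [mul_pos hl0 (sub_pos.2 h12)]
    · nlinarith [mul_pos (sub_pos.2 hl1) (sub_pos.2 h12)]
  have ha2 : |z2| ≤ a := by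
    rw [abs_of_pos (h1.trans h12)]
    exact h2
  have hC2 : |ρ * z2| ≤ ρ * a := by
    rw [abs_of_pos (mul_pos H.r0 (h1.trans h12))]
    exact mul_le_mul_of_nonneg_left h2 H.r0.le
  have dK : ∀ x ∈ slice K z1, ∀ l : ℝ, 0 < l → l < 1 →
      (1 - l) • x ∈ slice K ((1 - l) * z1 + l * z2) := fun x hx l hl0 hl1 =>
    H.mK.dil hx ha2 hl0.le hl1.le
  have dC : ∀ x ∈ slice C (ρ * z1), ∀ l : ℝ, 0 < l → l < 1 →
      (1 - l) • x ∈ slice C (ρ * ((1 - l) * z1 + l * z2)) := by
    intro x hx l hl0 hl1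
    have h3 := H.mC.dil hx hC2 hl0.le hl1.le
    rw [show (1 - l) * (ρ * z1) + l * (ρ * z2) = ρ * ((1 - l) * z1 + l * z2) by ring] at h3
    exact h3
  refine ⟨hF, ?_, ?_⟩
  · intro f hf
    refine r11_right H.mK (z2 := z2) fun l hl0 hl1 => ?_
    have h3 := (hz l hl0 hl1).clo (fun r => (1 - l) • f r) fun r hr => dK _ (hf r hr) l hl0 hl1
    simp only [map_smul] at h3
    rw [← Finset.smul_sum] at h3
    exact h3
  · ext y
    constructor
    · intro hy
      refine ⟨r11_T Λ π y, ?_, r11_op_T hF y⟩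
      refine r11_right H.mK (z2 := z2) fun l hl0 hl1 => ?_
      have h3 := r11_T_mem (hz l hl0 hl1) (dC y hy l hl0 hl1)
      rw [r11_T_smul] at h3
      exact h3
    · rintro ⟨x, hx, rfl⟩
      refine r11_right H.mC (z2 := ρ * z2) fun l hl0 hl1 => ?_
      have h3 := r11_op_mem (hz l hl0 hl1) (dK x hx l hl0 hl1)
      rw [map_smul] at h3
      rw [show (1 - l) * (ρ * z1) + l * (ρ * z2) = ρ * ((1 - l) * z1 + l * z2) by ring]
      exact h3

theorem lim_left {n : ℕ} {t : ℝ} {K C : Set (E (n + 1))} {a ρ : ℝ} (H : EqS t K C a ρ)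
    {z0 z1 : ℝ} (h0 : 0 ≤ z0) (h01 : z0 < z1) (h1 : z1 < a) {Λ : Finset ℝ}
    {π : ℝ → (E n →L[ℝ] E n)}
    (h : ∀ z, z0 < z → z < z1 → Str (slice K z) (slice C (ρ * z)) Λ π) :
    Str (slice K z1) (slice C (ρ * z1)) Λ π := by
  have hF : Fam Λ π := (h ((z0 + z1) / 2) (by linarith) (by linarith)).fam
  have hd : 0 < z1 - z0 := sub_pos.2 h01
  have hb : ∀ l : ℝ, 0 < l → l < 1 →
      z0 < z1 - l * (z1 - z0) ∧ z1 - l * (z1 - z0) < z1 := by
    intro l hl0 hl1
    constructor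
    · nlinarith [mul_pos (sub_pos.2 hl1) hd]
    · nlinarith [mul_pos hl0 hd]
  have hz : ∀ l : ℝ, 0 < l → l < 1 →
      Str (slice K (z1 - l * (z1 - z0))) (slice C (ρ * (z1 - l * (z1 - z0)))) Λ π :=
    fun l hl0 hl1 => h _ (hb l hl0 hl1).1 (hb l hl0 hl1).2
  have dK : ∀ x ∈ slice K z1, ∀ l : ℝ, 0 < l → l < 1 → x ∈ slice K (z1 - l * (z1 - z0)) := by
    intro x hx l hl0 hl1
    refine H.mK.mono ?_ hx
    rw [abs_of_nonneg (h0.trans (hb l hl0 hl1).1.le)]
    exact (hb l hl0 hl1).2.le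
  have dC : ∀ x ∈ slice C (ρ * z1), ∀ l : ℝ, 0 < l → l < 1 →
      x ∈ slice C (ρ * (z1 - l * (z1 - z0))) := by
    intro x hx l hl0 hl1
    refine H.mC.mono ?_ hx
    rw [abs_of_nonneg (mul_nonneg H.r0.le (h0.trans (hb l hl0 hl1).1.le))]
    exact mul_le_mul_of_nonneg_left (hb l hl0 hl1).2.le H.r0.le
  refine ⟨hF, ?_, ?_⟩
  · intro f hf
    refine r11_left H.mK (z0 := z1 - z0) fun l hl0 hl1 => ?_
    exact (hz l hl0 hl1).clo f fun r hr => dK _ (hf r hr) l hl0 hl1
  · ext y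
    constructor
    · intro hy
      refine ⟨r11_T Λ π y, ?_, r11_op_T hF y⟩
      refine r11_left H.mK (z0 := z1 - z0) fun l hl0 hl1 => ?_
      exact r11_T_mem (hz l hl0 hl1) (dC y hy l hl0 hl1)
    · rintro ⟨x, hx, rfl⟩
      refine r11_left H.mC (z0 := ρ * (z1 - z0)) fun l hl0 hl1 => ?_
      rw [show ρ * z1 - l * (ρ * (z1 - z0)) = ρ * (z1 - l * (z1 - z0)) by ring]
      exact r11_op_mem (hz l hl0 hl1) (dK x hx l hl0 hl1)

end Pool.Agent.Lib.MP_1dedaf_gt.EG

end

section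

/-!
# MP_1dedaf_gt, EG: the structure gives the decomposition (row 15)
-/


open MeasureTheory Set Filter Topology
open scoped ENNReal NNReal Pointwise

namespace Pool.Agent.Lib.MP_1dedaf_gt.EG

open Pool.Agent.Lib.MP_1dedaf_gt.SC

private lemma r15_idem {n : ℕ} {Λ : Finset ℝ} {π : ℝ → (E n →L[ℝ] E n)} (h : Fam Λ π) {r : ℝ}
    (hr : r ∈ Λ) (x : E n) : π r (π r x) = π r x := by
  have h1 : π r x = ∑ s ∈ Λ, π r (π s x) := by
    rw [← map_sum, h.one]
  rw [Finset.sum_eq_single r (fun s hs hsr => h.ort r hr s hs (Ne.symm hsr) x)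
    (fun hn => absurd hr hn)] at h1
  exact h1.symm

private lemma r15_proj {n : ℕ} {Λ : Finset ℝ} {π : ℝ → (E n →L[ℝ] E n)} (h : Fam Λ π) {s : ℝ}
    (hs : s ∈ Λ) (f : ℝ → E n) : π s (∑ r ∈ Λ, π r (f r)) = π s (f s) := by
  rw [map_sum, Finset.sum_eq_single s (fun r hr hrs => h.ort s hs r hr (Ne.symm hrs) _)
    (fun hn => absurd hs hn), r15_idem h hs]

private lemma r15_rank {n : ℕ} {Λ : Finset ℝ} {π : ℝ → (E n →L[ℝ] E n)} (h : Fam Λ π) :
    ∑ r : Λ, Module.finrank ℝ (LinearMap.range (π r : E n →ₗ[ℝ] E n)) ≤ n := by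
  classical
  let T : E n →ₗ[ℝ] (∀ r : Λ, LinearMap.range (π r : E n →ₗ[ℝ] E n)) :=
    LinearMap.pi fun r => (π r : E n →ₗ[ℝ] E n).rangeRestrict
  have hT : Function.Surjective T := by
    intro g
    have hg : ∀ r : Λ, ∃ y : E n, π r y = (g r : E n) := fun r => (g r).2
    choose y hy using hg
    refine ⟨∑ r ∈ Λ, π r (if hr : r ∈ Λ then y ⟨r, hr⟩ else 0), ?_⟩
    funext s
    apply Subtype.ext
    show π s (∑ r ∈ Λ, π r (if hr : r ∈ Λ then y ⟨r, hr⟩ else 0)) = (g s : E n)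
    rw [r15_proj h s.2, dif_pos s.2]
    exact hy s
  have h1 := LinearMap.finrank_le_finrank_of_surjective (f := T) hT
  rw [Module.finrank_pi_fintype, finrank_euclideanSpace_fin] at h1
  exact h1

/-- ROW 15: structure gives decomposition (uses EQ.decN_of). -/
theorem decN_of_str {n : ℕ} {A B : Set (E n)} (hc : Convex ℝ A) (hA : IsCompact A)
    (hi : (interior A).Nonempty) {Λ : Finset ℝ} {π : ℝ → (E n →L[ℝ] E n)} (h : Str A B Λ π) :
    EQ.DecN A B := by
  classical
  have hF := h.fam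
  let e : Fin Λ.card ≃ Λ := Λ.equivFin.symm
  have hsum : ∀ g : ℝ → E n, ∑ i : Fin Λ.card, g (e i) = ∑ r ∈ Λ, g r := by
    intro g
    rw [Equiv.sum_comp e (fun r : Λ => g r), Finset.sum_coe_sort]
  have hpick : ∀ g : Fin Λ.card → E n, (∀ i, g i ∈ A) →
      ∃ f : ℝ → E n, (∀ r ∈ Λ, f r ∈ A) ∧ ∀ i, f (e i) = g i := by
    intro g hg
    refine ⟨fun r => if hr : r ∈ Λ then g (e.symm ⟨r, hr⟩) else 0, fun r hr => ?_, fun i => ?_⟩
    · show (if hr : r ∈ Λ then g (e.symm ⟨r, hr⟩) else 0) ∈ A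
      rw [dif_pos hr]
      exact hg _
    · show (if hr : (e i : ℝ) ∈ Λ then g (e.symm ⟨(e i : ℝ), hr⟩) else 0) = g i
      rw [dif_pos (e i).2]
      exact congrArg g (e.symm_apply_apply i)
  refine EQ.decN_of hi (fun i => π (e i) '' A)
    (fun i => LinearMap.range (π (e i) : E n →ₗ[ℝ] E n)) (fun i => (e i : ℝ)) ?_ ?_ ?_ ?_ ?_ ?_
  · intro i
    refine ⟨hc.linear_image (π (e i) : E n →ₗ[ℝ] E n), hA.image (π (e i)).continuous,
      (hi.mono interior_subset).image _, ?_⟩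
    rintro _ ⟨x, -, rfl⟩
    exact ⟨x, rfl⟩
  · intro i
    rw [Nat.one_le_iff_ne_zero, Ne, Submodule.finrank_eq_zero, LinearMap.range_eq_bot]
    intro h0
    apply hF.nz (e i) (e i).2
    ext1 x
    exact congrArg (fun T : E n →ₗ[ℝ] E n => T x) h0
  · rw [Equiv.sum_comp e (fun r : Λ => Module.finrank ℝ
      (LinearMap.range (π r : E n →ₗ[ℝ] E n)))]
    exact r15_rank hF
  · apply Subset.antisymm
    · intro x hx
      rw [mem_fintype_sum]
      exact ⟨fun i => π (e i) x, fun i => ⟨x, hx, rfl⟩,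
        (hsum fun r => π r x).trans (hF.one x)⟩
    · intro x hx
      rw [mem_fintype_sum] at hx
      obtain ⟨g, hg, hgx⟩ := hx
      choose y hy hyg using hg
      obtain ⟨f, hf, hfe⟩ := hpick y hy
      have h1 := h.clo f hf
      rw [← hsum fun r => π r (f r)] at h1
      have h2 : (∑ i : Fin Λ.card, π (e i) (f (e i))) = x := by
        rw [← hgx]
        apply Finset.sum_congr rfl
        intro i _
        rw [hfe, hyg]
      rw [h2] at h1
      exact h1
  · intro i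
    exact hF.pos _ (e i).2
  · rw [h.img]
    apply Subset.antisymm
    · rintro _ ⟨x, hx, rfl⟩
      rw [mem_fintype_sum]
      refine ⟨fun i => (e i : ℝ) • π (e i) x, fun i => smul_mem_smul_set ⟨x, hx, rfl⟩, ?_⟩
      rw [hsum fun r => r • π r x, op, ContinuousLinearMap.sum_apply]
      rfl
    · intro x hx
      rw [mem_fintype_sum] at hx
      obtain ⟨g, hg, hgx⟩ := hx
      have hg' : ∀ i, ∃ y ∈ A, (e i : ℝ) • π (e i) y = g i := by
        intro i
        obtain ⟨_, ⟨y, hy, rfl⟩, hyg⟩ := hg i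
        exact ⟨y, hy, hyg⟩
      choose y hy hyg using hg'
      obtain ⟨f, hf, hfe⟩ := hpick y hy
      refine ⟨_, h.clo f hf, ?_⟩
      rw [op, ContinuousLinearMap.sum_apply, ← hgx]
      have h3 : ∀ s ∈ Λ, (s • π s) (∑ r ∈ Λ, π r (f r)) = s • π s (f s) := by
        intro s hs
        rw [ContinuousLinearMap.smul_apply, r15_proj hF hs]
      rw [Finset.sum_congr rfl h3, ← hsum fun r => r • π r (f r)]
      apply Finset.sum_congr rfl
      intro i _
      rw [hfe, hyg]

end Pool.Agent.Lib.MP_1dedaf_gt.EG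

end

section

open MeasureTheory Set Filter Topology
open scoped ENNReal NNReal Pointwise

namespace Pool.Agent.Lib.MP_1dedaf_gt.EG

open Pool.Agent.Lib.MP_1dedaf_gt.SC

/-- Projections of a direct decomposition. -/
theorem r16_proj {n m : ℕ} (V : Fin m → Submodule ℝ (E n))
    (hd : ∑ i, Module.finrank ℝ (V i) = n)
    (hsp : ∀ y : E n, ∃ g : Fin m → E n, (∀ i, g i ∈ V i) ∧ ∑ i, g i = y) :
    ∃ q : Fin m → E n →ₗ[ℝ] E n, (∀ y, ∑ i, q i y = y) ∧
      (∀ i, ∀ v ∈ V i, q i v = v) ∧ (∀ i j, i ≠ j → ∀ v ∈ V j, q i v = 0) ∧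
      (∀ i y, q i y ∈ V i) ∧
      ∀ r : Fin m → ℝ, (∀ i, 0 < r i) → ∃ D : ℝ, 0 < D ∧
        ∀ t : ℝ, LinearMap.det (∑ i, (r i ^ t) • q i) = D ^ t := by
  classical
  obtain ⟨Φ, hΦ⟩ : ∃ Φ : (∀ i, V i) →ₗ[ℝ] E n, ∀ v, Φ v = ∑ i, (v i : E n) :=
    ⟨∑ i, (V i).subtype ∘ₗ LinearMap.proj i, fun v => by simp⟩
  have hsur : Function.Surjective Φ := by
    intro y
    obtain ⟨g, hg, hy⟩ := hsp y
    exact ⟨fun i => ⟨g i, hg i⟩, by rw [hΦ]; exact hy⟩
  have hfr : Module.finrank ℝ (∀ i, V i) = Module.finrank ℝ (E n) := by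
    rw [Module.finrank_pi_fintype, hd, finrank_euclideanSpace_fin]
  have hinj : Function.Injective Φ :=
    (LinearMap.injective_iff_surjective_of_finrank_eq_finrank hfr).2 hsur
  set e : (∀ i, V i) ≃ₗ[ℝ] E n := LinearEquiv.ofBijective Φ ⟨hinj, hsur⟩ with he
  have hev : ∀ v, e v = ∑ i, (v i : E n) := fun v => hΦ v
  obtain ⟨q, hq⟩ : ∃ q : Fin m → E n →ₗ[ℝ] E n, ∀ i y, q i y = ((e.symm y) i : E n) :=
    ⟨fun i => (V i).subtype ∘ₗ LinearMap.proj i ∘ₗ e.symm.toLinearMap, fun i y => rfl⟩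
  have hsing : ∀ j (v : V j), e (Pi.single j v) = (v : E n) := by
    intro j v
    rw [hev, Finset.sum_eq_single j]
    · simp
    · intro i _ hi
      simp [hi]
    · intro h
      exact absurd (Finset.mem_univ j) h
  have hsymm : ∀ j (v : V j), e.symm (v : E n) = Pi.single j v := by
    intro j v
    rw [← hsing j v, LinearEquiv.symm_apply_apply]
  have h1 : ∀ y, ∑ i, q i y = y := by
    intro y
    simp only [hq]
    rw [← hev, LinearEquiv.apply_symm_apply]
  have h2 : ∀ i, ∀ v ∈ V i, q i v = v := by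
    intro i v hv
    rw [hq, hsymm i ⟨v, hv⟩]
    simp
  have h3 : ∀ i j, i ≠ j → ∀ v ∈ V j, q i v = 0 := by
    intro i j hij v hv
    rw [hq, hsymm j ⟨v, hv⟩]
    simp [hij]
  refine ⟨q, h1, h2, h3, fun i y => by rw [hq]; exact Submodule.coe_mem _, ?_⟩
  intro r hr
  set b : Module.Basis (Σ i, Fin (Module.finrank ℝ (V i))) ℝ (E n) :=
    (Pi.basis fun i => Module.finBasis ℝ (V i)).map e with hb
  refine ⟨∏ x : (Σ i, Fin (Module.finrank ℝ (V i))), r x.1,
    Finset.prod_pos fun x _ => hr x.1, fun t => ?_⟩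
  have hbV : ∀ x : (Σ i, Fin (Module.finrank ℝ (V i))), b x ∈ V x.1 := by
    rintro ⟨i, j⟩
    rw [hb, Module.Basis.map_apply, Pi.basis_apply, hsing]
    exact Submodule.coe_mem _
  have hDb : ∀ x : (Σ i, Fin (Module.finrank ℝ (V i))),
      (∑ i, (r i ^ t) • q i) (b x) = (r x.1 ^ t) • b x := by
    intro x
    rw [LinearMap.sum_apply, Finset.sum_eq_single x.1]
    · rw [LinearMap.smul_apply, h2 _ _ (hbV x)]
    · intro i _ hi
      rw [LinearMap.smul_apply, h3 i x.1 hi _ (hbV x), smul_zero]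
    · intro h
      exact absurd (Finset.mem_univ _) h
  have hmat : LinearMap.toMatrix b b (∑ i, (r i ^ t) • q i) =
      Matrix.diagonal fun x : (Σ i, Fin (Module.finrank ℝ (V i))) => r x.1 ^ t := by
    ext x y
    rw [LinearMap.toMatrix_apply, hDb, map_smul, Finsupp.smul_apply, Module.Basis.repr_self,
      Finsupp.single_apply, Matrix.diagonal_apply, smul_eq_mul]
    by_cases hxy : y = x
    · subst hxy
      simp
    · rw [if_neg hxy, if_neg (fun h => hxy h.symm), mul_zero]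
  rw [← LinearMap.det_toMatrix b, hmat, Matrix.det_diagonal]
  exact Real.finsetProd_rpow _ _ (fun x _ => (hr x.1).le) t

/-- ROW 16: the converse for centered bodies. -/
theorem conv_cen {n : ℕ} {t : ℝ} (ht0 : 0 < t) (ht1 : t < 1) {K C : Set (E n)} (hc : Convex ℝ K)
    (hK : IsCompact K) (hi : (interior K).Nonempty) (h0 : ∫ x in K, x = 0) (hC : IsCompact C)
    (h0' : ∫ x in C, x = 0) (h : EQ.DecN K C) :
    volume (logC t K C) ≤ volume K ^ (1 - t) * volume C ^ t := by
  classical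
  have hcen := h0
  have hcen' := h0'
  clear h0 h0'
  obtain ⟨m, Ks, Cs, h1, h2, hKe, hCe, h5⟩ := h
  choose r hr hCs using h5
  have hs0 : 0 < 1 - t := by linarith
  choose b hb using fun i => (h1 i).2.2.1
  have hmem : ∀ i, ∀ g ∈ Ks i, g - b i ∈ (affineSpan ℝ (Ks i)).direction := by
    intro i g hg
    exact AffineSubspace.vsub_mem_direction (subset_affineSpan ℝ _ hg)
      (subset_affineSpan ℝ _ (hb i))
  have hKm : ∀ y, y ∈ K ↔ ∃ g : Fin m → E n, (∀ i, g i ∈ Ks i) ∧ ∑ i, g i = y := by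
    intro y
    rw [hKe, Set.mem_fintype_sum]
    simp
  have hCm : ∀ y, y ∈ C ↔ ∃ g : Fin m → E n, (∀ i, g i ∈ Ks i) ∧ ∑ i, r i • g i = y := by
    intro y
    rw [hCe, Set.mem_fintype_sum]
    constructor
    · rintro ⟨g, hg, rfl⟩
      have h6 : ∀ i, ∃ k ∈ Ks i, r i • k = g i := by
        intro i
        have := hg i
        rw [hCs i] at this
        exact this
      choose k hk hk' using h6
      exact ⟨k, hk, Finset.sum_congr rfl fun i _ => hk' i⟩
    · rintro ⟨g, hg, rfl⟩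
      refine ⟨fun i => r i • g i, fun i => ?_, rfl⟩
      rw [hCs i]
      exact Set.smul_mem_smul_set (hg i)
  -- the span
  obtain ⟨y₀, hy₀⟩ := hi
  have hsp : ∀ y : E n, ∃ g : Fin m → E n, (∀ i, g i ∈ (affineSpan ℝ (Ks i)).direction) ∧
      ∑ i, g i = y := by
    intro y
    have hcont : Tendsto (fun s : ℝ => y₀ + s • y) (𝓝 0) (𝓝 (y₀ + (0 : ℝ) • y)) :=
      (continuous_const.add (continuous_id.smul continuous_const)).tendsto 0
    rw [zero_smul, add_zero] at hcont
    have h6 := hcont.eventually (isOpen_interior.mem_nhds hy₀)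
    obtain ⟨ε, hε, h7⟩ := Metric.eventually_nhds_iff.1 h6
    have h8 : y₀ + (ε / 2) • y ∈ K := by
      apply interior_subset
      apply h7
      rw [Real.dist_eq, sub_zero, abs_of_pos (by positivity)]
      linarith
    obtain ⟨g, hg, hgs⟩ := (hKm _).1 h8
    obtain ⟨g', hg', hgs'⟩ := (hKm _).1 (interior_subset hy₀)
    refine ⟨fun i => (ε / 2)⁻¹ • (g i - g' i), fun i => ?_, ?_⟩
    · apply Submodule.smul_mem
      exact AffineSubspace.vsub_mem_direction (subset_affineSpan ℝ _ (hg i))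
        (subset_affineSpan ℝ _ (hg' i))
    · rw [← Finset.smul_sum, Finset.sum_sub_distrib, hgs, hgs', add_sub_cancel_left, smul_smul,
        inv_mul_cancel₀ (by positivity), one_smul]
  obtain ⟨q, hq1, hq2, hq3, hq4, hq5⟩ :=
    r16_proj (fun i => (affineSpan ℝ (Ks i)).direction) h2 hsp
  obtain ⟨D, hD, hdet⟩ := hq5 r hr
  -- the projection of a sum
  have hqs : ∀ i, ∀ g : Fin m → E n, (∀ i, g i ∈ Ks i) →
      q i (∑ j, g j) = q i (∑ j, b j) + (g i - b i) := by
    intro i g hg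
    have h6 : ∑ j, g j = ∑ j, b j + ∑ j, (g j - b j) := by
      rw [Finset.sum_sub_distrib]
      abel
    have h7 : q i (∑ j, (g j - b j)) = g i - b i := by
      rw [map_sum, Finset.sum_eq_single i]
      · rw [hq2 i _ (hmem i _ (hg i))]
      · intro j _ hj
        exact hq3 i j (fun h => hj h.symm) _ (hmem j _ (hg j))
      · intro h
        exact absurd (Finset.mem_univ _) h
    rw [h6, map_add, h7]
  have hqq : ∀ i j y, q i (q j y) = if i = j then q i y else 0 := by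
    intro i j y
    split_ifs with hij
    · subst hij
      exact hq2 i _ (hq4 i y)
    · exact hq3 i j hij _ (hq4 j y)
  have hqD : ∀ (s : Fin m → ℝ) i y, q i ((∑ j, s j • q j) y) = s i • q i y := by
    intro s i y
    rw [LinearMap.sum_apply, map_sum, Finset.sum_eq_single i]
    · rw [LinearMap.smul_apply, map_smul, hqq, if_pos rfl]
    · intro j _ hj
      rw [LinearMap.smul_apply, map_smul, hqq, if_neg (fun h => hj h.symm), smul_zero]
    · intro h
      exact absurd (Finset.mem_univ _) h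
  -- the product structure
  have hprod : ∀ y, (∀ i, q i y ∈ q i '' K) → y ∈ K := by
    intro y hy
    have h6 : ∀ i, ∃ g : Fin m → E n, (∀ i, g i ∈ Ks i) ∧
        q i (∑ j, b j) + (g i - b i) = q i y := by
      intro i
      obtain ⟨y', hy', hyy⟩ := hy i
      obtain ⟨g, hg, rfl⟩ := (hKm _).1 hy'
      exact ⟨g, hg, by rw [← hqs i g hg, hyy]⟩
    choose g hg hgy using h6
    refine (hKm _).2 ⟨fun i => g i i, fun i => hg i i, ?_⟩
    have h7 : y = ∑ i, (q i (∑ j, b j) + (g i i - b i)) := by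
      rw [Finset.sum_congr rfl fun i _ => hgy i, hq1 y]
    rw [h7, Finset.sum_add_distrib, hq1, Finset.sum_sub_distrib]
    abel
  -- `C` is the image of `K`
  set L1 : E n →ₗ[ℝ] E n := ∑ i, r i • q i with hL1
  have hL1s : ∀ g : Fin m → E n, (∀ i, g i ∈ Ks i) →
      L1 (∑ j, g j) = ∑ i, r i • g i + (L1 (∑ j, b j) - ∑ i, r i • b i) := by
    intro g hg
    have h6 : ∀ y, L1 y = ∑ i, r i • q i y := by
      intro y
      rw [hL1, LinearMap.sum_apply]
      rfl
    rw [h6, h6]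
    have h7 : ∑ i, r i • q i (∑ j, g j) =
        ∑ i, (r i • q i (∑ j, b j) + (r i • g i - r i • b i)) := by
      refine Finset.sum_congr rfl fun i _ => ?_
      rw [hqs i g hg, smul_add, smul_sub]
    rw [h7, Finset.sum_add_distrib, Finset.sum_sub_distrib]
    abel
  set τ : E n := L1 (∑ j, b j) - ∑ i, r i • b i with hτ
  have hτ1 : ∀ c ∈ C, c + τ ∈ L1 '' K := by
    intro c hc'
    obtain ⟨g, hg, rfl⟩ := (hCm c).1 hc'
    exact ⟨∑ j, g j, (hKm _).2 ⟨g, hg, rfl⟩, hL1s g hg⟩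
  have hτ2 : ∀ y ∈ L1 '' K, ∃ c ∈ C, y = c + τ := by
    rintro _ ⟨y, hy, rfl⟩
    obtain ⟨g, hg, rfl⟩ := (hKm y).1 hy
    exact ⟨∑ i, r i • g i, (hCm _).2 ⟨g, hg, rfl⟩, hL1s g hg⟩
  -- the volumes
  have hv0 : volume K ≠ 0 :=
    ((isOpen_interior.measure_pos volume ⟨y₀, hy₀⟩).trans_le (measure_mono interior_subset)).ne'
  have hvt : volume K ≠ ∞ := hK.measure_lt_top.ne
  have hd1 : LinearMap.det L1 = D := by
    have := hdet 1
    simpa only [Real.rpow_one] using this
  have hτ0 : τ = 0 := by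
    obtain ⟨Lc, hLc⟩ : ∃ Lc : E n →L[ℝ] E n, ∀ z, Lc z = L1 z :=
      ⟨LinearMap.toContinuousLinearMap L1, fun z => rfl⟩
    have hLd : Lc.det = D := by
      rw [← hd1]
      have h6 : (Lc : E n →ₗ[ℝ] E n) = L1 := LinearMap.ext hLc
      rw [ContinuousLinearMap.det, h6]
    have hCi : C = (fun y => Lc y - τ) '' K := by
      ext c
      constructor
      · intro hc'
        obtain ⟨y, hy, hyc⟩ := hτ1 c hc'
        refine ⟨y, hy, ?_⟩
        show Lc y - τ = c
        rw [hLc, hyc, add_sub_cancel_right]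
      · rintro ⟨y, hy, rfl⟩
        obtain ⟨c', hc2, h6⟩ := hτ2 (L1 y) ⟨y, hy, rfl⟩
        show Lc y - τ ∈ C
        rw [hLc, h6, add_sub_cancel_right]
        exact hc2
    have hinj : InjOn (fun y => Lc y - τ) K := by
      intro y _ y' _ hyy
      have h6 : L1 y = L1 y' := by
        have h7 : Lc y - τ = Lc y' - τ := hyy
        rwa [sub_left_inj, hLc, hLc] at h7
      have h7 : ∀ i, q i y = q i y' := by
        intro i
        have h8 : q i (L1 y) = q i (L1 y') := by rw [h6]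
        rw [hL1, hqD, hqD] at h8
        exact smul_right_injective _ (hr i).ne' h8
      rw [← hq1 y, ← hq1 y']
      exact Finset.sum_congr rfl fun i _ => h7 i
    have hiK : IntegrableOn (fun y : E n => y) K := continuousOn_id.integrableOn_compact hK
    have h6 : ∫ x in C, x = D • (Lc (∫ y in K, y) - (volume.real K) • τ) := by
      rw [hCi, integral_image_eq_integral_abs_det_fderiv_smul volume hK.measurableSet
        (f' := fun _ => Lc) (fun y _ => (Lc.hasFDerivAt.sub_const τ).hasFDerivWithinAt) hinj]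
      simp only [hLd, abs_of_pos hD]
      rw [integral_smul, integral_sub (Lc.integrable_comp hiK) (integrableOn_const hvt),
        Lc.integral_comp_comm hiK, setIntegral_const]
    rw [hcen, hcen', map_zero, zero_sub, smul_neg, smul_smul] at h6
    have h7 : (D * volume.real K) • τ = 0 := by
      rw [eq_comm, neg_eq_zero] at h6
      exact h6
    rcases smul_eq_zero.1 h7 with h8 | h8
    · exfalso
      have h9 : 0 < volume.real K := ENNReal.toReal_pos hv0 hvt
      exact (mul_pos hD h9).ne' h8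
    · exact h8
  have hCL : C = L1 '' K := by
    ext c
    constructor
    · intro hc'
      have := hτ1 c hc'
      rwa [hτ0, add_zero] at this
    · intro hc'
      obtain ⟨c', hc2, h6⟩ := hτ2 c hc'
      rw [hτ0, add_zero] at h6
      rwa [h6]
  -- the origin
  have h0 : (0 : E n) ∈ K := by
    have h6 := hc.set_average_mem hK.isClosed hv0 hvt (f := fun y : E n => y)
      (ae_restrict_mem hK.measurableSet) (continuousOn_id.integrableOn_compact hK)
    rwa [setAverage_eq, hcen, smul_zero] at h6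
  have h0' : (0 : E n) ∈ C := by
    rw [hCL]
    exact ⟨0, h0, map_zero _⟩
  -- the logarithmic combination
  set L : E n →ₗ[ℝ] E n := ∑ i, (r i ^ t) • q i with hL
  have hlog : logC t K C ⊆ L '' K := by
    intro x hx
    set y : E n := (∑ i, (r i ^ t)⁻¹ • q i) x with hy
    have hxy : L y = x := by
      have h6 : L y = ∑ i, r i ^ t • q i y := by
        rw [hL, LinearMap.sum_apply]
        rfl
      have h7 : ∀ i, r i ^ t • q i y = q i x := by
        intro i
        rw [hy, hqD (fun i => (r i ^ t)⁻¹) i, smul_smul,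
          mul_inv_cancel₀ (Real.rpow_pos_of_pos (hr i) t).ne', one_smul]
      rw [h6, Finset.sum_congr rfl fun i _ => h7 i, hq1 x]
    refine ⟨y, ?_, hxy⟩
    apply hprod
    intro i
    by_contra hni
    have hqc : Continuous (q i) := (q i).continuous_of_finiteDimensional
    obtain ⟨f, c, hf1, hf2⟩ := geometric_hahn_banach_closed_point
      (hc.linear_image (q i)) (hK.image hqc).isClosed hni
    obtain ⟨w, hw⟩ := (InnerProductSpace.toDual ℝ (E n)).surjective f
    obtain ⟨Q, hQ⟩ : ∃ Q : E n →L[ℝ] E n, ∀ z, Q z = q i z :=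
      ⟨LinearMap.toContinuousLinearMap (q i), fun z => rfl⟩
    have hu : ∀ z, inner ℝ z (ContinuousLinearMap.adjoint Q w) = f (q i z) := by
      intro z
      rw [ContinuousLinearMap.adjoint_inner_right, hQ, ← hw, InnerProductSpace.toDual_apply_apply,
        real_inner_comm]
    set u := ContinuousLinearMap.adjoint Q w with hudef
    obtain ⟨z₀, hz₀, hz₀'⟩ := supp_attained hK ⟨0, h0⟩ u
    have hS : supp K u < f (q i y) := by
      rw [← hz₀', hu]
      exact (hf1 _ ⟨z₀, hz₀, rfl⟩).trans hf2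
    have hS0 := supp_nonneg hK h0 u
    have hS0' := supp_nonneg hC h0' u
    have hSC : supp C u ≤ r i * supp K u := by
      obtain ⟨c₀, hc₀, hc₀'⟩ := supp_attained hC ⟨0, h0'⟩ u
      rw [hCL] at hc₀
      obtain ⟨z₁, hz₁, rfl⟩ := hc₀
      rw [← hc₀', hu, hL1, hqD, map_smul, smul_eq_mul]
      rw [← hu]
      exact mul_le_mul_of_nonneg_left (le_supp hK u hz₁) (hr i).le
    have h6 := logC_all hK hC h0 h0' hx u
    have hri : 0 < r i ^ t := Real.rpow_pos_of_pos (hr i) t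
    have h7 : inner ℝ x u = r i ^ t * f (q i y) := by
      rw [hu, ← hxy, hL, hqD (fun i => r i ^ t) i, map_smul, smul_eq_mul]
    have h8 : supp K u ^ (1 - t) * supp C u ^ t ≤ r i ^ t * supp K u := by
      calc supp K u ^ (1 - t) * supp C u ^ t
          ≤ supp K u ^ (1 - t) * (r i * supp K u) ^ t :=
            mul_le_mul_of_nonneg_left (Real.rpow_le_rpow hS0' hSC ht0.le)
              (Real.rpow_nonneg hS0 _)
        _ = r i ^ t * (supp K u ^ (1 - t) * supp K u ^ t) := by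
            rw [Real.mul_rpow (hr i).le hS0]
            ring
        _ = r i ^ t * supp K u := by
            rw [← Real.rpow_add' hS0 (by norm_num)]
            norm_num
    have h9 : r i ^ t * supp K u < r i ^ t * f (q i y) := mul_lt_mul_of_pos_left hS hri
    linarith
  have hvC : volume C = ENNReal.ofReal D * volume K := by
    rw [hCL, Measure.addHaar_image_linearMap, hd1, abs_of_pos hD]
  rw [hvC, ENNReal.mul_rpow_of_nonneg _ _ ht0.le]
  refine (measure_mono hlog).trans ?_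
  rw [Measure.addHaar_image_linearMap, hL, hdet t, abs_of_pos (Real.rpow_pos_of_pos hD t),
    ENNReal.ofReal_rpow_of_pos hD]
  have h6 : volume K ^ (1 - t) * volume K ^ t = volume K := by
    rw [← ENNReal.rpow_add _ _ hv0 hvt]
    simp
  calc ENNReal.ofReal (D ^ t) * volume K
      = ENNReal.ofReal (D ^ t) * (volume K ^ (1 - t) * volume K ^ t) := by rw [h6]
    _ = volume K ^ (1 - t) * (ENNReal.ofReal (D ^ t) * volume K ^ t) := by ring
    _ ≤ _ := le_rfl

end Pool.Agent.Lib.MP_1dedaf_gt.EG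

end

section

/-!
# MP_1dedaf_gt, EG row 17: the centroid of a body of the class
-/


open MeasureTheory Set Filter Topology
open scoped ENNReal NNReal Pointwise

namespace Pool.Agent.Lib.MP_1dedaf_gt.EG

open Pool.Agent.Lib.MP_1dedaf_gt.SC

/-- The map `(z, x) ↦ (x, z)` preserves the volume. -/
lemma r17_mp (n : ℕ) : MeasurePreserving (fun p : ℝ × E n => SC.ext p.2 p.1)
    (volume : Measure (ℝ × E n)) (volume : Measure (E (n + 1))) := by
  have h1 := (volume_preserving_piFinSuccAbove (fun _ : Fin (n + 1) => ℝ) (Fin.last n)).symm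
  have h2 := EuclideanSpace.volume_preserving_symm_measurableEquiv_toLp (Fin n)
  have h3 := (EuclideanSpace.volume_preserving_symm_measurableEquiv_toLp (Fin (n + 1))).symm
  have h4 : MeasurePreserving (Prod.map (id : ℝ → ℝ)
      ((MeasurableEquiv.toLp 2 (Fin n → ℝ)).symm : E n → (Fin n → ℝ)))
      ((volume : Measure ℝ).prod (volume : Measure (E n)))
      ((volume : Measure ℝ).prod (volume : Measure (Fin n → ℝ))) :=
    (MeasurePreserving.id volume).prod h2
  have h5 := (h3.comp h1).comp h4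
  have h6 : (fun p : ℝ × E n => SC.ext p.2 p.1) =
      (((MeasurableEquiv.toLp 2 (Fin (n + 1) → ℝ)).symm.symm ∘
        (MeasurableEquiv.piFinSuccAbove (fun _ : Fin (n + 1) => ℝ) (Fin.last n)).symm) ∘
        Prod.map (id : ℝ → ℝ) ((MeasurableEquiv.toLp 2 (Fin n → ℝ)).symm : E n → (Fin n → ℝ))) := by
    funext p
    have h7 : (MeasurableEquiv.piFinSuccAbove (fun _ : Fin (n + 1) => ℝ) (Fin.last n)).symm
        (p.1, p.2.ofLp) = Fin.snoc (α := fun _ => ℝ) p.2.ofLp p.1 := by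
      simp [MeasurableEquiv.piFinSuccAbove, Fin.insertNthEquiv, Fin.insertNth_last']
    show WithLp.toLp 2 (Fin.snoc (α := fun _ => ℝ) p.2.ofLp p.1) =
      WithLp.toLp 2 ((MeasurableEquiv.piFinSuccAbove (fun _ : Fin (n + 1) => ℝ)
        (Fin.last n)).symm (p.1, p.2.ofLp))
    rw [h7]
  rw [h6]
  exact h5

/-- The inverse of `(z, x) ↦ (x, z)`. -/
lemma r17_emb (n : ℕ) : MeasurableEmbedding (fun p : ℝ × E n => SC.ext p.2 p.1) := by
  refine MeasurableEquiv.measurableEmbedding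
    { toFun := fun p : ℝ × E n => SC.ext p.2 p.1
      invFun := fun x : E (n + 1) => (x (Fin.last n), SC.ini x)
      left_inv := fun p => by
        show ((SC.ext p.2 p.1) (Fin.last n), SC.ini (SC.ext p.2 p.1)) = p
        rw [ext_last, ini_ext]
      right_inv := fun x => SC.ext_ini x
      measurable_toFun := (r17_mp n).measurable
      measurable_invFun := by
        refine Measurable.prodMk ?_ cont_ini.measurable
        exact ((continuous_apply (Fin.last n)).comp (PiLp.continuous_ofLp 2 _)).measurable }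

/-- Fubini for slices. -/
lemma r17_fubini {n : ℕ} {K : Set (E (n + 1))} (hK : IsCompact K) (f : E (n + 1) → ℝ)
    (hf : Continuous f) :
    ∫ x in K, f x = ∫ z, ∫ x in slice K z, f (SC.ext x z) := by
  have h1 := (r17_mp n).setIntegral_preimage_emb (r17_emb n) f K
  rw [← h1]
  have hm : MeasurableSet ((fun p : ℝ × E n => SC.ext p.2 p.1) ⁻¹' K) :=
    (r17_mp n).measurable hK.measurableSet
  have hint : Integrable (((fun p : ℝ × E n => SC.ext p.2 p.1) ⁻¹' K).indicator
      (fun p : ℝ × E n => f (SC.ext p.2 p.1))) (volume : Measure (ℝ × E n)) := by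
    rw [integrable_indicator_iff hm]
    have h2 : IntegrableOn f K volume := hf.continuousOn.integrableOn_compact hK
    exact ((r17_mp n).integrableOn_comp_preimage (r17_emb n)).2 h2
  rw [← integral_indicator hm, Measure.volume_eq_prod, integral_prod _ hint]
  apply integral_congr_ae
  refine Eventually.of_forall fun z => ?_
  have hz : MeasurableSet (slice K z) := (cont_ext z).measurable hK.measurableSet
  show ∫ x, ((fun p : ℝ × E n => SC.ext p.2 p.1) ⁻¹' K).indicator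
      (fun p : ℝ × E n => f (SC.ext p.2 p.1)) (z, x) = ∫ x in slice K z, f (SC.ext x z)
  rw [← integral_indicator hz]
  rfl

/-- The coordinates of the integral. -/
lemma r17_coord {n : ℕ} {K : Set (E n)} (hK : IsCompact K) (i : Fin n) :
    (∫ x in K, x) i = ∫ x in K, x i := by
  have h1 := ContinuousLinearMap.integral_comp_comm (EuclideanSpace.proj (𝕜 := ℝ) i)
    (φ := fun x : E n => x) (μ := volume.restrict K)
    (continuous_id.continuousOn.integrableOn_compact hK)
  exact h1.symm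

/-- The centroid by slices. -/
lemma r17_step {n : ℕ} {K : Set (E (n + 1))} (hc : IsCompact K)
    (hm : ∀ (x : E n) (z : ℝ), SC.ext x z ∈ K → SC.ext x (-z) ∈ K)
    (hs : ∀ z : ℝ, ∫ x in slice K z, x = 0) : ∫ x in K, x = 0 := by
  have key : ∀ i : Fin (n + 1), (∫ x in K, x) i = 0 := by
    intro i
    rw [r17_coord hc i]
    have hcont : Continuous fun x : E (n + 1) => x i :=
      (continuous_apply i).comp (PiLp.continuous_ofLp 2 _)
    rw [r17_fubini hc (fun x => x i) hcont]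
    refine Fin.lastCases ?_ (fun j => ?_) i
    · have h1 : ∀ z : ℝ, ∫ x in slice K z, (SC.ext x z) (Fin.last n) =
          (volume (slice K z)).toReal * z := by
        intro z
        simp only [ext_last]
        rw [integral_const, smul_eq_mul]
        congr 1
        rw [Measure.real, Measure.restrict_apply_univ]
      have h2 : ∀ z : ℝ, slice K (-z) = slice K z := by
        intro z
        ext x
        constructor
        · intro hx
          have := hm x (-z) hx
          rwa [neg_neg] at this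
        · intro hx
          exact hm x z hx
      simp only [h1]
      have h4 := integral_neg_eq_self (fun z : ℝ => (volume (slice K z)).toReal * z)
        (volume : Measure ℝ)
      have h5 : (fun z : ℝ => (volume (slice K (-z))).toReal * -z) =
          fun z : ℝ => -((volume (slice K z)).toReal * z) := by
        funext z
        rw [h2 z]
        ring
      rw [h5, integral_neg] at h4
      linarith
    · have h1 : ∀ z : ℝ, ∫ x in slice K z, (SC.ext x z) (Fin.castSucc j) = 0 := by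
        intro z
        simp only [ext_castSucc]
        rw [← r17_coord (slice_compact hc z) j, hs z]
        rfl
      simp only [h1, integral_zero]
  ext i
  exact key i

/-- ROW 17: the centroid of a body of the class, and its linear images. -/
theorem good_centroid (k : ℕ) {K : Set (E (2 + k))} (hK : Good k K) : ∫ x in K, x = 0 := by
  induction k with
  | zero =>
    have h1 := hK.cent (fun i => i.elim0)
    have h2 : {x : E 2 | WithLp.toLp 2 (Fin.append x.ofLp (fun i : Fin 0 => (i.elim0 : ℝ))) ∈ K} =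
        K := by
      ext x
      have h3 : (Fin.append x.ofLp (fun i : Fin 0 => (i.elim0 : ℝ)) : Fin (2 + 0) → ℝ) = x.ofLp := by
        funext i
        exact Fin.append_left x.ofLp _ i
      show WithLp.toLp 2 (Fin.append x.ofLp (fun i : Fin 0 => (i.elim0 : ℝ))) ∈ K ↔ x ∈ K
      rw [h3]
    rw [h2] at h1
    exact h1
  | succ k ih =>
    exact r17_step (n := 2 + k) hK.comp (fun x z hx => hK.mirror hx) (fun z => ih (hK.slice z))

theorem lin_centroid {n : ℕ} (P : E n ≃L[ℝ] E n) {K : Set (E n)} (hK : IsCompact K)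
    (h : ∫ x in P '' K, x = 0) : ∫ x in K, x = 0 := by
  have h1 := integral_image_eq_integral_abs_det_fderiv_smul (volume : Measure (E n))
    (s := K) (f := (P : E n → E n)) (f' := fun _ => (P : E n →L[ℝ] E n)) hK.measurableSet
    (fun x _ => P.hasFDerivAt.hasFDerivWithinAt) (P.injective.injOn) (fun x => x)
  rw [h, integral_smul, P.integral_comp_comm] at h1
  have h2 : |(P : E n →L[ℝ] E n).det| ≠ 0 := by
    rw [abs_ne_zero]
    exact (P.toLinearEquiv.isUnit_det').ne_zero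
  have h3 := smul_eq_zero.1 h1.symm
  rcases h3 with h3 | h3
  · exact absurd h3 h2
  · exact (map_eq_zero_iff P P.injective).1 h3

end Pool.Agent.Lib.MP_1dedaf_gt.EG

end

section

/-!
# MP_1dedaf_gt, EG: row 18, the origin is an interior point
-/


open MeasureTheory Set Filter Topology
open scoped ENNReal NNReal Pointwise

namespace Pool.Agent.Lib.MP_1dedaf_gt.EG

open Pool.Agent.Lib.MP_1dedaf_gt.SC

/-- The centroid of a convex body of positive volume is an interior point. -/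
theorem r18_interior {n : ℕ} {K : Set (E n)} (hc : Convex ℝ K) (hK : IsCompact K)
    (hv : volume K ≠ 0) (h0 : ∫ x in K, x = 0) : (0 : E n) ∈ interior K := by
  by_contra h
  have hne := int_nonempty hc hv
  obtain ⟨f, hf⟩ := geometric_hahn_banach_open_point hc.interior isOpen_interior h
  rw [map_zero] at hf
  have hi : IntegrableOn (fun x : E n => x) K :=
    continuous_id.continuousOn.integrableOn_compact hK
  have hfi : IntegrableOn (fun x : E n => -f x) K :=
    f.continuous.neg.continuousOn.integrableOn_compact hK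
  have hint : ∫ x in K, -f x = 0 := by
    rw [integral_neg]
    have h1 := f.integral_comp_comm (μ := volume.restrict K) (φ := fun x => x) hi
    rw [h1, h0, map_zero, neg_zero]
  have hle : ∀ x ∈ K, f x ≤ 0 := by
    intro x hx
    have h1 : x ∈ closure (interior K) := by
      rw [hc.closure_interior_eq_closure_of_nonempty_interior hne]
      exact subset_closure hx
    have h2 : closure (interior K) ⊆ {y | f y ≤ 0} :=
      closure_minimal (fun y hy => (hf y hy).le) (isClosed_le f.continuous continuous_const)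
    exact h2 h1
  have hnn : 0 ≤ᵐ[volume.restrict K] fun x => -f x := by
    refine (ae_restrict_iff' hK.measurableSet).2 (ae_of_all _ fun x hx => ?_)
    have := hle x hx
    simp only [Pi.zero_apply]
    linarith
  have h3 := (setIntegral_eq_zero_iff_of_nonneg_ae hnn hfi).1 hint
  have h4 : ∀ᵐ x ∂volume, x ∈ K → -f x = 0 := (ae_restrict_iff' hK.measurableSet).1 h3
  have h5 : volume (interior K) = 0 := by
    refine measure_mono_null (fun x hx => ?_) (ae_iff.1 h4)
    intro h6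
    have h7 := h6 (interior_subset hx)
    have h8 := hf x hx
    linarith
  exact (isOpen_interior.measure_pos volume hne).ne' h5

/-- ROW 18: interior point. -/
theorem good_interior (k : ℕ) {K : Set (E (2 + k))} (hK : Good k K) (hv : volume K ≠ 0) :
    (0 : E (2 + k)) ∈ interior K := by
  induction k with
  | zero =>
    have h1 := hK.cent (fun i => i.elim0)
    rw [section_zero] at h1
    exact r18_interior hK.conv hK.comp hv h1
  | succ k ih =>
    have hv' := hv
    rw [vol_slice K hK.comp.measurableSet] at hv'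
    obtain ⟨z, hz, hzv⟩ : ∃ z, z ≠ 0 ∧ volume (slice K z) ≠ 0 := by
      by_contra hcon
      push Not at hcon
      refine hv' ?_
      have h1 : (fun z => volume (slice K z)) =ᵐ[volume] fun _ => 0 := by
        have h2 : ∀ᵐ z : ℝ ∂volume, z ≠ 0 := by
          rw [ae_iff]
          simp
        filter_upwards [h2] with z hz
        exact hcon z hz
      rw [lintegral_congr_ae h1, lintegral_zero]
    have h1 := ih (hK.slice z) hzv
    -- the box
    rw [mem_interior]
    refine ⟨{p | ini p ∈ interior (slice K z) ∧ |p (Fin.last (2 + k))| < |z|}, ?_, ?_, ?_⟩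
    · rintro p ⟨hp1, hp2⟩
      have h3' : ini p ∈ slice K z := interior_subset hp1
      have h3 : SC.ext (ini p) z ∈ K := h3'
      have h4 : SC.ext (ini p) (-z) ∈ K := hK.mirror h3
      set w := p (Fin.last (2 + k)) with hw
      obtain ⟨h5, h6⟩ := abs_lt.1 hp2
      have hzz : 0 < |z| := abs_pos.2 hz
      have hq : |w / z| < 1 := by
        rw [abs_div, div_lt_one hzz]
        exact hp2
      obtain ⟨h7, h8⟩ := abs_lt.1 hq
      have h9 := hK.conv h3 h4 (a := (1 + w / z) / 2) (b := (1 - w / z) / 2)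
        (by linarith) (by linarith) (by ring)
      rw [ext_comb, ← add_smul] at h9
      have e1 : (1 + w / z) / 2 + (1 - w / z) / 2 = 1 := by ring
      have e2 : (1 + w / z) / 2 * z + (1 - w / z) / 2 * -z = w := by
        field_simp
        ring
      have h10 : SC.ext (ini p) w = p := ext_ini (n := 2 + k) p
      rw [e1, one_smul, e2, h10] at h9
      exact h9
    · have h3 : Continuous fun p : E (2 + k + 1) => |p (Fin.last (2 + k))| :=
        continuous_abs.comp ((continuous_apply (Fin.last (2 + k))).comp (PiLp.continuous_ofLp 2 _))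
      have h4 : IsOpen {p : E (2 + k + 1) | |p (Fin.last (2 + k))| < |z|} :=
        isOpen_lt h3 continuous_const
      exact (isOpen_interior.preimage cont_ini).inter h4
    · refine ⟨?_, ?_⟩
      · have h3 : ini (0 : E (2 + k + 1)) = 0 := by
          ext i
          simp
        show ini (0 : E (2 + k + 1)) ∈ _
        rw [h3]
        exact h1
      · simpa using hz

end Pool.Agent.Lib.MP_1dedaf_gt.EG

end
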